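import Pool.Agent.Helper749.Fp.DG

open MeasureTheory Metric Set Filter Topology
open scoped ENNReal NNReal RealInnerProductSpace ContDiff

set_option linter.unusedSectionVars false
set_option maxHeartbeats 4000000

namespace Pool.Agent.Helper749.Fp

variable {V : Type*} [NormedAddCommGroup V] [InnerProductSpace ℝ V] [FiniteDimensional ℝ V]
  [MeasurableSpace V] [BorelSpace V]
variable {W : Type*} [NormedAddCommGroup W] [InnerProductSpace ℝ W] [FiniteDimensional ℝ W]
  [MeasurableSpace W] [BorelSpace W]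

/-- energy on near-extremal level sets -/
noncomputable def EE (p α : ℝ) (u : V → W) (c : W) (x0 : V) (R M l ρ : ℝ) : ℝ≥0∞ :=
  ∫⁻ x in ball x0 ρ ∩ {x | M ^ 2 - l < ‖u x - c‖ ^ 2}, eD p α u (ball x0 R) x

theorem ae_prod_of_ae {B : Set V} {P : V → Prop}
    (h : ∀ᵐ x ∂((volume : Measure V).restrict B), P x) :
    ∀ᵐ w ∂((volume : Measure (V × V)).restrict (B ×ˢ B)), P w.1 ∧ P w.2 := by
  rw [Measure.volume_eq_prod, ← Measure.prod_restrict]
  exact (Measure.quasiMeasurePreserving_fst.ae h).and (Measure.quasiMeasurePreserving_snd.ae h)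

theorem half_absorb {X Y : ℝ≥0∞} (hX : X ≠ ⊤) (h : X ≤ Y + ENNReal.ofReal (1 / 2) * X) :
    X ≤ 2 * Y := by
  have h1 : X = ENNReal.ofReal (1 / 2) * X + ENNReal.ofReal (1 / 2) * X := by
    rw [← add_mul, ← ENNReal.ofReal_add (by norm_num) (by norm_num)]; norm_num
  have h2 : ENNReal.ofReal (1 / 2) * X ≤ Y :=
    (ENNReal.add_le_add_iff_right (ENNReal.mul_ne_top ENNReal.ofReal_ne_top hX)).mp
      (h1.symm.le.trans h)
  refine h1.le.trans ?_
  rw [two_mul]
  exact add_le_add h2 h2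

theorem barrier_step [Nontrivial V] {p α C1 : ℝ} (hp : 1 < p) (hα : 0 < α) (hαp : α < p)
    (hC1 : 0 < C1)
    (hC : ∀ σ : ℝ, 0 < σ → ∀ x : V,
      ∫⁻ y : V, ENNReal.ofReal ((min 1 (‖x - y‖ / σ)) ^ p *
        ‖x - y‖ ^ (-((Module.finrank ℝ V : ℝ) + α))) ≤ ENNReal.ofReal (C1 * σ ^ (-α)))
    {Ω : Set V} {u : V → W} (S : Sol p α Ω u) (x0 : V) {R r M κ Λ l ρ' ρ : ℝ} (c : W)
    (hr : 0 < r) (hρ' : 0 < ρ') (hρρ : ρ' < ρ) (hρr : ρ ≤ 4 * r) (hrR : 4 * r < R)
    (hΩ : closedBall x0 R ⊆ Ω) (hM : 1 ≤ M) (hl0 : 0 < l) (hl1 : l ≤ 1)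
    (hMae : ∀ᵐ x ∂((volume : Measure V).restrict (ball x0 R)), ‖u x - c‖ ≤ M)
    (hκ : 0 < κ)
    (hκae : ∀ᵐ x ∂((volume : Measure V).restrict (ball x0 (4 * r))),
      ENNReal.ofReal (κ * r ^ (-α)) ≤ eD p α u (ball x0 R) x)
    (hΛ0 : 0 ≤ Λ)
    (hfar : ∀ᵐ x ∂((volume : Measure V).restrict (ball x0 (4 * r))),
      ∫⁻ y in (ball x0 R)ᶜ, ENNReal.ofReal (‖u x - u y‖ ^ (p - 1) * kr α x y) ≤ ENNReal.ofReal Λ)
    (hΛ : 4 * M * Λ ≤ (1 / 2) * (κ * r ^ (-α))) :
    EE p α u c x0 R M (l / 2) ρ' ≤ ENNReal.ofReal (16 * cP M * l ^ (min p 2 - 1) *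
      (1 + C1 * (r / (ρ - ρ')) ^ α / κ)) * EE p α u c x0 R M l ρ := by
  have hum := S.meas
  have hkm := kr_meas (V := V) α
  have hp0 : 0 < p := by linarith
  have hM0 : 0 < M := by linarith
  have hcP := cP_pos hM0.le
  set σ := ρ - ρ' with hσ
  have hσ0 : 0 < σ := by linarith
  have hρR : ρ < R := by linarith
  set B := ball x0 R with hB
  have hBm : MeasurableSet B := measurableSet_ball
  set ζ := cut x0 ρ' ρ with hζ
  have hζm : Measurable ζ := cut_meas _ _ _
  have hζ0 := cut_nonneg x0 ρ' ρ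
  have hζ1 := cut_le_one x0 ρ' ρ
  rw [← hζ] at hζ0 hζ1
  -- truncated height
  set hh : V → ℝ := fun x => M ^ 2 - (min ‖u x - c‖ M) ^ 2 with hhh
  have hhm : Measurable hh := by rw [hhh]; fun_prop
  have hh0 : ∀ x, 0 ≤ hh x := by
    intro x
    rw [hhh]; simp only
    have h1 : min ‖u x - c‖ M ≤ M := min_le_right _ _
    have h2 : 0 ≤ min ‖u x - c‖ M := le_min (norm_nonneg _) hM0.le
    nlinarith
  set F : V → ℝ := fun x => max 0 (l * ζ x - hh x) with hF
  have hFm : Measurable F := by rw [hF]; fun_prop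
  have hF0 : ∀ x, 0 ≤ F x := fun x => le_max_left _ _
  have hFl : ∀ x, F x ≤ l := by
    intro x
    apply max_le hl0.le
    have h1 := hh0 x
    have h2 : l * ζ x ≤ l * 1 := by gcongr; exact hζ1 x
    linarith
  have hFs : ∀ x, x ∉ ball x0 ρ → F x = 0 := by
    intro x hx
    have h1 : ζ x = 0 := cut_eq_zero hρρ hx
    rw [hF]; simp only
    rw [h1]
    apply max_eq_left
    have := hh0 x
    linarith
  -- energy
  have hmin : ∀ a b : W, |(min ‖a‖ M) ^ 2 - (min ‖b‖ M) ^ 2| ≤ 2 * M * ‖a - b‖ := by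
    intro a b
    have h1 : (min ‖a‖ M) ^ 2 - (min ‖b‖ M) ^ 2 =
        (min ‖a‖ M - min ‖b‖ M) * (min ‖a‖ M + min ‖b‖ M) := by ring
    rw [h1, abs_mul]
    have h2 : |min ‖a‖ M - min ‖b‖ M| ≤ ‖a - b‖ := by
      have := abs_min_sub_min_le_max ‖a‖ M ‖b‖ M
      rw [sub_self, abs_zero, max_eq_left (abs_nonneg _)] at this
      exact this.trans (abs_norm_sub_norm_le a b)
    have h3 : |min ‖a‖ M + min ‖b‖ M| ≤ 2 * M := by
      have h4 : min ‖a‖ M ≤ M := min_le_right _ _
      have h5 : min ‖b‖ M ≤ M := min_le_right _ _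
      have h6 : 0 ≤ min ‖a‖ M := le_min (norm_nonneg _) hM0.le
      have h7 : 0 ≤ min ‖b‖ M := le_min (norm_nonneg _) hM0.le
      rw [abs_of_nonneg (by linarith)]; linarith
    calc _ ≤ ‖a - b‖ * (2 * M) := mul_le_mul h2 h3 (abs_nonneg _) (norm_nonneg _)
      _ = _ := by ring
  have hen := energy_fin hp hα hαp S x0 hρR hΩ (fun x => F x • (u x - c)) (by fun_prop)
    (fun x hx => by rw [hFs x hx, zero_smul])
    (L := 2 * M * M + 1 + M) (σ := σ) (by positivity) hσ0
    (by
      filter_upwards [ae_prod_of_ae hMae] with w hw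
      have e : F w.1 • (u w.1 - c) - F w.2 • (u w.2 - c) =
        (F w.1 - F w.2) • (u w.1 - c) + F w.2 • ((u w.1 - c) - (u w.2 - c)) := by
        module
      rw [e, sub_sub_sub_cancel_right]
      refine (norm_add_le _ _).trans ?_
      rw [norm_smul, norm_smul, Real.norm_eq_abs, Real.norm_of_nonneg (hF0 w.2)]
      have h1 : |F w.1 - F w.2| ≤ min 1 (‖w.1 - w.2‖ / σ) + 2 * M * ‖u w.1 - u w.2‖ := by
        have h2 : |F w.1 - F w.2| ≤ |(l * ζ w.1 - hh w.1) - (l * ζ w.2 - hh w.2)| := by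
          have := abs_max_sub_max_le_max 0 (l * ζ w.1 - hh w.1) 0 (l * ζ w.2 - hh w.2)
          rw [sub_self, abs_zero] at this
          exact this.trans_eq (max_eq_right (abs_nonneg _))
        have h3 : (l * ζ w.1 - hh w.1) - (l * ζ w.2 - hh w.2) = l * (ζ w.1 - ζ w.2) +
            ((min ‖u w.1 - c‖ M) ^ 2 - (min ‖u w.2 - c‖ M) ^ 2) := by
          rw [hhh]; ring
        rw [h3] at h2
        refine h2.trans ((abs_add_le _ _).trans ?_)
        have h4 := hmin (u w.1 - c) (u w.2 - c)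
        rw [sub_sub_sub_cancel_right] at h4
        have h5 : |l * (ζ w.1 - ζ w.2)| ≤ min 1 (‖w.1 - w.2‖ / σ) := by
          rw [abs_mul, abs_of_pos hl0]
          have h6 := cut_lip (x0 := x0) hρρ w.1 w.2
          have h7 : l * |ζ w.1 - ζ w.2| ≤ 1 * |ζ w.1 - ζ w.2| := by gcongr
          linarith
        linarith
      have hm0 : 0 ≤ min 1 (‖w.1 - w.2‖ / σ) := by positivity
      have h8 := hw.1
      have h9 := hFl w.2
      have h10 : (0 : ℝ) ≤ ‖u w.1‖ := norm_nonneg _
      have h11 : (0 : ℝ) ≤ ‖u w.1 - u w.2‖ := norm_nonneg _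
      calc |F w.1 - F w.2| * ‖u w.1 - c‖ + F w.2 * ‖u w.1 - u w.2‖
          ≤ (min 1 (‖w.1 - w.2‖ / σ) + 2 * M * ‖u w.1 - u w.2‖) * M + 1 * ‖u w.1 - u w.2‖ := by
            have h12 : F w.2 ≤ 1 := h9.trans hl1
            gcongr
        _ ≤ (2 * M * M + 1 + M) * (‖u w.1 - u w.2‖ + min 1 (‖w.1 - w.2‖ / σ) *
              (1 + ‖u w.1‖)) := by
            have e5 : (2 * M * M + 1 + M) * (‖u w.1 - u w.2‖ + min 1 (‖w.1 - w.2‖ / σ) *
              (1 + ‖u w.1‖)) - ((min 1 (‖w.1 - w.2‖ / σ) + 2 * M * ‖u w.1 - u w.2‖) * M +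
              1 * ‖u w.1 - u w.2‖) = M * ‖u w.1 - u w.2‖ + (2 * M * M + 1) *
              min 1 (‖w.1 - w.2‖ / σ) + (2 * M * M + 1 + M) * (min 1 (‖w.1 - w.2‖ / σ) *
              ‖u w.1‖) := by ring
            have e6 : 0 ≤ M * ‖u w.1 - u w.2‖ + (2 * M * M + 1) *
              min 1 (‖w.1 - w.2‖ / σ) + (2 * M * M + 1 + M) * (min 1 (‖w.1 - w.2‖ / σ) *
              ‖u w.1‖) := by positivity
            linarith)
    (by
      filter_upwards [hMae] with x hx
      rw [norm_smul, Real.norm_of_nonneg (hF0 x)]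
      have h9 := (hFl x).trans hl1
      have h10 : (0 : ℝ) ≤ ‖u x‖ := norm_nonneg _
      calc F x * ‖u x - c‖ ≤ 1 * M := by gcongr
        _ ≤ _ := by nlinarith [mul_nonneg hM0.le h10])
  -- the positivity set
  set P : Set V := {x | 0 < F x} with hP
  have hPm : MeasurableSet P := measurableSet_lt measurable_const hFm
  set χ : V → ℝ := P.indicator (fun _ => (1 : ℝ)) with hχ
  have hχm : Measurable χ := measurable_const.indicator hPm
  have hχ0 : ∀ x, 0 ≤ χ x := fun x => indicator_nonneg (fun _ _ => zero_le_one) x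
  set q := min p 2 with hq
  have hlq : 0 < l ^ q := by positivity
  have hmas := master hp hα hαp S x0 (by linarith : (0:ℝ) ≤ R) hρR hΩ c F hFm hF0 hFs hen.1 hen.2
    (fun w => cP M * l ^ q * (‖u w.1 - u w.2‖ ^ p + |ζ w.1 - ζ w.2| ^ p) * (χ w.1 + χ w.2))
    (by fun_prop) (fun w => by have := hχ0 w.1; have := hχ0 w.2; positivity)
    (by
      filter_upwards [ae_prod_of_ae hMae] with w hw
      have hz : 0 ≤ ‖u w.1 - u w.2‖ ^ p := by positivity
      have hx1 := hχ0 w.1
      have hx2 := hχ0 w.2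
      by_cases h1 : w.1 ∈ P ∨ w.2 ∈ P
      · have h2 := ptw_P hp hM0.le hl0 hl1 (u w.1 - c) (u w.2 - c) hw.1 hw.2 (ζ w.1) (ζ w.2)
        rw [sub_sub_sub_cancel_right] at h2
        have e1 : F w.1 = max 0 (l * ζ w.1 - (M ^ 2 - ‖u w.1 - c‖ ^ 2)) := by
          rw [hF, hhh]; simp only; rw [min_eq_left hw.1]
        have e2 : F w.2 = max 0 (l * ζ w.2 - (M ^ 2 - ‖u w.2 - c‖ ^ 2)) := by
          rw [hF, hhh]; simp only; rw [min_eq_left hw.2]
        rw [← e1, ← e2] at h2
        have h3 : 1 ≤ χ w.1 + χ w.2 := by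
          rcases h1 with h1 | h1
          · have : χ w.1 = 1 := by rw [hχ, indicator_of_mem h1]
            linarith
          · have : χ w.2 = 1 := by rw [hχ, indicator_of_mem h1]
            linarith
        have h4 : 0 ≤ cP M * l ^ q * (‖u w.1 - u w.2‖ ^ p + |ζ w.1 - ζ w.2| ^ p) := by positivity
        have h5 : cP M * l ^ q * (‖u w.1 - u w.2‖ ^ p + |ζ w.1 - ζ w.2| ^ p) ≤
            cP M * l ^ q * (‖u w.1 - u w.2‖ ^ p + |ζ w.1 - ζ w.2| ^ p) * (χ w.1 + χ w.2) :=
          le_mul_of_one_le_right h4 h3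
        have h6 : 0 ≤ ‖u w.1 - u w.2‖ ^ p * (F w.1 + F w.2) :=
          mul_nonneg hz (add_nonneg (hF0 _) (hF0 _))
        linarith
      · push Not at h1
        have e1 : F w.1 = 0 := le_antisymm (not_lt.mp h1.1) (hF0 _)
        have e2 : F w.2 = 0 := le_antisymm (not_lt.mp h1.2) (hF0 _)
        have h4 : 0 ≤ cP M * l ^ q * (‖u w.1 - u w.2‖ ^ p + |ζ w.1 - ζ w.2| ^ p) *
          (χ w.1 + χ w.2) := by positivity
        rw [e1, e2]
        simp only [zero_smul, sub_self, inner_zero_right, mul_zero, add_zero, zero_sub]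
        linarith)
  -- the bad term
  set X := ∫⁻ x in B, ENNReal.ofReal (F x) * eD p α u B x with hX
  have hem := eD_meas p α hum B
  have hlev : MeasurableSet {x | M ^ 2 - l < ‖u x - c‖ ^ 2} :=
    measurableSet_lt measurable_const (by fun_prop)
  have hcB : IsCompact (closedBall x0 R) := isCompact_closedBall x0 R
  have hXt : X ≠ ⊤ := by
    have hA : ∫⁻ w in B ×ˢ B, ENNReal.ofReal (‖u w.1 - u w.2‖ ^ p * kr α w.1 w.2) < ⊤ := by
      refine lt_of_le_of_lt ?_ (S.sob _ hcB hΩ)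
      exact lintegral_mono_set (prod_mono ball_subset_closedBall ball_subset_closedBall)
    rw [setLIntegral_prod' _ _ _ (by fun_prop)] at hA
    refine ne_of_lt (lt_of_le_of_lt (lintegral_mono (fun x => ?_)) hA)
    have : ENNReal.ofReal (F x) ≤ 1 := by
      rw [← ENNReal.ofReal_one]; exact ENNReal.ofReal_le_ofReal ((hFl x).trans hl1)
    calc ENNReal.ofReal (F x) * eD p α u B x ≤ 1 * eD p α u B x := by gcongr
      _ = _ := by rw [one_mul]; rfl
  -- relation of P with level set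
  have hPB : ∀ᵐ x ∂((volume : Measure V).restrict B),
      x ∈ P → x ∈ ball x0 ρ ∩ {x | M ^ 2 - l < ‖u x - c‖ ^ 2} := by
    filter_upwards [hMae] with x hx hxP
    have hxP' : 0 < F x := hxP
    have hxρ : x ∈ ball x0 ρ := by
      by_contra hc
      rw [hFs x hc] at hxP'
      exact lt_irrefl _ hxP'
    refine ⟨hxρ, ?_⟩
    have h1 : 0 < l * ζ x - hh x := by
      by_contra hc
      have : F x = 0 := max_eq_left (not_lt.mp hc)
      rw [this] at hxP'
      exact lt_irrefl _ hxP'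
    have h2 : hh x = M ^ 2 - ‖u x - c‖ ^ 2 := by rw [hhh]; simp only; rw [min_eq_left hx]
    have h3 : l * ζ x ≤ l * 1 := by gcongr; exact hζ1 x
    show M ^ 2 - l < ‖u x - c‖ ^ 2
    linarith
  set E1 := EE p α u c x0 R M l ρ with hE1
  have hκr : 0 < κ * r ^ (-α) := by positivity
  have hσr : 0 < (r / σ) ^ α := by positivity
  -- pointwise domination on P
  have hdom : ∀ᵐ x ∂((volume : Measure V).restrict B),
      ENNReal.ofReal (χ x) * (eD p α u B x + ENNReal.ofReal (C1 * σ ^ (-α))) ≤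
      ENNReal.ofReal (1 + C1 * (r / σ) ^ α / κ) *
        (ball x0 ρ ∩ {x | M ^ 2 - l < ‖u x - c‖ ^ 2}).indicator (fun x => eD p α u B x) x := by
    have hκ' : ∀ᵐ x ∂((volume : Measure V).restrict B), x ∈ ball x0 (4 * r) →
        ENNReal.ofReal (κ * r ^ (-α)) ≤ eD p α u B x := by
      have h1 := (ae_restrict_iff' measurableSet_ball).mp hκae
      exact ae_restrict_of_ae h1
    filter_upwards [hPB, hκ'] with x hx1 hx2
    by_cases hxP : x ∈ P
    · have h1 := hx1 hxP
      have h2 := hx2 (ball_subset_ball hρr h1.1)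
      have h3 : χ x = 1 := by rw [hχ, indicator_of_mem hxP]
      rw [indicator_of_mem h1, h3, ENNReal.ofReal_one, one_mul,
        ENNReal.ofReal_add zero_le_one (by positivity), ENNReal.ofReal_one, add_mul, one_mul]
      gcongr
      calc ENNReal.ofReal (C1 * σ ^ (-α))
          = ENNReal.ofReal (C1 * (r / σ) ^ α / κ) * ENNReal.ofReal (κ * r ^ (-α)) := by
            rw [← ENNReal.ofReal_mul (by positivity)]
            congr 1
            rw [Real.div_rpow hr.le hσ0.le, Real.rpow_neg hr.le, Real.rpow_neg hσ0.le]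
            have h4 : r ^ α ≠ 0 := by positivity
            have h5 : σ ^ α ≠ 0 := by positivity
            field_simp
        _ ≤ _ := by gcongr
    · have h3 : χ x = 0 := by rw [hχ, indicator_of_notMem hxP]
      rw [h3, ENNReal.ofReal_zero, zero_mul]
      exact zero_le
  have hbad : ∫⁻ w in B ×ˢ B, ENNReal.ofReal (cP M * l ^ q * (‖u w.1 - u w.2‖ ^ p +
      |ζ w.1 - ζ w.2| ^ p) * (χ w.1 + χ w.2) * kr α w.1 w.2) ≤
      2 * (ENNReal.ofReal (cP M * l ^ q) * (ENNReal.ofReal (1 + C1 * (r / σ) ^ α / κ) * E1)) := by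
    have e1 : ∀ w : V × V, ENNReal.ofReal (cP M * l ^ q * (‖u w.1 - u w.2‖ ^ p +
        |ζ w.1 - ζ w.2| ^ p) * (χ w.1 + χ w.2) * kr α w.1 w.2) =
        ENNReal.ofReal (cP M * l ^ q) * (ENNReal.ofReal (χ w.1) *
          ENNReal.ofReal ((‖u w.1 - u w.2‖ ^ p + |ζ w.1 - ζ w.2| ^ p) * kr α w.1 w.2)) +
        ENNReal.ofReal (cP M * l ^ q) * (ENNReal.ofReal (χ w.2) *
          ENNReal.ofReal ((‖u w.2 - u w.1‖ ^ p + |ζ w.2 - ζ w.1| ^ p) * kr α w.2 w.1)) := by
      intro w
      have h1 := kr_nonneg α w.1 w.2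
      have h2 := kr_nonneg α w.2 w.1
      have h3 := hχ0 w.1
      have h4 := hχ0 w.2
      rw [← ENNReal.ofReal_mul h3, ← ENNReal.ofReal_mul h4, ← ENNReal.ofReal_mul (by positivity),
        ← ENNReal.ofReal_mul (by positivity), ← ENNReal.ofReal_add (by positivity) (by positivity),
        norm_sub_rev (u w.2) (u w.1), abs_sub_comm (ζ w.2), kr_symm α w.2]
      congr 1
      ring
    simp only [e1]
    rw [lintegral_add_left (by fun_prop)]
    have e2 := setLIntegral_prod_swap' (V := V) B (fun w => ENNReal.ofReal (cP M * l ^ q) *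
      (ENNReal.ofReal (χ w.1) *
          ENNReal.ofReal ((‖u w.1 - u w.2‖ ^ p + |ζ w.1 - ζ w.2| ^ p) * kr α w.1 w.2)))
    simp only [Prod.fst_swap, Prod.snd_swap] at e2
    rw [e2, two_mul]
    have e3 : ∫⁻ w in B ×ˢ B, ENNReal.ofReal (cP M * l ^ q) * (ENNReal.ofReal (χ w.1) *
          ENNReal.ofReal ((‖u w.1 - u w.2‖ ^ p + |ζ w.1 - ζ w.2| ^ p) * kr α w.1 w.2)) ≤
        ENNReal.ofReal (cP M * l ^ q) * (ENNReal.ofReal (1 + C1 * (r / σ) ^ α / κ) * E1) := by
      rw [lintegral_const_mul _ (by fun_prop), setLIntegral_prod' _ _ _ (by fun_prop)]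
      gcongr
      have e4 : ∀ x : V, ∫⁻ y in B, ENNReal.ofReal (χ x) *
          ENNReal.ofReal ((‖u x - u y‖ ^ p + |ζ x - ζ y| ^ p) * kr α x y) ≤
          ENNReal.ofReal (χ x) * (eD p α u B x + ENNReal.ofReal (C1 * σ ^ (-α))) := by
        intro x
        have hkx := kr_meas_right (V := V) α x
        rw [lintegral_const_mul _ (by fun_prop)]
        gcongr
        have e5 : ∀ y : V, ENNReal.ofReal ((‖u x - u y‖ ^ p + |ζ x - ζ y| ^ p) * kr α x y) =
            ENNReal.ofReal (‖u x - u y‖ ^ p * kr α x y) +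
            ENNReal.ofReal (|ζ x - ζ y| ^ p * kr α x y) := by
          intro y
          have h1 := kr_nonneg α x y
          rw [← ENNReal.ofReal_add (by positivity) (by positivity), add_mul]
        simp only [e5]
        rw [lintegral_add_left (by fun_prop)]
        gcongr
        · exact le_rfl
        · refine (setLIntegral_le_lintegral _ _).trans (le_trans (lintegral_mono (fun y => ?_))
            (hC σ hσ0 x))
          apply ENNReal.ofReal_le_ofReal
          have hl := cut_lip (x0 := x0) hρρ x y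
          have hk0 := kr_nonneg α x y
          have : |ζ x - ζ y| ^ p ≤ (min 1 (‖x - y‖ / σ)) ^ p :=
            Real.rpow_le_rpow (abs_nonneg _) hl hp0.le
          exact mul_le_mul_of_nonneg_right this hk0
      refine (lintegral_mono e4).trans ((lintegral_mono_ae hdom).trans_eq ?_)
      rw [lintegral_const_mul _ (hem.indicator (measurableSet_ball.inter hlev))]
      congr 1
      rw [hE1]
      unfold EE
      rw [lintegral_indicator (measurableSet_ball.inter hlev),
        Measure.restrict_restrict (measurableSet_ball.inter hlev)]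
      congr 2
      apply inter_eq_left.mpr
      exact inter_subset_left.trans (ball_subset_ball hρR.le)
    exact add_le_add e3 e3
  -- the far term
  have hfar' : 4 * ∫⁻ x in B, ENNReal.ofReal (F x * ‖u x - c‖) *
        ∫⁻ y in Bᶜ, ENNReal.ofReal (‖u x - u y‖ ^ (p - 1) * kr α x y) ≤
      ENNReal.ofReal (1 / 2) * X := by
    have hf' : ∀ᵐ x ∂((volume : Measure V).restrict B), x ∈ ball x0 (4 * r) →
        ENNReal.ofReal (κ * r ^ (-α)) ≤ eD p α u B x ∧
        ∫⁻ y in Bᶜ, ENNReal.ofReal (‖u x - u y‖ ^ (p - 1) * kr α x y) ≤ ENNReal.ofReal Λ := by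
      have h1 := (ae_restrict_iff' measurableSet_ball).mp (hκae.and hfar)
      exact ae_restrict_of_ae h1
    rw [← lintegral_const_mul' _ _ (by norm_num : (4 : ℝ≥0∞) ≠ ⊤), hX,
      ← lintegral_const_mul' _ _ ENNReal.ofReal_ne_top]
    apply lintegral_mono_ae
    filter_upwards [hf', hMae] with x hx hxM
    by_cases hxr : x ∈ ball x0 ρ
    · obtain ⟨h1, h2⟩ := hx (ball_subset_ball hρr hxr)
      have e4 : (4 : ℝ≥0∞) = ENNReal.ofReal 4 := by norm_num
      calc 4 * (ENNReal.ofReal (F x * ‖u x - c‖) *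
            ∫⁻ y in Bᶜ, ENNReal.ofReal (‖u x - u y‖ ^ (p - 1) * kr α x y))
          ≤ 4 * (ENNReal.ofReal (F x * M) * ENNReal.ofReal Λ) := by
            have h3 : F x * ‖u x - c‖ ≤ F x * M := mul_le_mul_of_nonneg_left hxM (hF0 x)
            gcongr
        _ = ENNReal.ofReal (F x) * ENNReal.ofReal (4 * M * Λ) := by
            have h4 := hF0 x
            rw [e4, ← ENNReal.ofReal_mul (by positivity), ← ENNReal.ofReal_mul (by positivity),
              ← ENNReal.ofReal_mul h4]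
            congr 1; ring
        _ ≤ ENNReal.ofReal (F x) * ENNReal.ofReal ((1 / 2) * (κ * r ^ (-α))) := by gcongr
        _ = ENNReal.ofReal (1 / 2) * (ENNReal.ofReal (F x) * ENNReal.ofReal (κ * r ^ (-α))) := by
            rw [ENNReal.ofReal_mul (by norm_num)]; ring
        _ ≤ _ := by gcongr
    · rw [hFs x hxr]; simp
  -- combine
  have hXle : X ≤ 2 * (2 * (2 * (ENNReal.ofReal (cP M * l ^ q) *
      (ENNReal.ofReal (1 + C1 * (r / σ) ^ α / κ) * E1)))) := by
    apply half_absorb hXt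
    refine hmas.trans (add_le_add ?_ hfar')
    gcongr
  -- lower bound of X
  have hXlow : ENNReal.ofReal (l / 2) * EE p α u c x0 R M (l / 2) ρ' ≤ X := by
    unfold EE
    have hlev' : MeasurableSet {x | M ^ 2 - l / 2 < ‖u x - c‖ ^ 2} :=
      measurableSet_lt measurable_const (by fun_prop)
    rw [← lintegral_const_mul _ hem, hX]
    have hsub : ball x0 ρ' ∩ {x | M ^ 2 - l / 2 < ‖u x - c‖ ^ 2} ⊆ B :=
      inter_subset_left.trans (ball_subset_ball (by linarith))
    refine le_trans ?_ (lintegral_mono_set hsub)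
    apply lintegral_mono_ae
    refine (ae_restrict_iff' (measurableSet_ball.inter hlev')).mpr ?_
    have h1 := (ae_restrict_iff' hBm).mp hMae
    filter_upwards [h1] with x hx1 hx2
    have h3 : hh x = M ^ 2 - ‖u x - c‖ ^ 2 := by
      rw [hhh]; simp only; rw [min_eq_left (hx1 (hsub hx2))]
    have h4 : ζ x = 1 := cut_eq_one hρρ hx2.1
    have h5 : M ^ 2 - l / 2 < ‖u x - c‖ ^ 2 := hx2.2
    have h6 : l / 2 ≤ F x := by
      rw [hF]; simp only
      rw [h3, h4]
      apply le_max_of_le_right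
      linarith
    gcongr
  have hfin := hXlow.trans hXle
  have hl2 : ENNReal.ofReal (2 / l) * ENNReal.ofReal (l / 2) = 1 := by
    rw [← ENNReal.ofReal_mul (by positivity)]
    have : 2 / l * (l / 2) = 1 := by field_simp
    rw [this, ENNReal.ofReal_one]
  calc EE p α u c x0 R M (l / 2) ρ'
      = ENNReal.ofReal (2 / l) * (ENNReal.ofReal (l / 2) * EE p α u c x0 R M (l / 2) ρ') := by
        rw [← mul_assoc, hl2, one_mul]
    _ ≤ ENNReal.ofReal (2 / l) * (2 * (2 * (2 * (ENNReal.ofReal (cP M * l ^ q) *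
      (ENNReal.ofReal (1 + C1 * (r / σ) ^ α / κ) * E1))))) := by gcongr
    _ = _ := by
        have e8 : ENNReal.ofReal (2 / l) * (2 * (2 * (2 * (ENNReal.ofReal (cP M * l ^ q) *
          (ENNReal.ofReal (1 + C1 * (r / σ) ^ α / κ) * E1))))) =
          (ENNReal.ofReal (2 / l) * 8 * ENNReal.ofReal (cP M * l ^ q) *
          ENNReal.ofReal (1 + C1 * (r / σ) ^ α / κ)) * E1 := by ring
        rw [e8, show (8 : ℝ≥0∞) = ENNReal.ofReal 8 by norm_num, ← ENNReal.ofReal_mul (by positivity),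
          ← ENNReal.ofReal_mul (by positivity), ← ENNReal.ofReal_mul (by positivity)]
        congr 2
        have h9 : l ^ q = l ^ (q - 1) * l := by
          nth_rewrite 3 [← Real.rpow_one l]
          rw [← Real.rpow_add hl0]; congr 1; ring
        rw [h9]
        field_simp
        ring

end Pool.Agent.Helper749.Fp
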