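import Pool.Agent.Helper749.Fp.Energy

open MeasureTheory Metric Set Filter Topology
open scoped ENNReal NNReal RealInnerProductSpace ContDiff

set_option linter.unusedSectionVars false
set_option maxHeartbeats 4000000

namespace Pool.Agent.Helper749.Fp

variable {V : Type*} [NormedAddCommGroup V] [InnerProductSpace ℝ V] [FiniteDimensional ℝ V]
  [MeasurableSpace V] [BorelSpace V]
variable {W : Type*} [NormedAddCommGroup W] [InnerProductSpace ℝ W] [FiniteDimensional ℝ W]
  [MeasurableSpace W] [BorelSpace W]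

/-- level function -/
noncomputable def gk (k k' t : ℝ) : ℝ := max 0 (min 1 ((t - k) / (k' - k)))

theorem gk_meas (k k' : ℝ) : Measurable (gk k k') := by unfold gk; fun_prop

theorem gk_nonneg (k k' t : ℝ) : 0 ≤ gk k k' t := le_max_left _ _

theorem gk_le_one (k k' t : ℝ) : gk k k' t ≤ 1 := max_le zero_le_one (min_le_left _ _)

theorem gk_mono {k k' : ℝ} (h : k < k') {s t : ℝ} (hst : s ≤ t) : gk k k' s ≤ gk k k' t := by
  unfold gk
  have : 0 < k' - k := by linarith
  gcongr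

theorem gk_zero {k k' t : ℝ} (h : k < k') (ht : t ≤ k) : gk k k' t = 0 := by
  unfold gk
  have : (t - k) / (k' - k) ≤ 0 := div_nonpos_of_nonpos_of_nonneg (by linarith) (by linarith)
  exact max_eq_left ((min_le_right _ _).trans this)

theorem gk_one {k k' t : ℝ} (h : k < k') (ht : k' ≤ t) : gk k k' t = 1 := by
  unfold gk
  have : 1 ≤ (t - k) / (k' - k) := by
    rw [le_div_iff₀ (by linarith)]; linarith
  rw [min_eq_left this, max_eq_right zero_le_one]

theorem gk_lip {k k' : ℝ} (h : k < k') (s t : ℝ) : |gk k k' s - gk k k' t| ≤ |s - t| / (k' - k) := by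
  unfold gk
  have h1 := abs_max_sub_max_le_max 0 (min 1 ((s - k) / (k' - k))) 0 (min 1 ((t - k) / (k' - k)))
  have h2 := abs_min_sub_min_le_max 1 ((s - k) / (k' - k)) 1 ((t - k) / (k' - k))
  rw [sub_self, abs_zero] at h1 h2
  refine (h1.trans_eq (max_eq_right (abs_nonneg _))).trans
    ((h2.trans_eq (max_eq_right (abs_nonneg _))).trans ?_)
  rw [← sub_div, abs_div, abs_of_pos (by linarith : 0 < k' - k), sub_sub_sub_cancel_right]

theorem gk_vec_lip {k k' : ℝ} (hk : 0 < k) (h : k < k') (a b : W) :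
    ‖gk k k' ‖a‖ • a - gk k k' ‖b‖ • b‖ ≤ (1 + k' / (k' - k)) * ‖a - b‖ := by
  have hkk : 0 < k' - k := by linarith
  have aux : ∀ a b : W, ‖b‖ ≤ k' → ‖gk k k' ‖a‖ • a - gk k k' ‖b‖ • b‖ ≤
      (1 + k' / (k' - k)) * ‖a - b‖ := by
    intro a b hb
    have e : gk k k' ‖a‖ • a - gk k k' ‖b‖ • b = gk k k' ‖a‖ • (a - b) +
        (gk k k' ‖a‖ - gk k k' ‖b‖) • b := by
      rw [smul_sub, sub_smul]; abel
    rw [e]
    refine (norm_add_le _ _).trans ?_
    rw [norm_smul, norm_smul, Real.norm_of_nonneg (gk_nonneg _ _ _), Real.norm_eq_abs]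
    have h1 := gk_lip h ‖a‖ ‖b‖
    have h2 := abs_norm_sub_norm_le a b
    have h3 := gk_le_one k k' ‖a‖
    calc gk k k' ‖a‖ * ‖a - b‖ + |gk k k' ‖a‖ - gk k k' ‖b‖| * ‖b‖
        ≤ 1 * ‖a - b‖ + (‖a - b‖ / (k' - k)) * k' := by
          gcongr
          exact h1.trans (by gcongr)
      _ = _ := by ring
  rcases le_or_gt ‖b‖ k' with hb | hb
  · exact aux a b hb
  · rcases le_or_gt ‖a‖ k' with ha | ha
    · have := aux b a ha
      rwa [norm_sub_rev (gk k k' ‖b‖ • b), norm_sub_rev b a] at this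
    · rw [gk_one h ha.le, gk_one h hb.le, one_smul, one_smul]
      have hk' : 0 < k' := by linarith
      have : 0 ≤ k' / (k' - k) := by positivity
      nlinarith [norm_nonneg (a - b)]

theorem ball_dist {x0 : V} {ρ'' ρ : ℝ} {x y : V} (hx : x ∈ ball x0 ρ'') (hy : y ∈ (ball x0 ρ)ᶜ) :
    ρ - ρ'' ≤ ‖x - y‖ := by
  rw [mem_compl_iff, mem_ball, not_lt] at hy
  rw [mem_ball] at hx
  have := dist_triangle y x x0
  rw [dist_comm y x, dist_eq_norm x y] at this
  linarith

theorem kr_compare {α : ℝ} (hα : 0 < α) {x0 : V} {ρ'' ρ : ℝ} (hρ : 0 < ρ) (h : ρ'' < ρ) {x y : V}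
    (hx : x ∈ ball x0 ρ'') (hy : y ∈ (ball x0 ρ)ᶜ) :
    kr α x y ≤ (ρ / (ρ - ρ'')) ^ ((Module.finrank ℝ V : ℝ) + α) * kr α x0 y := by
  have h1 := ball_dist hx hy
  have hy' : ρ ≤ ‖x0 - y‖ := by
    rw [mem_compl_iff, mem_ball, not_lt, dist_comm, dist_eq_norm] at hy; exact hy
  have hσ : 0 < ρ - ρ'' := by linarith
  have hx' : ‖x - x0‖ < ρ'' := by rwa [mem_ball, dist_eq_norm] at hx
  have h2 : ‖x0 - y‖ ≤ ρ / (ρ - ρ'') * ‖x - y‖ := by
    rw [div_mul_eq_mul_div, le_div_iff₀ hσ]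
    have h3 : ‖x0 - y‖ - ρ'' ≤ ‖x - y‖ := by
      have := norm_sub_le_norm_sub_add_norm_sub x0 x y
      rw [norm_sub_rev x0 x] at this
      linarith
    have hρ'' : 0 < ρ'' := lt_of_le_of_lt (norm_nonneg _) hx'
    have h4 : ρ * (‖x0 - y‖ - ρ'') ≤ ρ * ‖x - y‖ := by gcongr
    have h5 : ρ * ρ'' ≤ ‖x0 - y‖ * ρ'' := by gcongr
    nlinarith
  have hxy : 0 < ‖x - y‖ := by linarith
  have hx0y : 0 < ‖x0 - y‖ := by linarith
  have hd : 0 < (Module.finrank ℝ V : ℝ) + α := by positivity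
  unfold kr
  rw [Real.rpow_neg hxy.le, Real.rpow_neg hx0y.le, ← div_eq_mul_inv, inv_eq_one_div,
    div_le_div_iff₀ (by positivity) (by positivity), one_mul, ← Real.mul_rpow (by positivity) hxy.le]
  exact Real.rpow_le_rpow hx0y.le h2 hd.le

theorem lint_inter {B L : Set V} (hL : MeasurableSet L) (f : V → ℝ≥0∞) :
    ∫⁻ x in B ∩ L, f x = ∫⁻ x in B, L.indicator f x := by
  rw [lintegral_indicator hL, Measure.restrict_restrict hL, inter_comm]

/-- Caccioppoli type estimate at level `k` -/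
theorem cacc [Nontrivial V] {p α C1 : ℝ} (hp : 1 < p) (hα : 0 < α) (hαp : α < p) (hC1 : 0 < C1)
    (hC : ∀ σ : ℝ, 0 < σ → ∀ x : V,
      ∫⁻ y : V, ENNReal.ofReal ((min 1 (‖x - y‖ / σ)) ^ p *
        ‖x - y‖ ^ (-((Module.finrank ℝ V : ℝ) + α))) ≤ ENNReal.ofReal (C1 * σ ^ (-α)))
    {Ω : Set V} {u : V → W} (S : Sol p α Ω u) (x0 : V) {ρ' ρ : ℝ} (h0 : 0 < ρ') (h : ρ' < ρ)
    (hΩ : closedBall x0 ρ ⊆ Ω) (c : W) {k k' T : ℝ} (hk : 0 < k) (hkk : k < k') (hT0 : 0 ≤ T)
    (hT : ∫⁻ y in (ball x0 ρ)ᶜ, ENNReal.ofReal (‖u y - c‖ ^ (p - 1) * kr α x0 y) ≤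
      ENNReal.ofReal T) :
    ∫⁻ x in ball x0 ρ' ∩ {x | k' ≤ ‖u x - c‖}, eD p α u (ball x0 ρ) x ≤
      ENNReal.ofReal (4 * (cC p + 2 ^ (p - 1)) * C1 * ((ρ - ρ') / 2) ^ (-α) +
        4 * 2 ^ (p - 1) * (2 * ρ / (ρ - ρ')) ^ ((Module.finrank ℝ V : ℝ) + α) * (T * k ^ (1 - p))) *
      ∫⁻ x in ball x0 ρ ∩ {x | k < ‖u x - c‖}, ENNReal.ofReal (‖u x - c‖ ^ p) := by
  have hum := S.meas
  have hkm := kr_meas (V := V) α
  have hp0 : 0 < p := by linarith
  have hcC := cC_pos hp
  set σ := ρ - ρ' with hσ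
  have hσ0 : 0 < σ := by linarith
  set ρ'' := ρ' + σ / 2 with hρ''
  have h1 : ρ' < ρ'' := by linarith
  have h2 : ρ'' < ρ := by linarith
  have h3 : ρ'' - ρ' = σ / 2 := by linarith
  have h3' : ρ - ρ'' = σ / 2 := by linarith
  set d : ℝ := (Module.finrank ℝ V : ℝ) + α with hd
  set B := ball x0 ρ with hB
  have hBm : MeasurableSet B := measurableSet_ball
  set ζ := cut x0 ρ' ρ'' with hζ
  have hζm : Measurable ζ := cut_meas _ _ _
  have hζ0 := cut_nonneg x0 ρ' ρ''
  have hζ1 := cut_le_one x0 ρ' ρ''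
  rw [← hζ] at hζ0 hζ1
  set g : V → ℝ := fun x => gk k k' ‖u x - c‖ with hg
  have hgm : Measurable g := (gk_meas k k').comp (by fun_prop)
  have hg0 : ∀ x, 0 ≤ g x := fun x => gk_nonneg _ _ _
  have hg1 : ∀ x, g x ≤ 1 := fun x => gk_le_one _ _ _
  set F : V → ℝ := fun x => ζ x ^ p * g x with hF
  have hFm : Measurable F := by rw [hF]; fun_prop
  have hF0 : ∀ x, 0 ≤ F x := fun x => mul_nonneg (Real.rpow_nonneg (hζ0 x) _) (hg0 x)
  have hζp1 : ∀ x, ζ x ^ p ≤ 1 := fun x => Real.rpow_le_one (hζ0 x) (hζ1 x) hp0.le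
  have hF1 : ∀ x, F x ≤ 1 := fun x => mul_le_one₀ (hζp1 x) (hg0 x) (hg1 x)
  have hFs : ∀ x, x ∉ ball x0 ρ'' → F x = 0 := by
    intro x hx
    rw [hF]; simp only
    rw [hζ, cut_eq_zero h1 hx, Real.zero_rpow hp0.ne', zero_mul]
  -- level integral
  set Z := ∫⁻ x in B ∩ {x | k < ‖u x - c‖}, ENNReal.ofReal (‖u x - c‖ ^ p) with hZ
  have hlevm : MeasurableSet {x | k < ‖u x - c‖} := measurableSet_lt measurable_const (by fun_prop)
  have hgZ : ∫⁻ x in B, ENNReal.ofReal (g x * ‖u x - c‖ ^ p) ≤ Z := by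
    rw [hZ, lint_inter hlevm]
    apply lintegral_mono
    intro x
    by_cases hx : k < ‖u x - c‖
    · rw [indicator_of_mem (show x ∈ {x | k < ‖u x - c‖} from hx)]
      apply ENNReal.ofReal_le_ofReal
      exact mul_le_of_le_one_left (by positivity) (hg1 x)
    · have : g x = 0 := gk_zero hkk (not_lt.mp hx)
      simp only
      rw [this, zero_mul, ENNReal.ofReal_zero]
      exact zero_le
  -- energy
  have hen := energy_fin hp hα hαp S x0 h2 hΩ (fun x => F x • (u x - c)) (by fun_prop)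
    (fun x hx => by rw [hFs x hx, zero_smul])
    (L := (1 + p + k' / (k' - k)) * (1 + ‖c‖)) (σ := σ / 2) (by
      have : 0 < k' - k := by linarith
      have : 0 < k' := by linarith
      positivity) (by linarith)
    (Eventually.of_forall (fun w => by
      have hkk0 : 0 < k' - k := by linarith
      have hk' : 0 < k' := by linarith
      have hm0 : 0 ≤ min 1 (‖w.1 - w.2‖ / (σ / 2)) := by positivity
      have e : F w.1 • (u w.1 - c) - F w.2 • (u w.2 - c) =
        (ζ w.1 ^ p - ζ w.2 ^ p) • (g w.1 • (u w.1 - c)) +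
          ζ w.2 ^ p • (g w.1 • (u w.1 - c) - g w.2 • (u w.2 - c)) := by
        simp only [hF]
        module
      rw [e]
      refine (norm_add_le _ _).trans ?_
      rw [norm_smul, norm_smul, norm_smul, Real.norm_eq_abs,
        Real.norm_of_nonneg (hg0 w.1), Real.norm_of_nonneg (Real.rpow_nonneg (hζ0 w.2) p)]
      have hz1 : |ζ w.1 ^ p - ζ w.2 ^ p| ≤ p * min 1 (‖w.1 - w.2‖ / (σ / 2)) := by
        have hl : |ζ w.1 - ζ w.2| ≤ min 1 (‖w.1 - w.2‖ / (σ / 2)) := by
          have := cut_lip (x0 := x0) h1 w.1 w.2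
          rwa [h3] at this
        have haux : ∀ s t : ℝ, 0 ≤ s → s ≤ t → t ≤ 1 → t ^ p - s ^ p ≤ p * (t - s) := by
          intro s t hs hst ht
          have h4 := tangent_rpow hp hs hst
          have h5 : t ^ (p - 1) ≤ 1 := Real.rpow_le_one (hs.trans hst) ht (by linarith)
          have h6 : p * t ^ (p - 1) * (t - s) ≤ p * 1 * (t - s) := by
            have : 0 ≤ t - s := by linarith
            gcongr
          linarith
        rcases le_total (ζ w.1) (ζ w.2) with h4 | h4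
        · have h5 := haux _ _ (hζ0 w.1) h4 (hζ1 w.2)
          have h6 : ζ w.1 ^ p ≤ ζ w.2 ^ p := Real.rpow_le_rpow (hζ0 _) h4 hp0.le
          rw [abs_of_nonpos (by linarith)]
          rw [abs_of_nonpos (by linarith)] at hl
          nlinarith
        · have h5 := haux _ _ (hζ0 w.2) h4 (hζ1 w.1)
          have h6 : ζ w.2 ^ p ≤ ζ w.1 ^ p := Real.rpow_le_rpow (hζ0 _) h4 hp0.le
          rw [abs_of_nonneg (by linarith)]
          rw [abs_of_nonneg (by linarith)] at hl
          nlinarith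
      have hz2 := gk_vec_lip hk hkk (u w.1 - c) (u w.2 - c)
      rw [sub_sub_sub_cancel_right] at hz2
      have hn : ‖u w.1 - c‖ ≤ (1 + ‖c‖) * (1 + ‖u w.1‖) := by
        have := norm_sub_le (u w.1) c
        nlinarith [norm_nonneg (u w.1), norm_nonneg c]
      calc |ζ w.1 ^ p - ζ w.2 ^ p| * (g w.1 * ‖u w.1 - c‖) +
            ζ w.2 ^ p * ‖g w.1 • (u w.1 - c) - g w.2 • (u w.2 - c)‖
          ≤ (p * min 1 (‖w.1 - w.2‖ / (σ / 2))) * (1 * ((1 + ‖c‖) * (1 + ‖u w.1‖))) +
            1 * ((1 + k' / (k' - k)) * ‖u w.1 - u w.2‖) := by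
            have hz2' : ‖g w.1 • (u w.1 - c) - g w.2 • (u w.2 - c)‖ ≤
              (1 + k' / (k' - k)) * ‖u w.1 - u w.2‖ := hz2
            have hg1' := hg1 w.1
            have hζp1' := hζp1 w.2
            have hg0' := hg0 w.1
            gcongr
        _ ≤ _ := by
            have e1 : 0 ≤ min 1 (‖w.1 - w.2‖ / (σ / 2)) * (1 + ‖u w.1‖) := by positivity
            have e2 : 0 ≤ k' / (k' - k) := by positivity
            have e3 : (0:ℝ) ≤ ‖c‖ := norm_nonneg c
            have e4 : 0 ≤ ‖u w.1 - u w.2‖ := norm_nonneg _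
            have e5 : (1 + p + k' / (k' - k)) * (1 + ‖c‖) * (‖u w.1 - u w.2‖ +
                min 1 (‖w.1 - w.2‖ / (σ / 2)) * (1 + ‖u w.1‖)) -
                ((p * min 1 (‖w.1 - w.2‖ / (σ / 2))) * (1 * ((1 + ‖c‖) * (1 + ‖u w.1‖))) +
                1 * ((1 + k' / (k' - k)) * ‖u w.1 - u w.2‖)) =
                (1 + k' / (k' - k)) * (1 + ‖c‖) * (min 1 (‖w.1 - w.2‖ / (σ / 2)) * (1 + ‖u w.1‖)) +
                (p * (1 + ‖c‖) + (1 + k' / (k' - k)) * ‖c‖) * ‖u w.1 - u w.2‖ := by ring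
            have e6 : 0 ≤ (1 + k' / (k' - k)) * (1 + ‖c‖) *
                (min 1 (‖w.1 - w.2‖ / (σ / 2)) * (1 + ‖u w.1‖)) +
                (p * (1 + ‖c‖) + (1 + k' / (k' - k)) * ‖c‖) * ‖u w.1 - u w.2‖ := by positivity
            linarith))
    (Eventually.of_forall (fun x => by
      have hkk0 : 0 < k' - k := by linarith
      have hk' : 0 < k' := by linarith
      have e2 : 0 ≤ k' / (k' - k) := by positivity
      rw [norm_smul, Real.norm_of_nonneg (hF0 x)]
      have := norm_sub_le (u x) c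
      calc F x * ‖u x - c‖ ≤ 1 * (‖u x‖ + ‖c‖) := by
            gcongr
            exact hF1 x
        _ ≤ (1 + p + k' / (k' - k)) * (1 + ‖c‖) * (1 + ‖u x‖) := by
            have e3 : (0:ℝ) ≤ ‖c‖ := norm_nonneg c
            have e4 : (0:ℝ) ≤ ‖u x‖ := norm_nonneg _
            have e5 : 0 ≤ (p + k' / (k' - k)) * ((1 + ‖c‖) * (1 + ‖u x‖)) := by positivity
            nlinarith [mul_nonneg e3 e4]))
  -- apply master
  have hmas := master hp hα hαp S x0 (by linarith : (0:ℝ) ≤ ρ) h2 hΩ c F hFm hF0 hFs hen.1 hen.2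
    (fun w => cC p * |ζ w.1 - ζ w.2| ^ p * (g w.1 * ‖u w.1 - c‖ ^ p + g w.2 * ‖u w.2 - c‖ ^ p))
    (by fun_prop) (fun w => by have := hg0 w.1; have := hg0 w.2; positivity)
    (Eventually.of_forall (fun w => by
      have h4 := ptw_C hp (u w.1 - c) (u w.2 - c) (g w.1) (g w.2) (ζ w.1) (ζ w.2) (hg0 _) (hg0 _)
        (fun h5 => gk_mono hkk h5) (fun h5 => gk_mono hkk h5) (hζ0 _) (hζ0 _)
      rw [sub_sub_sub_cancel_right] at h4
      exact h4))
  -- left side
  have hL : ∫⁻ x in ball x0 ρ' ∩ {x | k' ≤ ‖u x - c‖}, eD p α u B x ≤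
      ∫⁻ x in B, ENNReal.ofReal (F x) * eD p α u B x := by
    have hlm : MeasurableSet {x | k' ≤ ‖u x - c‖} := measurableSet_le measurable_const (by fun_prop)
    refine le_trans ?_ (lintegral_mono_set (inter_subset_left.trans (ball_subset_ball h.le)) :
      ∫⁻ x in ball x0 ρ' ∩ {x | k' ≤ ‖u x - c‖}, ENNReal.ofReal (F x) * eD p α u B x ≤ _)
    apply setLIntegral_mono' (measurableSet_ball.inter hlm)
    intro x hx
    have : F x = 1 := by
      rw [hF]; simp only
      rw [hζ, cut_eq_one h1 hx.1, hg]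
      simp only
      rw [gk_one hkk hx.2, Real.one_rpow, one_mul]
    rw [this, ENNReal.ofReal_one, one_mul]
  -- bad term
  have hbad : ∫⁻ w in B ×ˢ B, ENNReal.ofReal (cC p * |ζ w.1 - ζ w.2| ^ p * (g w.1 * ‖u w.1 - c‖ ^ p
      + g w.2 * ‖u w.2 - c‖ ^ p) * kr α w.1 w.2) ≤
      2 * (ENNReal.ofReal (cC p * (C1 * (σ / 2) ^ (-α))) * Z) := by
    have e1 : ∀ w : V × V, ENNReal.ofReal (cC p * |ζ w.1 - ζ w.2| ^ p * (g w.1 * ‖u w.1 - c‖ ^ p
      + g w.2 * ‖u w.2 - c‖ ^ p) * kr α w.1 w.2) =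
      ENNReal.ofReal (g w.1 * ‖u w.1 - c‖ ^ p) *
        ENNReal.ofReal (cC p * (|ζ w.1 - ζ w.2| ^ p * kr α w.1 w.2)) +
      ENNReal.ofReal (g w.2 * ‖u w.2 - c‖ ^ p) *
        ENNReal.ofReal (cC p * (|ζ w.2 - ζ w.1| ^ p * kr α w.2 w.1)) := by
      intro w
      have := kr_nonneg α w.1 w.2
      have := kr_nonneg α w.2 w.1
      have := hg0 w.1
      have := hg0 w.2
      rw [← ENNReal.ofReal_mul (by positivity), ← ENNReal.ofReal_mul (by positivity),
        ← ENNReal.ofReal_add (by positivity) (by positivity), abs_sub_comm (ζ w.2), kr_symm α w.2]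
      congr 1
      ring
    simp only [e1]
    rw [lintegral_add_left (by fun_prop)]
    have e2 := setLIntegral_prod_swap' (V := V) B (fun w => ENNReal.ofReal (g w.1 * ‖u w.1 - c‖ ^ p) *
        ENNReal.ofReal (cC p * (|ζ w.1 - ζ w.2| ^ p * kr α w.1 w.2)))
    simp only [Prod.fst_swap, Prod.snd_swap] at e2
    rw [e2, two_mul]
    have e3 : ∫⁻ w in B ×ˢ B, ENNReal.ofReal (g w.1 * ‖u w.1 - c‖ ^ p) *
        ENNReal.ofReal (cC p * (|ζ w.1 - ζ w.2| ^ p * kr α w.1 w.2)) ≤
        ENNReal.ofReal (cC p * (C1 * (σ / 2) ^ (-α))) * Z := by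
      rw [setLIntegral_prod' _ _ _ (by fun_prop)]
      have e4 : ∀ x : V, ∫⁻ y in B, ENNReal.ofReal (g x * ‖u x - c‖ ^ p) *
          ENNReal.ofReal (cC p * (|ζ x - ζ y| ^ p * kr α x y)) ≤
          ENNReal.ofReal (cC p * (C1 * (σ / 2) ^ (-α))) * ENNReal.ofReal (g x * ‖u x - c‖ ^ p) := by
        intro x
        have hkx := kr_meas_right (V := V) α x
        rw [lintegral_const_mul _ (by fun_prop), mul_comm]
        gcongr
        simp only [ENNReal.ofReal_mul hcC.le]
        rw [lintegral_const_mul _ (by fun_prop)]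
        gcongr
        refine (setLIntegral_le_lintegral _ _).trans (le_trans (lintegral_mono (fun y => ?_))
          (hC (σ / 2) (by linarith) x))
        apply ENNReal.ofReal_le_ofReal
        have hl := cut_lip (x0 := x0) h1 x y
        rw [h3] at hl
        have hk0 := kr_nonneg α x y
        have : |ζ x - ζ y| ^ p ≤ (min 1 (‖x - y‖ / (σ / 2))) ^ p :=
          Real.rpow_le_rpow (abs_nonneg _) hl hp0.le
        exact mul_le_mul_of_nonneg_right this hk0
      refine (lintegral_mono e4).trans ?_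
      rw [lintegral_const_mul _ (by fun_prop)]
      gcongr
    exact add_le_add e3 e3
  -- far term
  have hfar : ∫⁻ x in B, ENNReal.ofReal (F x * ‖u x - c‖) *
        ∫⁻ y in Bᶜ, ENNReal.ofReal (‖u x - u y‖ ^ (p - 1) * kr α x y) ≤
      ENNReal.ofReal (2 ^ (p - 1) * (C1 * (σ / 2) ^ (-α)) +
        2 ^ (p - 1) * (2 * ρ / σ) ^ d * (T * k ^ (1 - p))) * Z := by
    have e0 : ∀ x ∈ B, ENNReal.ofReal (F x * ‖u x - c‖) *
        ∫⁻ y in Bᶜ, ENNReal.ofReal (‖u x - u y‖ ^ (p - 1) * kr α x y) ≤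
        ENNReal.ofReal (2 ^ (p - 1) * (C1 * (σ / 2) ^ (-α)) +
        2 ^ (p - 1) * (2 * ρ / σ) ^ d * (T * k ^ (1 - p))) *
        ({x | k < ‖u x - c‖}).indicator (fun x => ENNReal.ofReal (‖u x - c‖ ^ p)) x := by
      intro x _
      have hρ0 : 0 < ρ := by linarith
      by_cases hx1 : k < ‖u x - c‖
      · by_cases hx2 : x ∈ ball x0 ρ''
        · rw [indicator_of_mem (show x ∈ {x | k < ‖u x - c‖} from hx1)]
          have hux : 0 < ‖u x - c‖ := by linarith
          have e5 : ∫⁻ y in Bᶜ, ENNReal.ofReal (‖u x - u y‖ ^ (p - 1) * kr α x y) ≤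
              ENNReal.ofReal (2 ^ (p - 1) * ‖u x - c‖ ^ (p - 1) * (C1 * (σ / 2) ^ (-α)) +
              2 ^ (p - 1) * (2 * ρ / σ) ^ d * T) := by
            have e6 : ∀ y ∈ Bᶜ, ENNReal.ofReal (‖u x - u y‖ ^ (p - 1) * kr α x y) ≤
                ENNReal.ofReal (2 ^ (p - 1) * ‖u x - c‖ ^ (p - 1)) * ENNReal.ofReal (kr α x y) +
                ENNReal.ofReal (2 ^ (p - 1) * (2 * ρ / σ) ^ d) *
                ENNReal.ofReal (‖u y - c‖ ^ (p - 1) * kr α x0 y) := by
              intro y hy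
              have hk0 := kr_nonneg α x y
              have hk1 := kr_nonneg α x0 y
              rw [← ENNReal.ofReal_mul (by positivity), ← ENNReal.ofReal_mul (by positivity),
                ← ENNReal.ofReal_add (by positivity) (by positivity)]
              apply ENNReal.ofReal_le_ofReal
              have e7 : ‖u x - u y‖ ^ (p - 1) ≤ 2 ^ (p - 1) * (‖u x - c‖ ^ (p - 1) +
                  ‖u y - c‖ ^ (p - 1)) := by
                refine le_trans ?_ (add_rpow_le_two (by linarith) (norm_nonneg _) (norm_nonneg _))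
                apply Real.rpow_le_rpow (norm_nonneg _) _ (by linarith)
                have := norm_sub_le (u x - c) (u y - c)
                rwa [sub_sub_sub_cancel_right] at this
              have e8 := kr_compare hα (by linarith : (0:ℝ) < ρ) h2 hx2 hy
              rw [h3', ← hd] at e8
              have e9 : ρ / (σ / 2) = 2 * ρ / σ := by field_simp
              rw [e9] at e8
              calc ‖u x - u y‖ ^ (p - 1) * kr α x y
                  ≤ 2 ^ (p - 1) * (‖u x - c‖ ^ (p - 1) + ‖u y - c‖ ^ (p - 1)) * kr α x y := by gcongr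
                _ = 2 ^ (p - 1) * ‖u x - c‖ ^ (p - 1) * kr α x y +
                    2 ^ (p - 1) * ‖u y - c‖ ^ (p - 1) * kr α x y := by ring
                _ ≤ 2 ^ (p - 1) * ‖u x - c‖ ^ (p - 1) * kr α x y +
                    2 ^ (p - 1) * ‖u y - c‖ ^ (p - 1) * ((2 * ρ / σ) ^ d * kr α x0 y) := by gcongr
                _ = _ := by ring
            refine (setLIntegral_mono' hBm.compl e6).trans ?_
            have hkx := kr_meas_right (V := V) α x
            have hkx0 := kr_meas_right (V := V) α x0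
            rw [lintegral_add_left (by fun_prop), lintegral_const_mul _ (by fun_prop),
              lintegral_const_mul _ (by fun_prop)]
            have e10 : ∫⁻ y in Bᶜ, ENNReal.ofReal (kr α x y) ≤
                ENNReal.ofReal (C1 * (σ / 2) ^ (-α)) := by
              apply kern_tail hC (by linarith) x _ hBm.compl
              intro y hy
              have := ball_dist hx2 hy
              rwa [h3'] at this
            calc _ ≤ ENNReal.ofReal (2 ^ (p - 1) * ‖u x - c‖ ^ (p - 1)) *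
                  ENNReal.ofReal (C1 * (σ / 2) ^ (-α)) +
                  ENNReal.ofReal (2 ^ (p - 1) * (2 * ρ / σ) ^ d) * ENNReal.ofReal T := by gcongr
              _ = _ := by
                have hρ0 : 0 < ρ := by linarith
                rw [← ENNReal.ofReal_mul (by positivity), ← ENNReal.ofReal_mul (by positivity),
                  ← ENNReal.ofReal_add (by positivity) (by positivity)]
          refine (mul_le_mul' le_rfl e5).trans ?_
          have hρ0 : 0 < ρ := by linarith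
          rw [← ENNReal.ofReal_mul (mul_nonneg (hF0 x) (norm_nonneg _)),
            ← ENNReal.ofReal_mul (by positivity)]
          apply ENNReal.ofReal_le_ofReal
          have e11 : ‖u x - c‖ ^ (p - 1) * ‖u x - c‖ = ‖u x - c‖ ^ p := rp0 hp (norm_nonneg _)
          have e12 : ‖u x - c‖ ≤ k ^ (1 - p) * ‖u x - c‖ ^ p := by
            rw [← e11]
            have e13 : 1 ≤ k ^ (1 - p) * ‖u x - c‖ ^ (p - 1) := by
              have e14 : k ^ (1 - p) * k ^ (p - 1) = 1 := by
                rw [← Real.rpow_add hk]; simp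
              have e15 : k ^ (p - 1) ≤ ‖u x - c‖ ^ (p - 1) :=
                Real.rpow_le_rpow hk.le hx1.le (by linarith)
              calc 1 = k ^ (1 - p) * k ^ (p - 1) := e14.symm
                _ ≤ _ := by gcongr
            calc ‖u x - c‖ = 1 * ‖u x - c‖ := (one_mul _).symm
              _ ≤ (k ^ (1 - p) * ‖u x - c‖ ^ (p - 1)) * ‖u x - c‖ := by gcongr
              _ = _ := by ring
          have e16 : F x * ‖u x - c‖ ≤ ‖u x - c‖ := mul_le_of_le_one_left hux.le (hF1 x)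
          calc F x * ‖u x - c‖ * (2 ^ (p - 1) * ‖u x - c‖ ^ (p - 1) * (C1 * (σ / 2) ^ (-α)) +
                2 ^ (p - 1) * (2 * ρ / σ) ^ d * T)
              ≤ ‖u x - c‖ * (2 ^ (p - 1) * ‖u x - c‖ ^ (p - 1) * (C1 * (σ / 2) ^ (-α)) +
                2 ^ (p - 1) * (2 * ρ / σ) ^ d * T) := by gcongr
            _ = 2 ^ (p - 1) * (C1 * (σ / 2) ^ (-α)) * (‖u x - c‖ ^ (p - 1) * ‖u x - c‖) +
                2 ^ (p - 1) * (2 * ρ / σ) ^ d * T * ‖u x - c‖ := by ring
            _ ≤ 2 ^ (p - 1) * (C1 * (σ / 2) ^ (-α)) * (‖u x - c‖ ^ p) +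
                2 ^ (p - 1) * (2 * ρ / σ) ^ d * T * (k ^ (1 - p) * ‖u x - c‖ ^ p) := by
                rw [e11]; gcongr
            _ = _ := by ring
        · rw [hFs x hx2, zero_mul, ENNReal.ofReal_zero, zero_mul]; exact zero_le
      · have hg2 : g x = 0 := gk_zero hkk (not_lt.mp hx1)
        have hF2 : F x = 0 := by rw [hF]; simp only; rw [hg2, mul_zero]
        rw [hF2, zero_mul, ENNReal.ofReal_zero, zero_mul]; exact zero_le
    refine (setLIntegral_mono' hBm e0).trans ?_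
    rw [lintegral_const_mul _ ((by fun_prop : Measurable (fun x =>
      ENNReal.ofReal (‖u x - c‖ ^ p))).indicator hlevm), hZ, lint_inter hlevm]
  refine hL.trans (hmas.trans ?_)
  calc _ ≤ 2 * (2 * (ENNReal.ofReal (cC p * (C1 * (σ / 2) ^ (-α))) * Z)) +
        4 * (ENNReal.ofReal (2 ^ (p - 1) * (C1 * (σ / 2) ^ (-α)) +
        2 ^ (p - 1) * (2 * ρ / σ) ^ d * (T * k ^ (1 - p))) * Z) := by
        gcongr
    _ = _ := by
        have hρ0 : 0 < ρ := by linarith
        have e4 : (4 : ℝ≥0∞) = ENNReal.ofReal 4 := by norm_num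
        generalize hX : cC p * (C1 * (σ / 2) ^ (-α)) = X
        generalize hY : 2 ^ (p - 1) * (C1 * (σ / 2) ^ (-α)) +
          2 ^ (p - 1) * (2 * ρ / σ) ^ d * (T * k ^ (1 - p)) = Y
        have hX0 : 0 ≤ X := by rw [← hX]; positivity
        have hY0 : 0 ≤ Y := by rw [← hY]; positivity
        have e5 : 2 * (2 * (ENNReal.ofReal X * Z)) + 4 * (ENNReal.ofReal Y * Z) =
          (4 * ENNReal.ofReal X + 4 * ENNReal.ofReal Y) * Z := by ring
        rw [e5, e4, ← ENNReal.ofReal_mul (by norm_num), ← ENNReal.ofReal_mul (by norm_num),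
          ← ENNReal.ofReal_add (by positivity) (by positivity)]
        congr 2
        rw [← hX, ← hY]
        ring

end Pool.Agent.Helper749.Fp
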