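import Pool.Agent.Helper749.Fp.Cacc

open MeasureTheory Metric Set Filter Topology
open scoped ENNReal NNReal RealInnerProductSpace ContDiff

set_option linter.unusedSectionVars false
set_option maxHeartbeats 4000000

namespace Pool.Agent.Helper749.Fp

variable {V : Type*} [NormedAddCommGroup V] [InnerProductSpace ℝ V] [FiniteDimensional ℝ V]
  [MeasurableSpace V] [BorelSpace V]
variable {W : Type*} [NormedAddCommGroup W] [InnerProductSpace ℝ W] [FiniteDimensional ℝ W]
  [MeasurableSpace W] [BorelSpace W]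

/-- volume of the unit ball -/
noncomputable def om (V : Type*) [NormedAddCommGroup V] [InnerProductSpace ℝ V]
    [FiniteDimensional ℝ V] [MeasurableSpace V] [BorelSpace V] : ℝ :=
  (volume (ball (0 : V) 1)).toReal

theorem om_pos : 0 < om V :=
  ENNReal.toReal_pos (measure_ball_pos _ _ one_pos).ne' measure_ball_lt_top.ne

theorem vol_ball (x : V) {t : ℝ} (ht : 0 < t) :
    volume (ball x t) = ENNReal.ofReal (om V * t ^ Module.finrank ℝ V) := by
  rw [Measure.addHaar_ball_of_pos _ _ ht, mul_comm (om V), ENNReal.ofReal_mul (by positivity)]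
  congr 1
  unfold om
  rw [ENNReal.ofReal_toReal measure_ball_lt_top.ne]

/-- pointwise lower bound for the energy density -/
theorem eD_lower {p α : ℝ} (hp : 1 < p) (hα : 0 < α) {u : V → W} (hu : Measurable u) (x0 : V)
    {ρ' ρ : ℝ} (c : W) {k t : ℝ} (ht : 0 < t) (htσ : t ≤ ρ - ρ')
    (hA : volume (ball x0 ρ ∩ {x | k < ‖u x - c‖}) ≤
      ENNReal.ofReal (1 / 2 * (om V * t ^ Module.finrank ℝ V)))
    {x : V} (hx : x ∈ ball x0 ρ') (hxk : k < ‖u x - c‖) :
    ENNReal.ofReal (1 / 2 * om V * t ^ (-α) * (‖u x - c‖ - k) ^ p) ≤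
      eD p α u (ball x0 ρ) x := by
  set n := Module.finrank ℝ V with hn
  have hom := om_pos (V := V)
  set A := ball x0 ρ ∩ {x | k < ‖u x - c‖} with hAdef
  have hAm : MeasurableSet A :=
    measurableSet_ball.inter (measurableSet_lt measurable_const (by fun_prop))
  have hsub : ball x t \ A ⊆ ball x0 ρ := by
    intro y hy
    have h1 := hy.1
    rw [mem_ball] at h1 hx ⊢
    have := dist_triangle y x x0
    linarith
  have hd : 0 < (n : ℝ) + α := by positivity
  have hpt : ∀ y ∈ ball x t \ A, ENNReal.ofReal ((‖u x - c‖ - k) ^ p * t ^ (-((n : ℝ) + α))) ≤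
      ENNReal.ofReal (‖u x - u y‖ ^ p * kr α x y) := by
    intro y hy
    have hyB := hsub hy
    have hyk : ‖u y - c‖ ≤ k := by
      by_contra hc
      exact hy.2 ⟨hyB, not_le.mp hc⟩
    have hxy : ‖x - y‖ ≤ t := by
      have := hy.1
      rw [mem_ball, dist_comm, dist_eq_norm] at this
      exact this.le
    have hne : u x - u y ≠ 0 := by
      intro hc
      have : u x = u y := sub_eq_zero.mp hc
      rw [this] at hxk
      linarith
    have hxy0 : 0 < ‖x - y‖ := by
      rw [norm_pos_iff]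
      intro hc
      exact hne (by rw [sub_eq_zero.mp hc, sub_self])
    apply ENNReal.ofReal_le_ofReal
    unfold kr
    have h1 : ‖u x - c‖ - k ≤ ‖u x - u y‖ := by
      have h2 : u x - c = (u x - u y) + (u y - c) := by abel
      have h3 := norm_add_le (u x - u y) (u y - c)
      rw [← h2] at h3
      linarith
    have h4 : t ^ (-((n : ℝ) + α)) ≤ ‖x - y‖ ^ (-((n : ℝ) + α)) :=
      Real.rpow_le_rpow_of_nonpos hxy0 hxy (by linarith)
    have h5 : 0 ≤ ‖u x - c‖ - k := by linarith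
    gcongr
  have hvol : ENNReal.ofReal (1 / 2 * (om V * t ^ n)) ≤ volume (ball x t \ A) := by
    have h1 : volume (ball x t) ≤ volume (ball x t \ A) + volume A := by
      have := measure_union_le (μ := volume) (ball x t \ A) A
      refine le_trans (measure_mono ?_) this
      intro y hy
      by_cases hyA : y ∈ A
      · exact Or.inr hyA
      · exact Or.inl ⟨hy, hyA⟩
    rw [vol_ball x ht] at h1
    have h2 : ENNReal.ofReal (om V * t ^ n) = ENNReal.ofReal (1 / 2 * (om V * t ^ n)) +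
        ENNReal.ofReal (1 / 2 * (om V * t ^ n)) := by
      rw [← ENNReal.ofReal_add (by positivity) (by positivity)]; congr 1; ring
    rw [h2] at h1
    have h3 := h1.trans (add_le_add_right hA _)
    exact (ENNReal.add_le_add_iff_right ENNReal.ofReal_ne_top).mp h3
  calc ENNReal.ofReal (1 / 2 * om V * t ^ (-α) * (‖u x - c‖ - k) ^ p)
      = ENNReal.ofReal ((‖u x - c‖ - k) ^ p * t ^ (-((n : ℝ) + α))) *
        ENNReal.ofReal (1 / 2 * (om V * t ^ n)) := by
        have h5 : 0 ≤ ‖u x - c‖ - k := by linarith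
        rw [← ENNReal.ofReal_mul (by positivity)]
        congr 1
        have : t ^ (-((n : ℝ) + α)) * t ^ n = t ^ (-α) := by
          rw [← Real.rpow_natCast, ← Real.rpow_add ht]; congr 1; ring
        rw [← this]; ring
    _ ≤ ENNReal.ofReal ((‖u x - c‖ - k) ^ p * t ^ (-((n : ℝ) + α))) * volume (ball x t \ A) := by
        gcongr
    _ = ∫⁻ _ in ball x t \ A, ENNReal.ofReal ((‖u x - c‖ - k) ^ p * t ^ (-((n : ℝ) + α))) := by
        rw [setLIntegral_const]
    _ ≤ ∫⁻ y in ball x t \ A, ENNReal.ofReal (‖u x - u y‖ ^ p * kr α x y) :=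
        setLIntegral_mono' (measurableSet_ball.diff hAm) hpt
    _ ≤ eD p α u (ball x0 ρ) x := lintegral_mono_set hsub

theorem dg_aux1 {a k k' : ℝ} (hk : 0 ≤ k) (h : k' ≤ a) : a * (k' - k) ≤ k' * (a - k) := by
  nlinarith

theorem dg_aux2 {κ l e : ℝ} (hl : 0 < l) (hlk : l ≤ κ / 2) (h1 : 0 < e) (h2 : e ≤ 1) :
    κ / 2 ≤ κ - l * e ∧ κ - l * e < κ := by
  constructor <;> nlinarith

theorem dg_aux3 {r e : ℝ} (hr : 0 < r) (h1 : 0 < e) (h2 : e ≤ 1) :
    r < r * (1 + e) ∧ r * (1 + e) ≤ 2 * r := by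
  constructor <;> nlinarith

/-- the level integral -/
noncomputable def ZZ (p : ℝ) (u : V → W) (c : W) (x0 : V) (k ρ : ℝ) : ℝ≥0∞ :=
  ∫⁻ x in ball x0 ρ ∩ {x | k < ‖u x - c‖}, ENNReal.ofReal (‖u x - c‖ ^ p)

theorem ZZ_mono {p : ℝ} {u : V → W} (c : W) (x0 : V) {k k' ρ ρ' : ℝ} (hk : k ≤ k') (hρ : ρ' ≤ ρ) :
    ZZ p u c x0 k' ρ' ≤ ZZ p u c x0 k ρ := by
  unfold ZZ
  apply lintegral_mono_set
  intro x hx
  exact ⟨ball_subset_ball hρ hx.1, lt_of_le_of_lt hk hx.2⟩

theorem step [Nontrivial V] {p α C1 : ℝ} (hp : 1 < p) (hα : 0 < α) (hαp : α < p) (hC1 : 0 < C1)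
    (hC : ∀ σ : ℝ, 0 < σ → ∀ x : V,
      ∫⁻ y : V, ENNReal.ofReal ((min 1 (‖x - y‖ / σ)) ^ p *
        ‖x - y‖ ^ (-((Module.finrank ℝ V : ℝ) + α))) ≤ ENNReal.ofReal (C1 * σ ^ (-α)))
    {Ω : Set V} {u : V → W} (S : Sol p α Ω u) (x0 : V) {ρ' ρ : ℝ} (h0 : 0 < ρ') (h : ρ' < ρ)
    (hΩ : closedBall x0 ρ ⊆ Ω) (c : W) {k k' T t : ℝ} (hk : 0 < k) (hkk : k < k') (hT0 : 0 ≤ T)
    (hT : ∫⁻ y in (ball x0 ρ)ᶜ, ENNReal.ofReal (‖u y - c‖ ^ (p - 1) * kr α x0 y) ≤
      ENNReal.ofReal T) (ht : 0 < t) (htσ : t ≤ ρ - ρ')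
    (hA : volume (ball x0 ρ ∩ {x | k < ‖u x - c‖}) ≤
      ENNReal.ofReal (1 / 2 * (om V * t ^ Module.finrank ℝ V))) :
    ZZ p u c x0 k' ρ' ≤ ENNReal.ofReal ((k' / (k' - k)) ^ p * (2 / om V) * t ^ α *
      (4 * (cC p + 2 ^ (p - 1)) * C1 * ((ρ - ρ') / 2) ^ (-α) +
        4 * 2 ^ (p - 1) * (2 * ρ / (ρ - ρ')) ^ ((Module.finrank ℝ V : ℝ) + α) *
          (T * k ^ (1 - p)))) * ZZ p u c x0 k ρ := by
  have hum := S.meas
  have hom := om_pos (V := V)
  have hkk0 : 0 < k' - k := by linarith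
  have hk' : 0 < k' := by linarith
  have hp0 : 0 < p := by linarith
  have hcC := cC_pos hp
  have hca := cacc hp hα hαp hC1 hC S x0 h0 h hΩ c hk hkk hT0 hT
  have hle : ∀ x ∈ ball x0 ρ' ∩ {x | k' ≤ ‖u x - c‖}, ENNReal.ofReal (‖u x - c‖ ^ p) ≤
      ENNReal.ofReal ((k' / (k' - k)) ^ p * (2 / om V) * t ^ α) * eD p α u (ball x0 ρ) x := by
    intro x hx
    have hx2 : k' ≤ ‖u x - c‖ := hx.2
    have h1 := eD_lower hp hα hum x0 c ht htσ hA hx.1 (lt_of_lt_of_le hkk hx2)
    refine le_trans ?_ (mul_le_mul' le_rfl h1)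
    rw [← ENNReal.ofReal_mul (by positivity)]
    apply ENNReal.ofReal_le_ofReal
    have h2 : ‖u x - c‖ ≤ k' / (k' - k) * (‖u x - c‖ - k) := by
      rw [div_mul_eq_mul_div, le_div_iff₀ hkk0]
      exact dg_aux1 hk.le hx2
    have h3 : ‖u x - c‖ ^ p ≤ (k' / (k' - k)) ^ p * (‖u x - c‖ - k) ^ p := by
      rw [← Real.mul_rpow (by positivity) (by linarith)]
      exact Real.rpow_le_rpow (norm_nonneg _) h2 hp0.le
    refine h3.trans_eq ?_
    have h4 : t ^ α * t ^ (-α) = 1 := by rw [← Real.rpow_add ht]; simp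
    calc (k' / (k' - k)) ^ p * (‖u x - c‖ - k) ^ p
        = (k' / (k' - k)) ^ p * (‖u x - c‖ - k) ^ p * (t ^ α * t ^ (-α)) * (2 / om V * (om V / 2)) := by
          rw [h4]; field_simp
      _ = _ := by ring
  have hlm : MeasurableSet {x | k' ≤ ‖u x - c‖} := measurableSet_le measurable_const (by fun_prop)
  have hem := eD_meas p α hum (ball x0 ρ)
  have hρ0 : 0 < ρ := by linarith
  have hσ0 : 0 < ρ - ρ' := by linarith
  calc ZZ p u c x0 k' ρ'
      ≤ ∫⁻ x in ball x0 ρ' ∩ {x | k' ≤ ‖u x - c‖}, ENNReal.ofReal (‖u x - c‖ ^ p) := by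
        apply lintegral_mono_set
        intro x hx
        exact ⟨hx.1, show k' ≤ ‖u x - c‖ from le_of_lt hx.2⟩
    _ ≤ ∫⁻ x in ball x0 ρ' ∩ {x | k' ≤ ‖u x - c‖},
        ENNReal.ofReal ((k' / (k' - k)) ^ p * (2 / om V) * t ^ α) * eD p α u (ball x0 ρ) x :=
        setLIntegral_mono' (measurableSet_ball.inter hlm) hle
    _ = ENNReal.ofReal ((k' / (k' - k)) ^ p * (2 / om V) * t ^ α) *
        ∫⁻ x in ball x0 ρ' ∩ {x | k' ≤ ‖u x - c‖}, eD p α u (ball x0 ρ) x := by
        rw [lintegral_const_mul _ hem]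
    _ ≤ ENNReal.ofReal ((k' / (k' - k)) ^ p * (2 / om V) * t ^ α) * (ENNReal.ofReal
        (4 * (cC p + 2 ^ (p - 1)) * C1 * ((ρ - ρ') / 2) ^ (-α) +
        4 * 2 ^ (p - 1) * (2 * ρ / (ρ - ρ')) ^ ((Module.finrank ℝ V : ℝ) + α) * (T * k ^ (1 - p))) *
        ZZ p u c x0 k ρ) := by
        gcongr
        exact hca
    _ = _ := by
        rw [← mul_assoc, ← ENNReal.ofReal_mul (by positivity)]

theorem vol_level {p : ℝ} (hp : 1 < p) {u : V → W} (hu : Measurable u) (c : W) (x0 : V) {k ρ : ℝ}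
    (hk : 0 < k) : volume (ball x0 ρ ∩ {x | k < ‖u x - c‖}) ≤
      ENNReal.ofReal (k ^ (-p)) * ZZ p u c x0 k ρ := by
  have hlm : MeasurableSet {x | k < ‖u x - c‖} := measurableSet_lt measurable_const (by fun_prop)
  unfold ZZ
  rw [← lintegral_const_mul _ (by fun_prop), ← setLIntegral_one]
  apply setLIntegral_mono' (measurableSet_ball.inter hlm)
  intro x hx
  have hx2 : k < ‖u x - c‖ := hx.2
  rw [← ENNReal.ofReal_mul (by positivity), ← ENNReal.ofReal_one]
  apply ENNReal.ofReal_le_ofReal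
  have h1 : k ^ (-p) * k ^ p = 1 := by rw [← Real.rpow_add hk]; simp
  have h2 : k ^ p ≤ ‖u x - c‖ ^ p := Real.rpow_le_rpow hk.le hx2.le (by linarith)
  calc 1 = k ^ (-p) * k ^ p := h1.symm
    _ ≤ _ := by gcongr

/-- De Giorgi lemma -/
theorem DG [Nontrivial V] {p α : ℝ} (hp : 1 < p) (hα : 0 < α) (hαp : α < p) (Θ : ℝ) (hΘ : 0 ≤ Θ) :
    ∃ δ : ℝ, 0 < δ ∧ ∀ (Ω : Set V) (u : V → W) (_ : Sol p α Ω u) (x0 : V) (r : ℝ) (c : W)
      (κ l : ℝ), 0 < r → closedBall x0 (2 * r) ⊆ Ω → 0 < l → l ≤ κ / 2 →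
      ∫⁻ y in (ball x0 r)ᶜ, ENNReal.ofReal (‖u y - c‖ ^ (p - 1) * kr α x0 y) ≤
        ENNReal.ofReal (Θ * κ ^ (p - 1) * r ^ (-α)) →
      ZZ p u c x0 (κ - l) (2 * r) ≤ ENNReal.ofReal (δ * (l / κ) ^ (p * Module.finrank ℝ V / α) *
        κ ^ p * r ^ Module.finrank ℝ V) →
      ∀ᵐ x ∂((volume : Measure V).restrict (ball x0 r)), ‖u x - c‖ ≤ κ := by
  obtain ⟨C1, hC1, hC⟩ := kern_bound (V := V) hα hαp
  have hp0 : 0 < p := by linarith
  have hom := om_pos (V := V)
  have hcC := cC_pos hp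
  set n := Module.finrank ℝ V with hn
  set d : ℝ := (n : ℝ) + α with hd
  have hd0 : 0 < d := by positivity
  -- constants
  set M0 : ℝ := 4 * (cC p + 2 ^ (p - 1)) * C1 + 4 * 2 ^ (p - 1) * (Θ * 2 ^ (p - 1)) with hM0
  have hM0pos : 0 < M0 := by positivity
  set b : ℝ := 2 ^ ((p + d) / α) with hb
  have hb0 : 0 < b := by positivity
  have hb2 : 2 ≤ b := by
    rw [hb]
    nth_rewrite 1 [← Real.rpow_one 2]
    apply Real.rpow_le_rpow_of_exponent_le (by norm_num)
    rw [le_div_iff₀ hα]; linarith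
  have hbα : b ^ α = 2 ^ (p + d) := by
    rw [hb, ← Real.rpow_mul (by norm_num)]; congr 1; field_simp
  set c1 : ℝ := om V / (2 * 2 ^ p * 2 ^ (3 * d) * M0 * b ^ n) with hc1
  have hc1pos : 0 < c1 := by positivity
  set c2 : ℝ := min (c1 ^ (1 / α)) (1 / 2) with hc2
  have hc2pos : 0 < c2 := by positivity
  have hc2half : c2 ≤ 1 / 2 := min_le_right _ _
  have hc2α : c2 ^ α ≤ c1 := by
    have h1 : c2 ^ α ≤ (c1 ^ (1 / α)) ^ α :=
      Real.rpow_le_rpow hc2pos.le (min_le_left _ _) hα.le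
    rwa [← Real.rpow_mul hc1pos.le, one_div, inv_mul_cancel₀ hα.ne', Real.rpow_one] at h1
  refine ⟨2 ^ (-p) * (1 / 2 * om V * c2 ^ n), by positivity, ?_⟩
  intro Ω u S x0 r c κ l hr hΩ hl0 hl hT hZ
  have hum := S.meas
  have hκ : 0 < κ := by linarith
  set L : ℝ := l / κ with hL
  have hL0 : 0 < L := by positivity
  have hL1 : L ≤ 1 := by rw [hL, div_le_one hκ]; linarith
  -- sequences
  set ks : ℕ → ℝ := fun j => κ - l * (1 / 2) ^ j with hks
  set rs : ℕ → ℝ := fun j => r * (1 + (1 / 2) ^ j) with hrs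
  set t0 : ℝ := r * (L ^ (p / α) * c2) with ht0
  have ht0pos : 0 < t0 := by positivity
  set ts : ℕ → ℝ := fun j => t0 * (b⁻¹) ^ j with hts
  have htspos : ∀ j, 0 < ts j := fun j => by rw [hts]; positivity
  set Zb : ℝ := (κ / 2) ^ p * (1 / 2 * om V * t0 ^ n) with hZb
  have hhalf : ∀ j : ℕ, 0 < (1 / 2 : ℝ) ^ j ∧ (1 / 2 : ℝ) ^ j ≤ 1 := fun j =>
    ⟨by positivity, pow_le_one₀ (by norm_num) (by norm_num)⟩
  have hksb : ∀ j, κ / 2 ≤ ks j ∧ ks j < κ := by
    intro j
    have := hhalf j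
    exact dg_aux2 hl0 hl this.1 this.2
  have hrsb : ∀ j, r < rs j ∧ rs j ≤ 2 * r := by
    intro j
    have := hhalf j
    exact dg_aux3 hr this.1 this.2
  -- tail
  set T : ℝ := Θ * κ ^ (p - 1) * r ^ (-α) with hTdef
  have hT0 : 0 ≤ T := by positivity
  have hTj : ∀ j, ∫⁻ y in (ball x0 (rs j))ᶜ, ENNReal.ofReal (‖u y - c‖ ^ (p - 1) * kr α x0 y) ≤
      ENNReal.ofReal T := by
    intro j
    refine le_trans (lintegral_mono_set ?_) hT
    exact compl_subset_compl.mpr (ball_subset_ball (hrsb j).1.le)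
  -- main induction
  have key : ∀ j : ℕ, ZZ p u c x0 (ks j) (rs j) ≤ ENNReal.ofReal (Zb * ((b ^ n)⁻¹) ^ j) := by
    intro j
    induction j with
    | zero =>
      have e1 : ks 0 = κ - l := by rw [hks]; simp
      have e2 : rs 0 = 2 * r := by rw [hrs]; simp only [pow_zero]; ring
      rw [e1, e2, pow_zero, mul_one]
      refine hZ.trans_eq ?_
      congr 1
      rw [hZb, ht0]
      have e3 : (κ / 2) ^ p = κ ^ p * 2 ^ (-p) := by
        rw [Real.div_rpow hκ.le (by norm_num), Real.rpow_neg (by norm_num)]; ring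
      have e4 : (L ^ (p / α)) ^ n = L ^ (p * n / α) := by
        rw [← Real.rpow_natCast, ← Real.rpow_mul hL0.le]; congr 1; ring
      rw [mul_pow, mul_pow, e3, e4]
      ring
    | succ j ih =>
      have hkj := hksb j
      have hkj1 := hksb (j + 1)
      have hrj := hrsb j
      have hrj1 := hrsb (j + 1)
      have hkd : ks (j + 1) - ks j = l * (1 / 2) ^ (j + 1) := by
        rw [hks]; simp only [pow_succ]; ring
      have hrd : rs j - rs (j + 1) = r * (1 / 2) ^ (j + 1) := by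
        rw [hrs]; simp only [pow_succ]; ring
      have hh := (hhalf (j + 1)).1
      have hkk : ks j < ks (j + 1) := by
        have : 0 < l * (1 / 2) ^ (j + 1) := by positivity
        linarith
      have hrr : rs (j + 1) < rs j := by
        have : 0 < r * (1 / 2) ^ (j + 1) := by positivity
        linarith
      have htσ : ts j ≤ rs j - rs (j + 1) := by
        rw [hrd, hts]; simp only
        have h1 : (b⁻¹) ^ j ≤ (1 / 2) ^ j := by
          apply pow_le_pow_left₀ (by positivity)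
          rw [one_div]
          exact inv_anti₀ (by norm_num) hb2
        have h2 : L ^ (p / α) ≤ 1 := Real.rpow_le_one hL0.le hL1 (by positivity)
        calc t0 * (b⁻¹) ^ j ≤ (r * (1 * (1 / 2))) * (1 / 2) ^ j := by
              rw [ht0]; gcongr
          _ = _ := by rw [pow_succ]; ring
      have hA : volume (ball x0 (rs j) ∩ {x | ks j < ‖u x - c‖}) ≤
          ENNReal.ofReal (1 / 2 * (om V * ts j ^ n)) := by
        have hkj0 : 0 < ks j := by linarith
        refine (vol_level hp hum c x0 hkj0).trans ((mul_le_mul' le_rfl ih).trans ?_)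
        rw [← ENNReal.ofReal_mul (by positivity)]
        apply ENNReal.ofReal_le_ofReal
        have h1 : (ks j) ^ (-p) ≤ (κ / 2) ^ (-p) :=
          Real.rpow_le_rpow_of_nonpos (by linarith) hkj.1 (by linarith)
        have h2 : (κ / 2) ^ (-p) * (κ / 2) ^ p = 1 := by
          rw [← Real.rpow_add (by linarith)]; simp
        calc (ks j) ^ (-p) * (Zb * ((b ^ n)⁻¹) ^ j)
            ≤ (κ / 2) ^ (-p) * (Zb * ((b ^ n)⁻¹) ^ j) := by
              have : 0 < κ / 2 := by linarith
              gcongr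
          _ = ((κ / 2) ^ (-p) * (κ / 2) ^ p) * (1 / 2 * om V * (t0 ^ n * ((b ^ n)⁻¹) ^ j)) := by
              rw [hZb]; ring
          _ = 1 / 2 * (om V * ts j ^ n) := by
              have e1 : ((b⁻¹) ^ j) ^ n = ((b ^ n)⁻¹) ^ j := by
                rw [← pow_mul, mul_comm j n, pow_mul, inv_pow]
              have e2 : ts j ^ n = t0 ^ n * ((b ^ n)⁻¹) ^ j := by
                rw [← e1, ← mul_pow]
              rw [h2, e2]; ring
      have hst := step hp hα hαp hC1 hC S x0 (by linarith : 0 < rs (j + 1)) hrr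
        ((closedBall_subset_closedBall hrj.2).trans hΩ) c (by linarith : 0 < ks j) hkk hT0 (hTj j)
        (htspos j) htσ hA
      refine hst.trans ((mul_le_mul' le_rfl ih).trans ?_)
      have hks0 : 0 < ks j := by linarith
      have hrs0 : 0 < rs j := by linarith
      have hks10 : 0 < ks (j + 1) := by linarith
      rw [← ENNReal.ofReal_mul (by
        rw [hkd, hrd]
        have := htspos j
        positivity)]
      apply ENNReal.ofReal_le_ofReal
      set X : ℝ := (2 : ℝ) ^ j with hX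
      have hX0 : 0 < X := by positivity
      have hX1 : 1 ≤ X := one_le_pow₀ (by norm_num)
      have hη : ((1 : ℝ) / 2) ^ (j + 1) = 1 / (2 * X) := by
        rw [hX, one_div, inv_pow, pow_succ]; field_simp
      have htα : (ts j) ^ α = t0 ^ α / (X ^ p * X ^ d) := by
        have e1 : ts j = t0 / b ^ j := by rw [hts]; simp only; rw [inv_pow]; rfl
        have e2 : (b ^ j) ^ α = X ^ p * X ^ d := by
          rw [← Real.rpow_natCast b j, ← Real.rpow_mul hb0.le, mul_comm, Real.rpow_mul hb0.le, hbα,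
            ← Real.rpow_add hX0, hX, ← Real.rpow_natCast 2 j, ← Real.rpow_mul (by norm_num),
            ← Real.rpow_mul (by norm_num), mul_comm]
        rw [e1, Real.div_rpow ht0pos.le (by positivity), e2]
      have ht0α : t0 ^ α = r ^ α * (L ^ p * c2 ^ α) := by
        rw [ht0, Real.mul_rpow hr.le (by positivity), Real.mul_rpow (by positivity) hc2pos.le,
          ← Real.rpow_mul hL0.le]
        congr 3
        field_simp
      have h8 : (8 : ℝ) ^ d = 2 ^ (3 * d) := by
        rw [Real.rpow_mul (by norm_num)]; norm_num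
      -- first factor
      have f1 : (ks (j + 1) / (ks (j + 1) - ks j)) ^ p ≤ 2 ^ p * X ^ p / L ^ p := by
        have e1 : ks (j + 1) / (ks (j + 1) - ks j) ≤ 2 * X / L := by
          rw [hkd, hη, hL, div_le_div_iff₀ (by positivity) (by positivity)]
          have : 2 * X * (l * (1 / (2 * X))) = l := by field_simp
          rw [this, mul_div_assoc']
          rw [div_le_iff₀ hκ]
          have := hkj1.2.le
          rw [mul_comm]
          exact mul_le_mul_of_nonneg_left this hl0.le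
        refine (Real.rpow_le_rpow (by rw [hkd]; positivity) e1 hp0.le).trans_eq ?_
        rw [Real.div_rpow (by positivity) hL0.le, Real.mul_rpow (by norm_num) hX0.le]
      -- second factor
      have f2 : 4 * (cC p + 2 ^ (p - 1)) * C1 * ((rs j - rs (j + 1)) / 2) ^ (-α) +
          4 * 2 ^ (p - 1) * (2 * rs j / (rs j - rs (j + 1))) ^ d * (T * ks j ^ (1 - p)) ≤
          r ^ (-α) * (2 ^ (3 * d) * X ^ d) * M0 := by
        have g1 : ((rs j - rs (j + 1)) / 2) ^ (-α) ≤ r ^ (-α) * (2 ^ (3 * d) * X ^ d) := by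
          rw [hrd, hη]
          have e1 : r * (1 / (2 * X)) / 2 = r * (4 * X)⁻¹ := by field_simp; norm_num
          rw [e1, Real.mul_rpow hr.le (by positivity), Real.inv_rpow (by positivity),
            Real.rpow_neg (by positivity : (0:ℝ) ≤ 4 * X), inv_inv]
          apply mul_le_mul_of_nonneg_left _ (by positivity)
          calc (4 * X) ^ α ≤ (4 * X) ^ d := by
                apply Real.rpow_le_rpow_of_exponent_le (by linarith)
                rw [hd]
                have : (0 : ℝ) ≤ n := Nat.cast_nonneg n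
                linarith
            _ ≤ (8 * X) ^ d := by
                apply Real.rpow_le_rpow (by positivity) (by linarith) hd0.le
            _ = _ := by rw [Real.mul_rpow (by norm_num) hX0.le, h8]
        have g2 : (2 * rs j / (rs j - rs (j + 1))) ^ d ≤ 2 ^ (3 * d) * X ^ d := by
          rw [← h8, ← Real.mul_rpow (by norm_num) hX0.le]
          apply Real.rpow_le_rpow _ _ hd0.le
          · rw [hrd]; positivity
          · rw [hrd, hη, div_le_iff₀ (by positivity)]
            have : 8 * X * (r * (1 / (2 * X))) = 4 * r := by field_simp; norm_num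
            rw [this]
            linarith [hrj.2]
        have g3 : T * ks j ^ (1 - p) ≤ r ^ (-α) * (Θ * 2 ^ (p - 1)) := by
          have e1 : ks j ^ (1 - p) ≤ (κ / 2) ^ (1 - p) :=
            Real.rpow_le_rpow_of_nonpos (by linarith) hkj.1 (by linarith)
          have e2 : κ ^ (p - 1) * (κ / 2) ^ (1 - p) = 2 ^ (p - 1) := by
            rw [Real.div_rpow hκ.le (by norm_num), ← mul_div_assoc, ← Real.rpow_add hκ]
            simp only [sub_add_sub_cancel, sub_self, Real.rpow_zero]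
            rw [one_div, ← Real.rpow_neg (by norm_num)]; congr 1; ring
          calc T * ks j ^ (1 - p) ≤ T * (κ / 2) ^ (1 - p) := by gcongr
            _ = r ^ (-α) * (Θ * (κ ^ (p - 1) * (κ / 2) ^ (1 - p))) := by rw [hTdef]; ring
            _ = _ := by rw [e2]
        have hrs1 : 0 < rs j - rs (j + 1) := by linarith
        calc _ ≤ 4 * (cC p + 2 ^ (p - 1)) * C1 * (r ^ (-α) * (2 ^ (3 * d) * X ^ d)) +
            4 * 2 ^ (p - 1) * (2 ^ (3 * d) * X ^ d) * (r ^ (-α) * (Θ * 2 ^ (p - 1))) := by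
              gcongr
          _ = _ := by rw [hM0]; ring
      have hq : (ks (j + 1) / (ks (j + 1) - ks j)) ^ p * (2 / om V) * (ts j) ^ α *
          (4 * (cC p + 2 ^ (p - 1)) * C1 * ((rs j - rs (j + 1)) / 2) ^ (-α) +
          4 * 2 ^ (p - 1) * (2 * rs j / (rs j - rs (j + 1))) ^ d * (T * ks j ^ (1 - p))) ≤
          (b ^ n)⁻¹ := by
        have hrs1 : 0 < rs j - rs (j + 1) := by linarith
        have hkd0 : 0 < ks (j + 1) - ks j := by linarith
        calc _ ≤ (2 ^ p * X ^ p / L ^ p) * (2 / om V) * (t0 ^ α / (X ^ p * X ^ d)) *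
              (r ^ (-α) * (2 ^ (3 * d) * X ^ d) * M0) := by
              rw [htα]
              gcongr
          _ = 2 ^ p * (2 / om V) * c2 ^ α * 2 ^ (3 * d) * M0 := by
              rw [ht0α, Real.rpow_neg hr.le]
              have h1 : L ^ p ≠ 0 := by positivity
              have h2 : X ^ p ≠ 0 := by positivity
              have h3 : X ^ d ≠ 0 := by positivity
              have h4 : r ^ α ≠ 0 := by positivity
              field_simp
          _ ≤ 2 ^ p * (2 / om V) * c1 * 2 ^ (3 * d) * M0 := by gcongr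
          _ = _ := by
              rw [hc1]
              field_simp
      calc _ ≤ (b ^ n)⁻¹ * (Zb * ((b ^ n)⁻¹) ^ j) := by
            apply mul_le_mul_of_nonneg_right hq
            positivity
        _ = _ := by rw [pow_succ]; ring
  -- conclusion
  have hn1 : 0 < n := Module.finrank_pos
  have hzero : ZZ p u c x0 κ r = 0 := by
    have h1 : ∀ j, ZZ p u c x0 κ r ≤ ENNReal.ofReal (Zb * ((b ^ n)⁻¹) ^ j) := fun j =>
      (ZZ_mono c x0 (hksb j).2.le (hrsb j).1.le).trans (key j)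
    have h2 : Tendsto (fun j : ℕ => ENNReal.ofReal (Zb * ((b ^ n)⁻¹) ^ j)) atTop (𝓝 0) := by
      rw [← ENNReal.ofReal_zero]
      apply ENNReal.tendsto_ofReal
      rw [← mul_zero Zb]
      apply Tendsto.const_mul
      apply tendsto_pow_atTop_nhds_zero_of_lt_one (by positivity)
      apply inv_lt_one_of_one_lt₀
      exact one_lt_pow₀ (by linarith) hn1.ne'
    exact le_antisymm (ge_of_tendsto' h2 h1) zero_le
  have hvol := vol_level hp hum c x0 (k := κ) (ρ := r) hκ
  rw [hzero, mul_zero] at hvol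
  rw [ae_restrict_iff' measurableSet_ball]
  rw [ae_iff]
  refine le_antisymm (le_trans (measure_mono ?_) hvol) zero_le
  intro x hx
  rw [mem_ofPred_eq] at hx
  push Not at hx
  exact hx

end Pool.Agent.Helper749.Fp
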