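import Pool.Agent.Helper749.Fp.Form

open MeasureTheory Metric Set Filter Topology
open scoped ENNReal NNReal RealInnerProductSpace ContDiff

set_option linter.unusedSectionVars false

namespace Pool.Agent.Helper749.Fp

variable {V : Type*} [NormedAddCommGroup V] [InnerProductSpace ℝ V] [FiniteDimensional ℝ V]
  [MeasurableSpace V] [BorelSpace V]
variable {W : Type*} [NormedAddCommGroup W] [InnerProductSpace ℝ W] [FiniteDimensional ℝ W]
  [MeasurableSpace W] [BorelSpace W]

section transl
variable {X : Type*} [NormedAddCommGroup X] [NormedSpace ℝ X] [FiniteDimensional ℝ X]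
  [MeasurableSpace X] [BorelSpace X]

theorem eLp_eq {p : ℝ} (hp : 1 < p) (μ : Measure X) (f : X → W) :
    eLpNorm f (ENNReal.ofReal p) μ = (∫⁻ x, ENNReal.ofReal (‖f x‖ ^ p) ∂μ) ^ (1 / p) := by
  have hp0 : 0 < p := by linarith
  rw [eLpNorm_eq_lintegral_rpow_enorm_toReal (by simpa using hp0) ENNReal.ofReal_ne_top,
    ENNReal.toReal_ofReal hp0.le]
  congr 2
  funext x
  rw [← ENNReal.ofReal_rpow_of_nonneg (norm_nonneg _) hp0.le, ofReal_norm]

theorem transl_tendsto {p : ℝ} (hp : 1 < p) (μ : Measure X) [μ.IsAddHaarMeasure]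
    (T : V →L[ℝ] X) (G : X → W) (hG : Measurable G)
    (hGp : ∫⁻ x, ENNReal.ofReal (‖G x‖ ^ p) ∂μ < ⊤) :
    Tendsto (fun z : V => (∫⁻ x, ENNReal.ofReal (‖G (x - T z) - G x‖ ^ p) ∂μ) ^ (1 / p))
      (𝓝 0) (𝓝 0) := by
  have hp0 : 0 < p := by linarith
  have : Fact ((1 : ℝ≥0∞) ≤ ENNReal.ofReal p) := ⟨by
    rw [← ENNReal.ofReal_one]; exact ENNReal.ofReal_le_ofReal hp.le⟩
  have hmem : MemLp G (ENNReal.ofReal p) μ := by
    refine ⟨hG.aestronglyMeasurable, ?_⟩
    rw [eLp_eq hp]
    exact ENNReal.rpow_lt_top_of_nonneg (by positivity) hGp.ne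
  let g0 : C(V × X, X) := ⟨fun q => q.2 - T q.1, by fun_prop⟩
  let g : V → C(X, X) := fun z => g0.curry z
  have hg : Continuous g := g0.curry.continuous
  have hgm : ∀ z, MeasurePreserving (g z) μ μ := fun z => measurePreserving_sub_right μ (T z)
  have h1 : Tendsto (fun z : V => Lp.compMeasurePreserving (g z) (hgm z) (hmem.toLp G)) (𝓝 0)
      (𝓝 (Lp.compMeasurePreserving (g 0) (hgm 0) (hmem.toLp G))) :=
    Filter.Tendsto.compMeasurePreservingLp tendsto_const_nhds (hg.tendsto 0) hgm (hgm 0)
      ENNReal.ofReal_ne_top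
  simp only [Lp.toLp_compMeasurePreserving] at h1
  rw [Lp.tendsto_Lp_iff_tendsto_eLpNorm''] at h1
  refine h1.congr (fun z => ?_)
  rw [eLp_eq hp]
  congr 2
  funext x
  simp only [Pi.sub_apply, Function.comp]
  have e1 : g z x = x - T z := rfl
  have e2 : g 0 x = x := by
    have : g 0 x = x - T 0 := rfl
    rw [this, map_zero, sub_zero]
  rw [e1, e2]

end transl

instance : (volume : Measure (V × V)).IsAddHaarMeasure := by
  rw [Measure.volume_eq_prod]; infer_instance

theorem seminorm_transl {p α : ℝ} (hp : 1 < p) (hα : 0 < α) {φ : V → W} (hφ : Measurable φ)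
    (hE : ∫⁻ w : V × V, ENNReal.ofReal (‖φ w.1 - φ w.2‖ ^ p * kr α w.1 w.2) < ⊤) :
    Tendsto (fun z : V => (∫⁻ w : V × V, ENNReal.ofReal
      (‖(φ (w.1 - z) - φ w.1) - (φ (w.2 - z) - φ w.2)‖ ^ p * kr α w.1 w.2)) ^ (1 / p))
      (𝓝 0) (𝓝 0) := by
  have hp0 : 0 < p := by linarith
  set d : ℝ := (Module.finrank ℝ V : ℝ) + α with hd
  have hd0 : 0 < d := by positivity
  set G : V × V → W := fun w => ‖w.1 - w.2‖ ^ (-d / p) • (φ w.1 - φ w.2) with hG
  have hGm : Measurable G := by rw [hG]; fun_prop
  have key : ∀ (c : W) (w : V × V), ‖‖w.1 - w.2‖ ^ (-d / p) • c‖ ^ p = ‖c‖ ^ p * kr α w.1 w.2 := by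
    intro c w
    rw [norm_smul, Real.norm_of_nonneg (by positivity), Real.mul_rpow (by positivity)
      (norm_nonneg _), ← Real.rpow_mul (norm_nonneg _), mul_comm]
    unfold kr
    rw [← hd]
    congr 2
    field_simp
  have hGE : ∫⁻ w, ENNReal.ofReal (‖G w‖ ^ p) < ⊤ := by
    simp only [hG, key]
    exact hE
  have h := transl_tendsto hp (volume : Measure (V × V))
    ((ContinuousLinearMap.id ℝ V).prod (ContinuousLinearMap.id ℝ V)) G hGm hGE
  refine h.congr (fun z => ?_)
  congr 2
  funext w
  have e1 : G (w - ((ContinuousLinearMap.id ℝ V).prod (ContinuousLinearMap.id ℝ V)) z) - G w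
      = ‖w.1 - w.2‖ ^ (-d / p) • ((φ (w.1 - z) - φ w.1) - (φ (w.2 - z) - φ w.2)) := by
    simp only [hG, ContinuousLinearMap.prod_apply, ContinuousLinearMap.id_apply, Prod.fst_sub,
      Prod.snd_sub, sub_sub_sub_cancel_right]
    rw [← smul_sub]
    congr 1
    abel
  rw [e1, key]

/-- density: the weak form vanishes for compactly supported functions of finite energy -/
theorem weak_ext [Nontrivial V] {p α : ℝ} (hp : 1 < p) (hα : 0 < α) (hαp : α < p)
    {Ω : Set V} {u : V → W} (S : Sol p α Ω u) (x0 : V) {ρ' ρ : ℝ} (h0 : 0 ≤ ρ) (h : ρ' < ρ)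
    (hΩ : closedBall x0 ρ ⊆ Ω) (φ : V → W) (hφ : Measurable φ)
    (hφ0 : ∀ x, x ∉ ball x0 ρ' → φ x = 0)
    (hφp : ∫⁻ x : V, ENNReal.ofReal (‖φ x‖ ^ p) < ⊤)
    (hE : ∫⁻ w : V × V, ENNReal.ofReal (‖φ w.1 - φ w.2‖ ^ p * kr α w.1 w.2) < ⊤) :
    Integrable (fI p α u φ) ∧ ∫ w, fI p α u φ w = 0 := by
  have hp0 : 0 < p := by linarith
  set δ := (ρ - ρ') / 2 with hδ
  have hδ0 : 0 < δ := by rw [hδ]; linarith
  set ρ'' := ρ' + δ with hρ''
  have hρ''1 : ρ'' < ρ := by rw [hρ'', hδ]; linarith
  obtain ⟨C1, C2, hC1, hC2, hb⟩ := form_bound hp hα hαp S x0 h0 hρ''1 hΩ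
  set Eφ := (∫⁻ w : V × V, ENNReal.ofReal (‖φ w.1 - φ w.2‖ ^ p * kr α w.1 w.2)) ^ (1 / p) with hEφ
  set Nφ := (∫⁻ x : V, ENNReal.ofReal (‖φ x‖ ^ p)) ^ (1 / p) with hNφ
  have hEφt : Eφ ≠ ⊤ := ENNReal.rpow_ne_top_of_nonneg (by positivity) hE.ne
  have hNφt : Nφ ≠ ⊤ := ENNReal.rpow_ne_top_of_nonneg (by positivity) hφp.ne
  have hkm := kr_meas (V := V) α
  have hum := S.meas
  -- support of translates
  have hsupp : ∀ z : V, ‖z‖ ≤ δ → ∀ x, x ∉ ball x0 ρ'' → φ (x - z) = 0 := by
    intro z hz x hx
    apply hφ0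
    intro hc
    apply hx
    rw [mem_ball, dist_eq_norm] at hc ⊢
    have : x - x0 = (x - z - x0) + z := by abel
    rw [this]
    exact lt_of_le_of_lt (norm_add_le _ _) (by rw [hρ'']; linarith)
  -- bound for translates
  have hbt : ∀ z : V, ‖z‖ ≤ δ → ∫⁻ w : V × V, ENNReal.ofReal |fI p α u (fun x => φ (x - z)) w| ≤
      C1 * Eφ + C2 * Nφ := by
    intro z hz
    refine (hb (fun x => φ (x - z)) (by fun_prop) (hsupp z hz)).trans_eq ?_
    congr 2
    · congr 1
      have := lintegral_sub_right_eq_self (μ := (volume : Measure (V × V)))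
        (fun w : V × V => ENNReal.ofReal (‖φ w.1 - φ w.2‖ ^ p * kr α w.1 w.2)) (z, z)
      rw [← this]
      congr 1
      funext w
      simp only [Prod.fst_sub, Prod.snd_sub, kr_sub]
    · congr 1
      exact lintegral_sub_right_eq_self (μ := (volume : Measure V))
        (fun x : V => ENNReal.ofReal (‖φ x‖ ^ p)) z
  have hKt : C1 * Eφ + C2 * Nφ ≠ ⊤ := ENNReal.add_ne_top.mpr
    ⟨ENNReal.mul_ne_top hC1 hEφt, ENNReal.mul_ne_top hC2 hNφt⟩
  have hint : ∀ z : V, ‖z‖ ≤ δ → Integrable (fI p α u (fun x => φ (x - z))) := by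
    intro z hz
    refine ⟨(fI_meas p α hum (by fun_prop)).aestronglyMeasurable, ?_⟩
    rw [hasFiniteIntegral_iff_norm]
    exact lt_of_le_of_lt (hbt z hz) hKt.lt_top
  have hz0 : (fun x : V => φ (x - 0)) = φ := by funext x; rw [sub_zero]
  have hint0 : Integrable (fI p α u φ) := by
    have := hint 0 (by rw [norm_zero]; exact hδ0.le)
    rwa [hz0] at this
  refine ⟨hint0, ?_⟩
  -- continuity at 0
  have hcont : Tendsto (fun z : V => ∫⁻ w : V × V, ENNReal.ofReal
      |fI p α u (fun x => φ (x - z)) w - fI p α u φ w|) (𝓝 0) (𝓝 0) := by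
    have h1 := seminorm_transl hp hα hφ hE
    have h2 := transl_tendsto hp (volume : Measure V) (ContinuousLinearMap.id ℝ V) φ hφ hφp
    simp only [ContinuousLinearMap.id_apply] at h2
    have h3 : Tendsto (fun z : V => C1 * (∫⁻ w : V × V, ENNReal.ofReal
      (‖(φ (w.1 - z) - φ w.1) - (φ (w.2 - z) - φ w.2)‖ ^ p * kr α w.1 w.2)) ^ (1 / p) +
      C2 * (∫⁻ x : V, ENNReal.ofReal (‖φ (x - z) - φ x‖ ^ p)) ^ (1 / p)) (𝓝 0) (𝓝 0) := by
      have := (ENNReal.Tendsto.const_mul h1 (Or.inr hC1)).add
        (ENNReal.Tendsto.const_mul h2 (Or.inr hC2))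
      simpa using this
    refine tendsto_of_tendsto_of_tendsto_of_le_of_le' tendsto_const_nhds h3
      (Eventually.of_forall (fun _ => zero_le)) ?_
    have hev : ∀ᶠ z : V in 𝓝 0, ‖z‖ ≤ δ := by
      filter_upwards [closedBall_mem_nhds (0 : V) hδ0] with z hz
      simpa using hz
    filter_upwards [hev] with z hz
    have := hb (fun x => φ (x - z) - φ x) (by fun_prop) (by
      intro x hx
      have h1 := hsupp z hz x hx
      have h2 := hsupp 0 (by rw [norm_zero]; exact hδ0.le) x hx
      rw [sub_zero] at h2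
      rw [h1, h2, sub_zero])
    refine le_trans (le_of_eq ?_) this
    congr 1
    funext w
    congr 2
    unfold fI
    rw [← sub_mul, ← mul_sub, ← inner_sub_right, sub_sub_sub_comm]
  -- the mollified test functions
  set I : V → ℝ := fun z => ∫ w, fI p α u (fun x => φ (x - z)) w with hI
  have hmoll : ∀ ε : ℝ, 0 < ε → ε < δ → ∀ b : ContDiffBump (0 : V), b.rOut = ε →
      Integrable (fun z => b.normed volume z * I z) ∧ ∫ z, b.normed volume z * I z = 0 := by
    intro ε hε hεδ b hbε
    set β : V → ℝ := b.normed volume with hβ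
    have hβ0 : ∀ t, 0 ≤ β t := fun t => b.nonneg_normed t
    have hβc : Continuous β := b.continuous_normed
    have hβs : ∀ t, ε ≤ ‖t‖ → β t = 0 := by
      intro t ht
      have : t ∉ Function.support β := by
        rw [hβ, b.support_normed_eq, mem_ball, dist_zero_right, hbε]; linarith
      simpa [Function.mem_support] using this
    have hφi : Integrable φ := by
      refine ⟨hφ.aestronglyMeasurable, ?_⟩
      rw [hasFiniteIntegral_iff_norm]
      have hle : ∀ x : V, ENNReal.ofReal ‖φ x‖ ≤ (ball x0 ρ').indicator (fun _ => (1 : ℝ≥0∞)) x +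
          ENNReal.ofReal (‖φ x‖ ^ p) := by
        intro x
        by_cases hx : x ∈ ball x0 ρ'
        · rw [indicator_of_mem hx, ← ENNReal.ofReal_one, ← ENNReal.ofReal_add zero_le_one
            (by positivity)]
          apply ENNReal.ofReal_le_ofReal
          rcases le_total ‖φ x‖ 1 with h1 | h1
          · have : 0 ≤ ‖φ x‖ ^ p := by positivity
            linarith
          · have := Real.self_le_rpow_of_one_le h1 hp.le
            linarith
        · rw [hφ0 x hx]; simp
      refine lt_of_le_of_lt (lintegral_mono hle) ?_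
      rw [lintegral_add_left (measurable_const.indicator measurableSet_ball)]
      refine ENNReal.add_lt_top.mpr ⟨?_, hφp⟩
      rw [lintegral_indicator measurableSet_ball, setLIntegral_one]
      exact measure_ball_lt_top
    set Φ : V → W := convolution β φ (ContinuousLinearMap.lsmul ℝ ℝ) volume with hΦ
    have hΦx : ∀ x, Φ x = ∫ t, β t • φ (x - t) := fun x => rfl
    have hex : ∀ x, Integrable (fun t => β t • φ (x - t)) := fun x =>
      (b.hasCompactSupport_normed.convolutionExists_left (ContinuousLinearMap.lsmul ℝ ℝ) hβc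
        hφi.locallyIntegrable x)
    have hΦ0 : ∀ x, x ∉ ball x0 ρ'' → Φ x = 0 := by
      intro x hx
      rw [hΦx]
      have : ∀ t, β t • φ (x - t) = 0 := by
        intro t
        rcases le_or_gt ε ‖t‖ with h1 | h1
        · rw [hβs t h1, zero_smul]
        · rw [hsupp t (by linarith) x hx, smul_zero]
      simp [this]
    have hΦsupp : Function.support Φ ⊆ closedBall x0 ρ'' := by
      intro x hx
      by_contra hc
      exact hx (hΦ0 x (fun h => hc (ball_subset_closedBall h)))
    have hΦcs : HasCompactSupport Φ :=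
      HasCompactSupport.of_support_subset_isCompact (isCompact_closedBall x0 ρ'') hΦsupp
    have hΦts : tsupport Φ ⊆ Ω :=
      (closure_minimal hΦsupp isClosed_closedBall).trans
        ((closedBall_subset_closedBall hρ''1.le).trans hΩ)
    have hΦd : ContDiff ℝ ∞ Φ :=
      b.hasCompactSupport_normed.contDiff_convolution_left (n := ⊤)
        (ContinuousLinearMap.lsmul ℝ ℝ) b.contDiff_normed hφi.locallyIntegrable
    have hweak : ∫ w, fI p α u Φ w = 0 := S.weak Φ hΦd hΦcs hΦts
    -- Fubini
    set F : V × V → V → ℝ := fun w t => β t * fI p α u (fun x => φ (x - t)) w with hF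
    have hFm : Measurable (Function.uncurry F) := by
      rw [hF]
      unfold fI Function.uncurry
      have hkm2 : Measurable (fun q : (V × V) × V => kr α q.1.1 q.1.2) := hkm.comp measurable_fst
      have hβm : Measurable β := hβc.measurable
      fun_prop
    have hFi : Integrable (Function.uncurry F) ((volume : Measure (V × V)).prod volume) := by
      refine ⟨hFm.aestronglyMeasurable, ?_⟩
      rw [hasFiniteIntegral_iff_norm, lintegral_prod_symm _ (by fun_prop)]
      have hle : ∀ t : V, ∫⁻ w : V × V, ENNReal.ofReal ‖Function.uncurry F (w, t)‖ ≤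
          ENNReal.ofReal (β t) * (C1 * Eφ + C2 * Nφ) := by
        intro t
        have h1 : ∀ w : V × V, ENNReal.ofReal ‖Function.uncurry F (w, t)‖ =
            ENNReal.ofReal (β t) * ENNReal.ofReal |fI p α u (fun x => φ (x - t)) w| := by
          intro w
          rw [← ENNReal.ofReal_mul (hβ0 t)]
          simp only [Function.uncurry, hF, Real.norm_eq_abs, abs_mul, abs_of_nonneg (hβ0 t)]
        simp only [h1]
        rw [lintegral_const_mul _ (by
          have := fI_meas p α hum (hφ.comp (measurable_sub_const t)); fun_prop)]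
        rcases le_or_gt ε ‖t‖ with h2 | h2
        · rw [hβs t h2]; simp
        · gcongr
          exact hbt t (by linarith)
      refine lt_of_le_of_lt (lintegral_mono hle) ?_
      rw [lintegral_mul_const _ (by have := hβc.measurable; fun_prop)]
      refine ENNReal.mul_lt_top ?_ hKt.lt_top
      have := (b.integrable_normed (μ := (volume : Measure V))).2
      rw [hasFiniteIntegral_iff_norm] at this
      refine lt_of_le_of_lt (lintegral_mono (fun t => ?_)) this
      exact ENNReal.ofReal_le_ofReal (le_abs_self _)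
    have hFint : ∀ w : V × V, fI p α u Φ w = ∫ t, F w t := by
      intro w
      have h1 : Φ w.1 - Φ w.2 = ∫ t, (β t • φ (w.1 - t) - β t • φ (w.2 - t)) := by
        rw [hΦx, hΦx, integral_sub (hex _) (hex _)]
      have h2 : ⟪u w.1 - u w.2, Φ w.1 - Φ w.2⟫ =
          ∫ t, ⟪u w.1 - u w.2, β t • φ (w.1 - t) - β t • φ (w.2 - t)⟫ := by
        rw [h1]
        exact (integral_inner ((hex _).sub (hex _)) _).symm
      unfold fI
      rw [h2, ← integral_const_mul, ← integral_mul_const]
      congr 1
      funext t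
      rw [hF]
      simp only
      unfold fI
      rw [← smul_sub, inner_smul_right]
      ring
    have hswap := integral_integral_swap (f := F) hFi
    have h3 : ∫ w, fI p α u Φ w = ∫ t, β t * I t := by
      simp only [hFint]
      rw [hswap]
      congr 1
      funext t
      rw [hF, hI]
      simp only
      rw [integral_const_mul]
    refine ⟨?_, by rw [← h3, hweak]⟩
    have h4 := hFi.integral_prod_right
    refine h4.congr (Eventually.of_forall (fun t => ?_))
    simp only [Function.uncurry, hF, hI]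
    rw [integral_const_mul]
  by_contra hne
  have hI0 : I 0 = ∫ w, fI p α u φ w := by rw [hI]; simp only [hz0]
  rw [← hI0] at hne
  set η := |I 0| / 2 with hη
  have hη0 : 0 < η := by rw [hη]; positivity
  have hev : ∀ᶠ z : V in 𝓝 0, ∫⁻ w : V × V, ENNReal.ofReal
      |fI p α u (fun x => φ (x - z)) w - fI p α u φ w| < ENNReal.ofReal η :=
    hcont.eventually (gt_mem_nhds (by simpa using hη0))
  obtain ⟨r, hr0, hr⟩ := Metric.eventually_nhds_iff.mp hev
  set ε := min (δ / 2) r with hε
  have hε0 : 0 < ε := by positivity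
  have hεδ : ε < δ := lt_of_le_of_lt (min_le_left _ _) (by linarith)
  let b : ContDiffBump (0 : V) := ⟨ε / 2, ε, by positivity, by linarith⟩
  obtain ⟨hbi, hb0⟩ := hmoll ε hε0 hεδ b rfl
  have hclose : ∀ z : V, ‖z‖ < ε → |I z - I 0| ≤ η := by
    intro z hz
    have h1 := hr (y := z) (by rw [dist_zero_right]; exact lt_of_lt_of_le hz (min_le_right _ _))
    have h2 : I z - I 0 = ∫ w, (fI p α u (fun x => φ (x - z)) w - fI p α u φ w) := by
      rw [hI0, integral_sub (hint z (by linarith)) hint0]
    rw [h2]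
    have h3 : |∫ w, (fI p α u (fun x => φ (x - z)) w - fI p α u φ w)| ≤
        ∫ w, |fI p α u (fun x => φ (x - z)) w - fI p α u φ w| := abs_integral_le_integral_abs
    refine h3.trans ?_
    have hm : AEStronglyMeasurable
        (fun w => |fI p α u (fun x => φ (x - z)) w - fI p α u φ w|) volume :=
      ((hint z (by linarith)).sub hint0).abs.aestronglyMeasurable
    rw [integral_eq_lintegral_of_nonneg_ae (Eventually.of_forall (fun _ => abs_nonneg _)) hm]
    exact ENNReal.toReal_le_of_le_ofReal hη0.le h1.le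
  have hb1 : ∫ z, b.normed volume z = 1 := b.integral_normed
  have hsum : I 0 = ∫ z, b.normed volume z * (I 0 - I z) := by
    simp only [mul_sub]
    rw [integral_sub (b.integrable_normed.mul_const _) hbi, hb0, integral_mul_const, hb1]
    ring
  have hle : ‖I 0‖ ≤ ∫ z, b.normed volume z * η := by
    rw [hsum]
    apply norm_integral_le_of_norm_le (b.integrable_normed.mul_const _)
    refine Eventually.of_forall (fun z => ?_)
    rw [norm_mul, Real.norm_of_nonneg (b.nonneg_normed z)]
    rcases le_or_gt ε ‖z‖ with h1 | h1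
    · have : z ∉ Function.support (b.normed volume) := by
        rw [b.support_normed_eq, mem_ball, dist_zero_right]
        exact not_lt.mpr h1
      have h2 : b.normed volume z = 0 := by simpa [Function.mem_support] using this
      rw [h2]; simp
    · apply mul_le_mul_of_nonneg_left _ (b.nonneg_normed z)
      rw [Real.norm_eq_abs, abs_sub_comm]
      exact hclose z h1
  rw [integral_mul_const, hb1, one_mul, Real.norm_eq_abs] at hle
  have : 0 < |I 0| := abs_pos.mpr hne
  linarith

end Pool.Agent.Helper749.Fp
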