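import Pool.Agent.Helper749.Fp.Master

open MeasureTheory Metric Set Filter Topology
open scoped ENNReal NNReal RealInnerProductSpace ContDiff

set_option linter.unusedSectionVars false

namespace Pool.Agent.Helper749.Fp

variable {V : Type*} [NormedAddCommGroup V] [InnerProductSpace ℝ V] [FiniteDimensional ℝ V]
  [MeasurableSpace V] [BorelSpace V]
variable {W : Type*} [NormedAddCommGroup W] [InnerProductSpace ℝ W] [FiniteDimensional ℝ W]
  [MeasurableSpace W] [BorelSpace W]

/-- cutoff function -/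
noncomputable def cut (x0 : V) (r1 r2 : ℝ) (x : V) : ℝ :=
  max 0 (min 1 ((r2 - ‖x - x0‖) / (r2 - r1)))

theorem cut_meas (x0 : V) (r1 r2 : ℝ) : Measurable (cut x0 r1 r2) := by unfold cut; fun_prop

theorem cut_nonneg (x0 : V) (r1 r2 : ℝ) (x : V) : 0 ≤ cut x0 r1 r2 x := le_max_left _ _

theorem cut_le_one (x0 : V) (r1 r2 : ℝ) (x : V) : cut x0 r1 r2 x ≤ 1 :=
  max_le zero_le_one (min_le_left _ _)

theorem cut_eq_one {x0 : V} {r1 r2 : ℝ} (h : r1 < r2) {x : V} (hx : x ∈ ball x0 r1) :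
    cut x0 r1 r2 x = 1 := by
  unfold cut
  rw [mem_ball, dist_eq_norm] at hx
  have : 1 ≤ (r2 - ‖x - x0‖) / (r2 - r1) := by
    rw [le_div_iff₀ (by linarith)]; linarith
  rw [min_eq_left this, max_eq_right zero_le_one]

theorem cut_eq_zero {x0 : V} {r1 r2 : ℝ} (h : r1 < r2) {x : V} (hx : x ∉ ball x0 r2) :
    cut x0 r1 r2 x = 0 := by
  unfold cut
  rw [mem_ball, dist_eq_norm, not_lt] at hx
  have : (r2 - ‖x - x0‖) / (r2 - r1) ≤ 0 := div_nonpos_of_nonpos_of_nonneg (by linarith) (by linarith)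
  exact max_eq_left ((min_le_right _ _).trans this)

theorem cut_lip {x0 : V} {r1 r2 : ℝ} (h : r1 < r2) (x y : V) :
    |cut x0 r1 r2 x - cut x0 r1 r2 y| ≤ min 1 (‖x - y‖ / (r2 - r1)) := by
  apply le_min
  · have h1 := cut_nonneg x0 r1 r2 x
    have h2 := cut_nonneg x0 r1 r2 y
    have h3 := cut_le_one x0 r1 r2 x
    have h4 := cut_le_one x0 r1 r2 y
    rw [abs_le]; constructor <;> linarith
  · unfold cut
    have h1 := abs_max_sub_max_le_max 0 (min 1 ((r2 - ‖x - x0‖) / (r2 - r1))) 0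
      (min 1 ((r2 - ‖y - x0‖) / (r2 - r1)))
    have h2 := abs_min_sub_min_le_max 1 ((r2 - ‖x - x0‖) / (r2 - r1)) 1 ((r2 - ‖y - x0‖) / (r2 - r1))
    rw [sub_self, abs_zero] at h1 h2
    refine (h1.trans_eq (max_eq_right (abs_nonneg _))).trans
      ((h2.trans_eq (max_eq_right (abs_nonneg _))).trans ?_)
    rw [← sub_div, abs_div, abs_of_pos (by linarith : 0 < r2 - r1)]
    gcongr
    have : r2 - ‖x - x0‖ - (r2 - ‖y - x0‖) = ‖y - x0‖ - ‖x - x0‖ := by ring
    rw [this, abs_sub_comm]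
    refine (abs_norm_sub_norm_le _ _).trans ?_
    rw [sub_sub_sub_cancel_right]

/-- finiteness of the energy of a compactly supported test function -/
theorem energy_fin [Nontrivial V] {p α : ℝ} (hp : 1 < p) (hα : 0 < α) (hαp : α < p)
    {Ω : Set V} {u : V → W} (S : Sol p α Ω u) (x0 : V) {ρ' ρ : ℝ} (h : ρ' < ρ)
    (hΩ : closedBall x0 ρ ⊆ Ω) (φ : V → W) (hφ : Measurable φ)
    (hφ0 : ∀ x, x ∉ ball x0 ρ' → φ x = 0) {L σ : ℝ} (hL : 0 ≤ L) (hσ : 0 < σ)
    (h1 : ∀ᵐ w ∂((volume : Measure (V × V)).restrict (ball x0 ρ ×ˢ ball x0 ρ)),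
      ‖φ w.1 - φ w.2‖ ≤ L * (‖u w.1 - u w.2‖ + min 1 (‖w.1 - w.2‖ / σ) * (1 + ‖u w.1‖)))
    (h2 : ∀ᵐ x ∂((volume : Measure V).restrict (ball x0 ρ)), ‖φ x‖ ≤ L * (1 + ‖u x‖)) :
    (∫⁻ x : V, ENNReal.ofReal (‖φ x‖ ^ p) < ⊤) ∧
    ∫⁻ w : V × V, ENNReal.ofReal (‖φ w.1 - φ w.2‖ ^ p * kr α w.1 w.2) < ⊤ := by
  have hum := S.meas
  have hkm := kr_meas (V := V) α
  have hp0 : 0 < p := by linarith
  obtain ⟨C1, hC1, hC⟩ := kern_bound (V := V) hα hαp
  set B := ball x0 ρ with hB
  set B' := ball x0 ρ' with hB'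
  have hBB : B' ⊆ B := ball_subset_ball h.le
  have hBm : MeasurableSet B := measurableSet_ball
  have hBm' : MeasurableSet B' := measurableSet_ball
  have hcB : IsCompact (closedBall x0 ρ) := isCompact_closedBall x0 ρ
  have hA : ∫⁻ w in B ×ˢ B, ENNReal.ofReal (‖u w.1 - u w.2‖ ^ p * kr α w.1 w.2) < ⊤ := by
    refine lt_of_le_of_lt ?_ (S.sob _ hcB hΩ)
    exact lintegral_mono_set (prod_mono ball_subset_closedBall ball_subset_closedBall)
  have hU0 : ∫⁻ x in B, ENNReal.ofReal (‖u x‖ ^ p) < ⊤ := by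
    refine lt_of_le_of_lt ?_ (S.lp _ hcB hΩ)
    exact lintegral_mono_set ball_subset_closedBall
  have hU : ∫⁻ x in B, ENNReal.ofReal ((1 + ‖u x‖) ^ p) < ⊤ := by
    have : ∀ x, ENNReal.ofReal ((1 + ‖u x‖) ^ p) ≤
        ENNReal.ofReal (2 ^ p) * (1 + ENNReal.ofReal (‖u x‖ ^ p)) := by
      intro x
      rw [← ENNReal.ofReal_one, ← ENNReal.ofReal_add zero_le_one (by positivity),
        ← ENNReal.ofReal_mul (by positivity)]
      apply ENNReal.ofReal_le_ofReal
      have := add_rpow_le_two hp0.le (zero_le_one (α := ℝ)) (norm_nonneg (u x))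
      rwa [Real.one_rpow] at this
    refine lt_of_le_of_lt (lintegral_mono this) ?_
    rw [lintegral_const_mul _ (by fun_prop), lintegral_add_left (by fun_prop)]
    refine ENNReal.mul_lt_top ENNReal.ofReal_lt_top (ENNReal.add_lt_top.mpr ⟨?_, hU0⟩)
    rw [setLIntegral_one]; exact measure_ball_lt_top
  have hφB : ∫⁻ x in B, ENNReal.ofReal (‖φ x‖ ^ p) < ⊤ := by
    refine lt_of_le_of_lt (lintegral_mono_ae (g := fun x => ENNReal.ofReal (L ^ p) *
      ENNReal.ofReal ((1 + ‖u x‖) ^ p)) ?_) ?_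
    · filter_upwards [h2] with x hx
      rw [← ENNReal.ofReal_mul (by positivity), ← Real.mul_rpow hL (by positivity)]
      exact ENNReal.ofReal_le_ofReal (Real.rpow_le_rpow (norm_nonneg _) hx hp0.le)
    · rw [lintegral_const_mul _ (by fun_prop)]
      exact ENNReal.mul_lt_top ENNReal.ofReal_lt_top hU
  constructor
  · have : ∫⁻ x : V, ENNReal.ofReal (‖φ x‖ ^ p) = ∫⁻ x in B, ENNReal.ofReal (‖φ x‖ ^ p) := by
      rw [← lintegral_indicator hBm]
      congr 1
      funext x
      by_cases hx : x ∈ B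
      · rw [indicator_of_mem hx]
      · rw [indicator_of_notMem hx, hφ0 x (fun hc => hx (hBB hc)), norm_zero,
          Real.zero_rpow hp0.ne', ENNReal.ofReal_zero]
    rw [this]; exact hφB
  · set far : V × V → ℝ≥0∞ := (B' ×ˢ Bᶜ).indicator (fun w =>
      ENNReal.ofReal (‖φ w.1‖ ^ p) * ENNReal.ofReal (kr α w.1 w.2)) with hfar
    have hfarm : Measurable far := Measurable.indicator (by fun_prop) (hBm'.prod hBm.compl)
    set near : V × V → ℝ≥0∞ := (B ×ˢ B).indicator (fun w =>
      ENNReal.ofReal (‖φ w.1 - φ w.2‖ ^ p * kr α w.1 w.2)) with hnear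
    have hnearm : Measurable near := Measurable.indicator (by fun_prop) (hBm.prod hBm)
    have hpt : ∀ w : V × V, ENNReal.ofReal (‖φ w.1 - φ w.2‖ ^ p * kr α w.1 w.2) ≤
        near w + (far w + far w.swap) := by
      intro w
      by_cases hw1 : w.1 ∈ B <;> by_cases hw2 : w.2 ∈ B
      · have : near w = ENNReal.ofReal (‖φ w.1 - φ w.2‖ ^ p * kr α w.1 w.2) := by
          rw [hnear, indicator_of_mem (mk_mem_prod hw1 hw2 : w ∈ B ×ˢ B)]
        rw [this]; exact le_self_add
      · have h2 : φ w.2 = 0 := hφ0 _ (fun h => hw2 (hBB h))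
        by_cases hw3 : w.1 ∈ B'
        · have : far w = ENNReal.ofReal (‖φ w.1‖ ^ p) * ENNReal.ofReal (kr α w.1 w.2) := by
            rw [hfar, indicator_of_mem (mk_mem_prod hw3 hw2 : w ∈ B' ×ˢ Bᶜ)]
          rw [h2, sub_zero]
          refine le_trans ?_ (le_add_self)
          refine le_trans ?_ le_self_add
          rw [this, ← ENNReal.ofReal_mul (by positivity)]
        · have h3 : φ w.1 = 0 := hφ0 _ hw3
          rw [h2, h3]; simp [Real.zero_rpow hp0.ne']
      · have h2 : φ w.1 = 0 := hφ0 _ (fun h => hw1 (hBB h))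
        by_cases hw3 : w.2 ∈ B'
        · have : far w.swap = ENNReal.ofReal (‖φ w.2‖ ^ p) * ENNReal.ofReal (kr α w.2 w.1) := by
            rw [hfar, indicator_of_mem (show w.swap ∈ B' ×ˢ Bᶜ from ⟨hw3, hw1⟩)]
            rfl
          rw [h2, zero_sub, norm_neg]
          refine le_trans ?_ (le_add_self)
          refine le_trans ?_ le_add_self
          rw [this, ← ENNReal.ofReal_mul (by positivity), kr_symm α w.2]
        · have h3 : φ w.2 = 0 := hφ0 _ hw3
          rw [h2, h3]; simp [Real.zero_rpow hp0.ne']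
      · have h2 : φ w.1 = 0 := hφ0 _ (fun h => hw1 (hBB h))
        have h3 : φ w.2 = 0 := hφ0 _ (fun h => hw2 (hBB h))
        rw [h2, h3]; simp [Real.zero_rpow hp0.ne']
    have hfar_int : ∫⁻ w : V × V, far w < ⊤ := by
      rw [hfar, lintegral_indicator (hBm'.prod hBm.compl), setLIntegral_prod' _ _ _ (by fun_prop)]
      refine lt_of_le_of_lt (setLIntegral_mono' (g := fun x => ENNReal.ofReal (‖φ x‖ ^ p) *
        ENNReal.ofReal (C1 * (ρ - ρ') ^ (-α))) hBm' (fun x hx => ?_)) ?_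
      · simp only
        rw [lintegral_const_mul _ (by have := kr_meas_right (V := V) α x; fun_prop)]
        gcongr
        apply kern_tail hC (by linarith) x _ hBm.compl
        intro y hy
        rw [mem_compl_iff, mem_ball, not_lt] at hy
        rw [mem_ball] at hx
        have := dist_triangle y x x0
        rw [dist_comm y x, dist_eq_norm x y] at this
        linarith
      · rw [lintegral_mul_const _ (by fun_prop)]
        refine ENNReal.mul_lt_top (lt_of_le_of_lt (lintegral_mono_set hBB) hφB)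
          ENNReal.ofReal_lt_top
    have hnear_int : ∫⁻ w : V × V, near w < ⊤ := by
      rw [hnear, lintegral_indicator (hBm.prod hBm)]
      have hb : ∀ᵐ w ∂((volume : Measure (V × V)).restrict (B ×ˢ B)),
          ENNReal.ofReal (‖φ w.1 - φ w.2‖ ^ p * kr α w.1 w.2) ≤
          ENNReal.ofReal (L ^ p * 2 ^ p) * (ENNReal.ofReal (‖u w.1 - u w.2‖ ^ p * kr α w.1 w.2) +
          ENNReal.ofReal ((1 + ‖u w.1‖) ^ p) * ENNReal.ofReal ((min 1 (‖w.1 - w.2‖ / σ)) ^ p *
            kr α w.1 w.2)) := by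
        filter_upwards [h1] with w hw
        have hk := kr_nonneg α w.1 w.2
        rw [← ENNReal.ofReal_mul (by positivity), ← ENNReal.ofReal_add (by positivity)
          (by positivity), ← ENNReal.ofReal_mul (by positivity)]
        apply ENNReal.ofReal_le_ofReal
        have hm0 : 0 ≤ min 1 (‖w.1 - w.2‖ / σ) := by positivity
        calc ‖φ w.1 - φ w.2‖ ^ p * kr α w.1 w.2
            ≤ (L * (‖u w.1 - u w.2‖ + min 1 (‖w.1 - w.2‖ / σ) * (1 + ‖u w.1‖))) ^ p *
              kr α w.1 w.2 := by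
              gcongr
          _ ≤ (L ^ p * (2 ^ p * (‖u w.1 - u w.2‖ ^ p +
              (min 1 (‖w.1 - w.2‖ / σ) * (1 + ‖u w.1‖)) ^ p))) * kr α w.1 w.2 := by
              rw [Real.mul_rpow hL (by positivity)]
              gcongr
              exact add_rpow_le_two hp0.le (norm_nonneg _) (by positivity)
          _ = _ := by
              rw [Real.mul_rpow hm0 (by positivity)]
              ring
      refine lt_of_le_of_lt (lintegral_mono_ae hb) ?_
      have hkm' : Measurable (fun w : V × V => kr α w.1 w.2) := hkm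
      rw [lintegral_const_mul _ (by fun_prop), lintegral_add_left (by fun_prop)]
      refine ENNReal.mul_lt_top ENNReal.ofReal_lt_top (ENNReal.add_lt_top.mpr ⟨hA, ?_⟩)
      rw [setLIntegral_prod' _ _ _ (by fun_prop)]
      refine lt_of_le_of_lt (setLIntegral_mono' (g := fun x => ENNReal.ofReal ((1 + ‖u x‖) ^ p) *
        ENNReal.ofReal (C1 * σ ^ (-α))) hBm (fun x hx => ?_)) ?_
      · simp only
        rw [lintegral_const_mul _ (by have := kr_meas_right (V := V) α x; fun_prop)]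
        gcongr
        exact (setLIntegral_le_lintegral _ _).trans (hC σ hσ x)
      · rw [lintegral_mul_const _ (by fun_prop)]
        exact ENNReal.mul_lt_top hU ENNReal.ofReal_lt_top
    refine lt_of_le_of_lt (lintegral_mono hpt) ?_
    rw [lintegral_add_left hnearm, lintegral_add_left hfarm]
    have e2 : ∫⁻ w : V × V, far w.swap = ∫⁻ w : V × V, far w := by
      rw [Measure.volume_eq_prod]
      exact lintegral_prod_swap (μ := (volume : Measure V)) (ν := (volume : Measure V)) far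
    rw [e2]
    exact ENNReal.add_lt_top.mpr ⟨hnear_int, ENNReal.add_lt_top.mpr ⟨hfar_int, hfar_int⟩⟩

end Pool.Agent.Helper749.Fp
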