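import Pool.Agent.Helper749.Fp.Osc

open MeasureTheory Metric Set Filter Topology
open scoped ENNReal NNReal RealInnerProductSpace ContDiff

set_option linter.unusedSectionVars false
set_option maxHeartbeats 4000000

namespace Pool.Agent.Helper749.Fp

variable {V : Type*} [NormedAddCommGroup V] [InnerProductSpace ℝ V] [FiniteDimensional ℝ V]
  [MeasurableSpace V] [BorelSpace V]
variable {W : Type*} [NormedAddCommGroup W] [InnerProductSpace ℝ W] [FiniteDimensional ℝ W]
  [MeasurableSpace W] [BorelSpace W]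

theorem exists_in_balls {x y : V} {r t : ℝ} (hne : (ball x r ∩ ball y t).Nonempty)
    {P Q : V → Prop} (hP : ∀ᵐ z ∂((volume : Measure V).restrict (ball x r)), P z)
    (hQ : ∀ᵐ z ∂((volume : Measure V).restrict (ball y t)), Q z) :
    ∃ z ∈ ball x r ∩ ball y t, P z ∧ Q z := by
  have h1 : ∀ᵐ z ∂((volume : Measure V).restrict (ball x r ∩ ball y t)), P z :=
    ae_restrict_of_ae_restrict_of_subset inter_subset_left hP
  have h2 : ∀ᵐ z ∂((volume : Measure V).restrict (ball x r ∩ ball y t)), Q z :=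
    ae_restrict_of_ae_restrict_of_subset inter_subset_right hQ
  have h3 : ∀ᵐ z ∂((volume : Measure V).restrict (ball x r ∩ ball y t)),
      z ∈ ball x r ∩ ball y t := ae_restrict_mem (measurableSet_ball.inter measurableSet_ball)
  have hne' : (ae ((volume : Measure V).restrict (ball x r ∩ ball y t))).NeBot := by
    rw [ae_neBot]
    intro h
    rw [Measure.restrict_eq_zero] at h
    exact ((isOpen_ball.inter isOpen_ball).measure_pos volume hne).ne' h
  obtain ⟨z, hz1, hz2, hz3⟩ := (h1.and (h2.and h3)).exists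
  exact ⟨z, hz3, hz1, hz2⟩

theorem cont_rep {Ω : Set V} (hΩo : IsOpen Ω) {u : V → W}
    (H : ∀ x0 ∈ Ω, ∀ ε : ℝ, 0 < ε → ∃ r : ℝ, 0 < r ∧ ∃ c : W,
      ∀ᵐ x ∂((volume : Measure V).restrict (ball x0 r)), ‖u x - c‖ ≤ ε) :
    ∃ v : V → W, ContinuousOn v Ω ∧ ∀ᵐ x ∂((volume : Measure V).restrict Ω), u x = v x := by
  -- limit values
  have hlim : ∀ x0 ∈ Ω, ∃ c : W, ∀ ε : ℝ, 0 < ε → ∃ r : ℝ, 0 < r ∧
      ∀ᵐ x ∂((volume : Measure V).restrict (ball x0 r)), ‖u x - c‖ ≤ ε := by
    intro x0 hx0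
    have hk : ∀ k : ℕ, ∃ r : ℝ, 0 < r ∧ ∃ c : W,
        ∀ᵐ x ∂((volume : Measure V).restrict (ball x0 r)), ‖u x - c‖ ≤ 1 / ((k : ℝ) + 1) :=
      fun k => H x0 hx0 _ (by positivity)
    choose r hr c hc using hk
    have hdist : ∀ j k : ℕ, ‖c j - c k‖ ≤ 1 / ((j : ℝ) + 1) + 1 / ((k : ℝ) + 1) := by
      intro j k
      obtain ⟨z, _, hz1, hz2⟩ := exists_in_balls (x := x0) (y := x0)
        ⟨x0, mem_ball_self (hr j), mem_ball_self (hr k)⟩ (hc j) (hc k)
      have : c j - c k = -(u z - c j) + (u z - c k) := by abel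
      rw [this]
      refine (norm_add_le _ _).trans ?_
      rw [norm_neg]
      exact add_le_add hz1 hz2
    have hcauchy : CauchySeq c := by
      rw [Metric.cauchySeq_iff']
      intro ε hε
      obtain ⟨K, hK⟩ := exists_nat_one_div_lt (show (0 : ℝ) < ε / 2 by positivity)
      refine ⟨K, fun j hj => ?_⟩
      rw [dist_eq_norm]
      have h1 : 1 / ((j : ℝ) + 1) ≤ 1 / ((K : ℝ) + 1) := by
        apply one_div_le_one_div_of_le (by positivity)
        have : (K : ℝ) ≤ j := by exact_mod_cast hj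
        linarith
      have := hdist j K
      linarith
    obtain ⟨c0, hc0⟩ := cauchySeq_tendsto_of_complete hcauchy
    refine ⟨c0, fun ε hε => ?_⟩
    obtain ⟨K, hK⟩ := exists_nat_one_div_lt (show (0 : ℝ) < ε / 3 by positivity)
    have hle : ‖c K - c0‖ ≤ 2 * (1 / ((K : ℝ) + 1)) := by
      have h1 : Tendsto (fun j => ‖c K - c j‖) atTop (𝓝 ‖c K - c0‖) :=
        (tendsto_const_nhds.sub hc0).norm
      apply le_of_tendsto h1
      filter_upwards [eventually_ge_atTop K] with j hj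
      have h2 : 1 / ((j : ℝ) + 1) ≤ 1 / ((K : ℝ) + 1) := by
        apply one_div_le_one_div_of_le (by positivity)
        have : (K : ℝ) ≤ j := by exact_mod_cast hj
        linarith
      have := hdist K j
      linarith
    refine ⟨r K, hr K, ?_⟩
    filter_upwards [hc K] with x hx
    have : u x - c0 = (u x - c K) + (c K - c0) := by abel
    rw [this]
    refine (norm_add_le _ _).trans ?_
    linarith
  choose! v hv using hlim
  refine ⟨v, ?_, ?_⟩
  · intro x0 hx0
    rw [Metric.continuousWithinAt_iff]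
    intro ε hε
    obtain ⟨r, hr, hr2⟩ := hv x0 hx0 (ε / 3) (by positivity)
    refine ⟨r, hr, fun x1 hx1 hd => ?_⟩
    obtain ⟨t, ht, ht2⟩ := hv x1 hx1 (ε / 3) (by positivity)
    obtain ⟨z, _, hz1, hz2⟩ := exists_in_balls (x := x0) (y := x1)
      ⟨x1, hd, mem_ball_self ht⟩ hr2 ht2
    rw [dist_eq_norm]
    have : v x1 - v x0 = -(u z - v x1) + (u z - v x0) := by abel
    rw [this]
    refine lt_of_le_of_lt (norm_add_le _ _) ?_
    rw [norm_neg]
    linarith
  · have hk : ∀ k : ℕ, volume {x ∈ Ω | 1 / ((k : ℝ) + 1) < ‖u x - v x‖} = 0 := by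
      intro k
      apply measure_null_of_locally_null
      intro x hx
      obtain ⟨r, hr, hr2⟩ := hv x hx.1 (1 / ((k : ℝ) + 1) / 4) (by positivity)
      refine ⟨ball x r ∩ {x ∈ Ω | 1 / ((k : ℝ) + 1) < ‖u x - v x‖},
        mem_nhdsWithin.mpr ⟨ball x r, isOpen_ball, mem_ball_self hr, subset_rfl⟩, ?_⟩
      have hr3 := (ae_restrict_iff' measurableSet_ball).mp hr2
      rw [ae_iff] at hr3
      refine measure_mono_null ?_ hr3
      intro y hy
      rw [mem_ofPred_eq]
      push Not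
      refine ⟨hy.1, ?_⟩
      by_contra hc
      rw [not_lt] at hc
      have hyk : 1 / ((k : ℝ) + 1) < ‖u y - v y‖ := hy.2.2
      -- v y close to v x
      obtain ⟨t, ht, ht2⟩ := hv y hy.2.1 (1 / ((k : ℝ) + 1) / 4) (by positivity)
      obtain ⟨z, _, hz1, hz2⟩ := exists_in_balls (x := x) (y := y)
        ⟨y, hy.1, mem_ball_self ht⟩ hr2 ht2
      have e : u y - v y = (u y - v x) + (-(u z - v x) + (u z - v y)) := by abel
      have h1 : ‖u y - v y‖ ≤ ‖u y - v x‖ + (‖u z - v x‖ + ‖u z - v y‖) := by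
        rw [e]
        refine (norm_add_le _ _).trans (add_le_add le_rfl ((norm_add_le _ _).trans ?_))
        rw [norm_neg]
      have h2 : 0 < 1 / ((k : ℝ) + 1) := by positivity
      linarith
    have hall : volume {x ∈ Ω | u x ≠ v x} = 0 := by
      have hsub : {x ∈ Ω | u x ≠ v x} ⊆ ⋃ k : ℕ, {x ∈ Ω | 1 / ((k : ℝ) + 1) < ‖u x - v x‖} := by
        intro x hx
        have h1 : 0 < ‖u x - v x‖ := norm_pos_iff.mpr (sub_ne_zero.mpr hx.2)
        obtain ⟨k, hk⟩ := exists_nat_one_div_lt h1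
        exact mem_iUnion.mpr ⟨k, hx.1, hk⟩
      exact measure_mono_null hsub (measure_iUnion_null hk)
    refine (ae_restrict_iff' hΩo.measurableSet).mpr ?_
    rw [ae_iff]
    refine measure_mono_null ?_ hall
    intro x hx
    rw [mem_ofPred_eq] at hx
    push Not at hx
    exact hx

/-- main theorem for the internal solution data -/
theorem main [Nontrivial V] [Nontrivial W] {p α : ℝ} (hp : 1 < p) (hα : 0 < α) (hαp : α < p)
    {Ω : Set V} (hΩo : IsOpen Ω) {u : V → W} (S : Sol p α Ω u) :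
    ∃ v : V → W, ContinuousOn v Ω ∧ ∀ᵐ x ∂((volume : Measure V).restrict Ω), u x = v x :=
  cont_rep hΩo (fun _ hx0 _ hε => osc_small hp hα hαp hΩo S hx0 hε)

end Pool.Agent.Helper749.Fp
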