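import Mathlib

open MeasureTheory Metric Set Filter Topology
open scoped ENNReal NNReal RealInnerProductSpace

namespace Pool.Agent.Helper749.Fp

variable {W : Type*} [NormedAddCommGroup W] [InnerProductSpace ℝ W]

theorem rp2 {p z : ℝ} (hp : 1 < p) (hz : 0 ≤ z) : z ^ (p - 2) * z ^ 2 = z ^ p := by
  rcases hz.eq_or_lt with h | h
  · rw [← h, Real.zero_rpow (by linarith : p ≠ 0)]; simp
  · rw [← Real.rpow_natCast z 2, ← Real.rpow_add h]; congr 1; push_cast; ring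

theorem rp1 {p z : ℝ} (hp : 1 < p) (hz : 0 ≤ z) : z ^ (p - 2) * z = z ^ (p - 1) := by
  rcases hz.eq_or_lt with h | h
  · rw [← h, Real.zero_rpow (by linarith : p - 1 ≠ 0)]; simp
  · nth_rewrite 2 [← Real.rpow_one z]
    rw [← Real.rpow_add h]; congr 1; ring

theorem rp0 {p z : ℝ} (hp : 1 < p) (hz : 0 ≤ z) : z ^ (p - 1) * z = z ^ p := by
  rcases hz.eq_or_lt with h | h
  · rw [← h, Real.zero_rpow (by linarith : p ≠ 0)]; simp
  · nth_rewrite 2 [← Real.rpow_one z]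
    rw [← Real.rpow_add h]; congr 1; ring

theorem add_rpow_le_two {q x y : ℝ} (hq : 0 ≤ q) (hx : 0 ≤ x) (hy : 0 ≤ y) :
    (x + y) ^ q ≤ 2 ^ q * (x ^ q + y ^ q) := by
  have hx' : 0 ≤ x ^ q := by positivity
  have hy' : 0 ≤ y ^ q := by positivity
  rcases le_total x y with h | h
  · calc (x + y) ^ q ≤ (2 * y) ^ q := Real.rpow_le_rpow (by positivity) (by linarith) hq
      _ = 2 ^ q * y ^ q := Real.mul_rpow (by norm_num) hy
      _ ≤ _ := by gcongr; linarith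
  · calc (x + y) ^ q ≤ (2 * x) ^ q := Real.rpow_le_rpow (by positivity) (by linarith) hq
      _ = 2 ^ q * x ^ q := Real.mul_rpow (by norm_num) hx
      _ ≤ _ := by gcongr; linarith

theorem young_simple {p N X Y : ℝ} (hp : 1 < p) (hN : 0 ≤ N) (hX : 0 ≤ X) (hY : 0 ≤ Y) :
    N * X ^ (p - 1) * Y ≤ (1 / 4) * X ^ p + N * (4 * N) ^ (p - 1) * Y ^ p := by
  rcases le_total (N * Y) ((1 / 4) * X) with h | h
  · have : N * X ^ (p - 1) * Y ≤ (1 / 4) * X ^ p := by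
      calc N * X ^ (p - 1) * Y = X ^ (p - 1) * (N * Y) := by ring
        _ ≤ X ^ (p - 1) * ((1 / 4) * X) := by gcongr
        _ = (1 / 4) * (X ^ (p - 1) * X) := by ring
        _ = _ := by rw [rp0 hp hX]
    have h2 : 0 ≤ N * (4 * N) ^ (p - 1) * Y ^ p := by positivity
    linarith
  · have h3 : X ≤ 4 * N * Y := by linarith
    have : N * X ^ (p - 1) * Y ≤ N * (4 * N) ^ (p - 1) * Y ^ p := by
      calc N * X ^ (p - 1) * Y ≤ N * (4 * N * Y) ^ (p - 1) * Y := by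
            gcongr
        _ = N * (4 * N) ^ (p - 1) * (Y ^ (p - 1) * Y) := by
            rw [Real.mul_rpow (by positivity) hY]; ring
        _ = _ := by rw [rp0 hp hY]
    have h2 : 0 ≤ (1 / 4) * X ^ p := by positivity
    linarith

theorem tangent_rpow {p s t : ℝ} (hp : 1 < p) (hs : 0 ≤ s) (hst : s ≤ t) :
    t ^ p - s ^ p ≤ p * t ^ (p - 1) * (t - s) := by
  rcases (hs.trans hst).eq_or_lt with h | h
  · have : s = 0 := by linarith
    rw [← h, this, Real.zero_rpow (by linarith : p ≠ 0)]; simp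
  · have h1 := one_add_mul_self_le_rpow_one_add (s := s / t - 1) (by
      have : 0 ≤ s / t := by positivity
      linarith) hp.le
    have h2 : (1 + (s / t - 1)) = s / t := by ring
    rw [h2, Real.div_rpow hs h.le] at h1
    have h3 : 0 < t ^ p := by positivity
    have h4 := mul_le_mul_of_nonneg_right h1 h3.le
    have h5 : s ^ p / t ^ p * t ^ p = s ^ p := by field_simp
    rw [h5] at h4
    have h6 : t ^ p = t ^ (p - 1) * t := (rp0 hp h.le).symm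
    have h7 : (1 + p * (s / t - 1)) * t ^ p = t ^ p + p * t ^ (p - 1) * (s - t) := by
      rw [h6]; field_simp
    rw [h7] at h4
    linarith

theorem inner_identity (a b : W) (x y : ℝ) :
    ⟪a - b, x • a - y • b⟫ = (1 / 2) * (‖a‖ ^ 2 - ‖b‖ ^ 2) * (x - y)
      + (1 / 2) * ‖a - b‖ ^ 2 * (x + y) := by
  have h := norm_sub_sq_real a b
  rw [h, inner_sub_left, inner_sub_right, inner_sub_right, inner_smul_right, inner_smul_right,
    inner_smul_right, inner_smul_right, real_inner_self_eq_norm_sq, real_inner_self_eq_norm_sq,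
    real_inner_comm a b]
  ring

/-- constant in the Caccioppoli pointwise inequality -/
noncomputable def cC (p : ℝ) : ℝ :=
  (p * 2 ^ (p - 1)) * (4 * (p * 2 ^ (p - 1))) ^ (p - 1) + p * 2 ^ (p - 1) * 2 ^ (p - 1)

theorem cC_pos {p : ℝ} (hp : 1 < p) : 0 < cC p := by
  unfold cC
  have : (0 : ℝ) < p := by linarith
  positivity

theorem ptw_C_aux {p : ℝ} (hp : 1 < p) (a b : W) (ga gb ζa ζb : ℝ)
    (hga : 0 ≤ ga) (hgb : 0 ≤ gb) (hab : ‖b‖ ≤ ‖a‖) (hg : gb ≤ ga)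
    (hζa : 0 ≤ ζa) (hζb : 0 ≤ ζb) :
    (1 / 4) * ‖a - b‖ ^ p * (ζa ^ p * ga + ζb ^ p * gb) - cC p * |ζa - ζb| ^ p * (ga * ‖a‖ ^ p)
      ≤ ‖a - b‖ ^ (p - 2) * ⟪a - b, (ζa ^ p * ga) • a - (ζb ^ p * gb) • b⟫ := by
  have hp0 : 0 < p := by linarith
  set z := ‖a - b‖ with hz
  have hz0 : 0 ≤ z := norm_nonneg _
  set A := ‖a‖ with hA
  have hA0 : 0 ≤ A := norm_nonneg _
  have hz2 : z ≤ 2 * A := by
    have := norm_sub_le a b
    linarith
  have hcC := cC_pos hp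
  have hζap : 0 ≤ ζa ^ p := by positivity
  have hζbp : 0 ≤ ζb ^ p := by positivity
  set Fa := ζa ^ p * ga with hFa
  set Fb := ζb ^ p * gb with hFb
  have hFa0 : 0 ≤ Fa := by positivity
  have hFb0 : 0 ≤ Fb := by positivity
  have hzp : 0 ≤ z ^ (p - 2) := by positivity
  have hzpp : 0 ≤ z ^ p := by positivity
  rw [inner_identity]
  have e1 : z ^ (p - 2) * ((1 / 2) * (A ^ 2 - ‖b‖ ^ 2) * (Fa - Fb) + (1 / 2) * z ^ 2 * (Fa + Fb))
      = (1 / 2) * (z ^ (p - 2) * (A ^ 2 - ‖b‖ ^ 2)) * (Fa - Fb) + (1 / 2) * z ^ p * (Fa + Fb) := by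
    rw [← rp2 hp hz0]; ring
  rw [e1]
  have hsq : 0 ≤ A ^ 2 - ‖b‖ ^ 2 := by
    have := norm_nonneg b
    nlinarith
  have hD0 : 0 ≤ |ζa - ζb| ^ p := by positivity
  have hbad : 0 ≤ cC p * |ζa - ζb| ^ p * (ga * A ^ p) := by positivity
  by_cases h : Fb ≤ Fa
  · have h1 : 0 ≤ (1 / 2) * (z ^ (p - 2) * (A ^ 2 - ‖b‖ ^ 2)) * (Fa - Fb) := by
      have : 0 ≤ Fa - Fb := by linarith
      positivity
    have h2 : 0 ≤ z ^ p * (Fa + Fb) := by positivity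
    nlinarith
  · push Not at h
    have hζ : ζa ≤ ζb := by
      by_contra hζ
      push Not at hζ
      have h1 : ζb ^ p * gb ≤ ζa ^ p * ga := by
        apply mul_le_mul (Real.rpow_le_rpow hζb hζ.le hp0.le) hg hgb hζap
      linarith
    · set D := ζb - ζa with hD
      have hD1 : 0 ≤ D := by linarith
      have habs : |ζa - ζb| = D := by rw [abs_sub_comm, abs_of_nonneg hD1]
      rw [habs]
      -- bound of z^(p-2)(A^2-|b|^2)
      have h1 : z ^ (p - 2) * (A ^ 2 - ‖b‖ ^ 2) ≤ 2 * z ^ (p - 1) * A := by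
        have h11 : A - ‖b‖ ≤ z := by
          have := norm_sub_norm_le a b
          linarith
        have h12 : A ^ 2 - ‖b‖ ^ 2 ≤ z * (2 * A) := by
          have : A ^ 2 - ‖b‖ ^ 2 = (A - ‖b‖) * (A + ‖b‖) := by ring
          rw [this]
          have hb := norm_nonneg b
          apply mul_le_mul h11 (by linarith) (by positivity) hz0
        calc z ^ (p - 2) * (A ^ 2 - ‖b‖ ^ 2) ≤ z ^ (p - 2) * (z * (2 * A)) := by gcongr
          _ = 2 * (z ^ (p - 2) * z) * A := by ring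
          _ = _ := by rw [rp1 hp hz0]
      have h2 : Fb - Fa ≤ ga * (p * 2 ^ (p - 1)) * (ζa ^ (p - 1) * D + D ^ p) := by
        have h21 : Fb - Fa ≤ ga * (ζb ^ p - ζa ^ p) := by
          have : ζb ^ p * gb ≤ ζb ^ p * ga := by gcongr
          rw [hFa, hFb]; linarith
        have h22 := tangent_rpow hp hζa hζ
        have h23 : ζb ^ (p - 1) ≤ 2 ^ (p - 1) * (ζa ^ (p - 1) + D ^ (p - 1)) := by
          have := add_rpow_le_two (q := p - 1) (by linarith) hζa hD1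
          rwa [hD, add_sub_cancel] at this
        calc Fb - Fa ≤ ga * (ζb ^ p - ζa ^ p) := h21
          _ ≤ ga * (p * ζb ^ (p - 1) * D) := by gcongr
          _ ≤ ga * (p * (2 ^ (p - 1) * (ζa ^ (p - 1) + D ^ (p - 1))) * D) := by gcongr
          _ = ga * (p * 2 ^ (p - 1)) * (ζa ^ (p - 1) * D + D ^ (p - 1) * D) := by ring
          _ = _ := by rw [rp0 hp hD1]
      have h3 : (z ^ (p - 2) * (A ^ 2 - ‖b‖ ^ 2)) * (Fb - Fa) ≤
          (2 * z ^ (p - 1) * A) * (ga * (p * 2 ^ (p - 1)) * (ζa ^ (p - 1) * D + D ^ p)) :=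
        mul_le_mul h1 h2 (by linarith) (by positivity)
      have hy := young_simple (X := z * ζa) (Y := A * D) hp
        (by positivity : (0 : ℝ) ≤ p * 2 ^ (p - 1)) (by positivity) (by positivity)
      rw [Real.mul_rpow hz0 hζa, Real.mul_rpow hz0 hζa, Real.mul_rpow hA0 hD1] at hy
      have h4 : z ^ (p - 1) * A ≤ 2 ^ (p - 1) * A ^ p := by
        calc z ^ (p - 1) * A ≤ (2 * A) ^ (p - 1) * A := by
              gcongr
          _ = 2 ^ (p - 1) * (A ^ (p - 1) * A) := by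
              rw [Real.mul_rpow (by norm_num) hA0]; ring
          _ = _ := by rw [rp0 hp hA0]
      have h5 : ga * (p * 2 ^ (p - 1)) * D ^ p * (z ^ (p - 1) * A) ≤
          ga * (p * 2 ^ (p - 1)) * D ^ p * (2 ^ (p - 1) * A ^ p) := by gcongr
      have h6 := mul_le_mul_of_nonneg_left hy hga
      have h7 : 0 ≤ z ^ p * Fb := by positivity
      have h8 : 0 ≤ z ^ p * Fa := by positivity
      have h9 : z ^ p * ζa ^ p * ga = z ^ p * Fa := by rw [hFa]; ring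
      have h10 : cC p * D ^ p * (ga * A ^ p) =
          ga * ((p * 2 ^ (p - 1)) * (4 * (p * 2 ^ (p - 1))) ^ (p - 1) * (A ^ p * D ^ p))
          + ga * (p * 2 ^ (p - 1)) * D ^ p * (2 ^ (p - 1) * A ^ p) := by
        unfold cC; ring
      rw [h10]
      have h11 : (1 / 2) * (z ^ (p - 2) * (A ^ 2 - ‖b‖ ^ 2)) * (Fa - Fb) =
        -((1 / 2) * ((z ^ (p - 2) * (A ^ 2 - ‖b‖ ^ 2)) * (Fb - Fa))) := by ring
      rw [h11]
      generalize (z ^ (p - 2) * (A ^ 2 - ‖b‖ ^ 2)) * (Fb - Fa) = Q at h3 ⊢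
      have h12 : (2 * z ^ (p - 1) * A) * (ga * (p * 2 ^ (p - 1)) * (ζa ^ (p - 1) * D + D ^ p)) =
        2 * (ga * ((p * 2 ^ (p - 1)) * (z ^ (p - 1) * ζa ^ (p - 1)) * (A * D)))
        + 2 * (ga * (p * 2 ^ (p - 1)) * D ^ p * (z ^ (p - 1) * A)) := by ring
      rw [h12] at h3
      generalize ga * ((p * 2 ^ (p - 1)) * (z ^ (p - 1) * ζa ^ (p - 1)) * (A * D)) = Q1 at h3 h6
      generalize ga * (p * 2 ^ (p - 1)) * D ^ p * (z ^ (p - 1) * A) = Q2 at h3 h5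
      have h13 : ga * (1 / 4 * (z ^ p * ζa ^ p) + p * 2 ^ (p - 1) * (4 * (p * 2 ^ (p - 1))) ^ (p - 1)
          * (A ^ p * D ^ p)) = (1 / 4) * (z ^ p * ζa ^ p * ga) +
          ga * ((p * 2 ^ (p - 1)) * (4 * (p * 2 ^ (p - 1))) ^ (p - 1) * (A ^ p * D ^ p)) := by ring
      rw [h13, h9] at h6
      linarith

theorem ptw_C {p : ℝ} (hp : 1 < p) (a b : W) (ga gb ζa ζb : ℝ)
    (hga : 0 ≤ ga) (hgb : 0 ≤ gb) (h1 : ‖b‖ ≤ ‖a‖ → gb ≤ ga) (h2 : ‖a‖ ≤ ‖b‖ → ga ≤ gb)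
    (hζa : 0 ≤ ζa) (hζb : 0 ≤ ζb) :
    (1 / 4) * ‖a - b‖ ^ p * (ζa ^ p * ga + ζb ^ p * gb)
        - cC p * |ζa - ζb| ^ p * (ga * ‖a‖ ^ p + gb * ‖b‖ ^ p)
      ≤ ‖a - b‖ ^ (p - 2) * ⟪a - b, (ζa ^ p * ga) • a - (ζb ^ p * gb) • b⟫ := by
  have hc := cC_pos hp
  rcases le_total ‖b‖ ‖a‖ with h | h
  · have h3 := ptw_C_aux hp a b ga gb ζa ζb hga hgb h (h1 h) hζa hζb
    have h4 : 0 ≤ cC p * |ζa - ζb| ^ p * (gb * ‖b‖ ^ p) := by positivity
    linarith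
  · have h3 := ptw_C_aux hp b a gb ga ζb ζa hgb hga h (h2 h) hζb hζa
    have h4 : 0 ≤ cC p * |ζa - ζb| ^ p * (ga * ‖a‖ ^ p) := by positivity
    rw [norm_sub_rev b a, abs_sub_comm ζb ζa] at h3
    have h5 : ⟪b - a, (ζb ^ p * gb) • b - (ζa ^ p * ga) • a⟫
        = ⟪a - b, (ζa ^ p * ga) • a - (ζb ^ p * gb) • b⟫ := by
      rw [← neg_sub a b, ← neg_sub ((ζa ^ p * ga) • a), inner_neg_neg]
    rw [h5] at h3
    linarith

/-- constant in the barrier pointwise inequality -/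
noncomputable def cP (M : ℝ) : ℝ := 2 * M * (1 + 2 * M) + 1

theorem cP_pos {M : ℝ} (hM : 0 ≤ M) : 0 < cP M := by unfold cP; positivity

theorem ptw_P {p M l : ℝ} (hp : 1 < p) (hM : 0 ≤ M) (hl0 : 0 < l) (hl1 : l ≤ 1) (a b : W)
    (ha : ‖a‖ ≤ M) (hb : ‖b‖ ≤ M) (ζa ζb : ℝ) :
    (1 / 2) * ‖a - b‖ ^ p * (max 0 (l * ζa - (M ^ 2 - ‖a‖ ^ 2)) + max 0 (l * ζb - (M ^ 2 - ‖b‖ ^ 2)))
      - cP M * l ^ (min p 2) * (‖a - b‖ ^ p + |ζa - ζb| ^ p)
      ≤ ‖a - b‖ ^ (p - 2) * ⟪a - b, (max 0 (l * ζa - (M ^ 2 - ‖a‖ ^ 2))) • a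
        - (max 0 (l * ζb - (M ^ 2 - ‖b‖ ^ 2))) • b⟫ := by
  have hp0 : 0 < p := by linarith
  have hcP : 0 < cP M := cP_pos hM
  have hcP1 : 1 ≤ cP M := by unfold cP; nlinarith
  set z := ‖a - b‖ with hz
  have hz0 : 0 ≤ z := norm_nonneg _
  set Ha := l * ζa - (M ^ 2 - ‖a‖ ^ 2) with hHa
  set Hb := l * ζb - (M ^ 2 - ‖b‖ ^ 2) with hHb
  set Fa := max 0 Ha with hFa
  set Fb := max 0 Hb with hFb
  have hzp : 0 ≤ z ^ (p - 2) := by positivity
  have hzpp : 0 ≤ z ^ p := by positivity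
  have hDp : 0 ≤ |ζa - ζb| ^ p := by positivity
  rw [inner_identity]
  have e1 : z ^ (p - 2) * ((1 / 2) * (‖a‖ ^ 2 - ‖b‖ ^ 2) * (Fa - Fb) + (1 / 2) * z ^ 2 * (Fa + Fb))
      = (1 / 2) * (z ^ (p - 2) * ((‖a‖ ^ 2 - ‖b‖ ^ 2) * (Fa - Fb))) + (1 / 2) * z ^ p * (Fa + Fb) := by
    rw [← rp2 hp hz0]; ring
  rw [e1]
  have h0 : (Fa - Fb) ^ 2 ≤ (Ha - Hb) * (Fa - Fb) := by
    rcases le_total 0 Ha with h1 | h1 <;> rcases le_total 0 Hb with h2 | h2
    · rw [hFa, hFb, max_eq_right h1, max_eq_right h2]; nlinarith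
    · rw [hFa, hFb, max_eq_right h1, max_eq_left h2]; nlinarith
    · rw [hFa, hFb, max_eq_left h1, max_eq_right h2]; nlinarith
    · rw [hFa, hFb, max_eq_left h1, max_eq_left h2]; nlinarith
  have h1 : -(1 / 4) * (l * (ζa - ζb)) ^ 2 ≤ (‖a‖ ^ 2 - ‖b‖ ^ 2) * (Fa - Fb) := by
    have : ‖a‖ ^ 2 - ‖b‖ ^ 2 = (Ha - Hb) - l * (ζa - ζb) := by rw [hHa, hHb]; ring
    rw [this]
    nlinarith [sq_nonneg ((Fa - Fb) - (1 / 2) * (l * (ζa - ζb)))]
  suffices hs : -(cP M * l ^ (min p 2) * (z ^ p + |ζa - ζb| ^ p)) ≤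
      (1 / 2) * (z ^ (p - 2) * ((‖a‖ ^ 2 - ‖b‖ ^ 2) * (Fa - Fb))) by linarith
  rcases le_total 2 p with h2 | h2
  · rw [min_eq_right h2]
    have h3 : z ^ (p - 2) * (ζa - ζb) ^ 2 ≤ z ^ p + |ζa - ζb| ^ p := by
      rw [← sq_abs (ζa - ζb)]
      rcases le_total z |ζa - ζb| with h4 | h4
      · calc z ^ (p - 2) * |ζa - ζb| ^ 2 ≤ |ζa - ζb| ^ (p - 2) * |ζa - ζb| ^ 2 := by
              gcongr
          _ = |ζa - ζb| ^ p := rp2 hp (abs_nonneg _)
          _ ≤ _ := by linarith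
      · calc z ^ (p - 2) * |ζa - ζb| ^ 2 ≤ z ^ (p - 2) * z ^ 2 := by gcongr
          _ = z ^ p := rp2 hp hz0
          _ ≤ _ := by linarith
    have h5 : z ^ (p - 2) * (-(1 / 4) * (l * (ζa - ζb)) ^ 2) ≤
        z ^ (p - 2) * ((‖a‖ ^ 2 - ‖b‖ ^ 2) * (Fa - Fb)) := by gcongr
    have h6 : z ^ (p - 2) * (-(1 / 4) * (l * (ζa - ζb)) ^ 2) =
        -(1 / 4) * l ^ 2 * (z ^ (p - 2) * (ζa - ζb) ^ 2) := by ring
    have h7 : l ^ 2 * (z ^ (p - 2) * (ζa - ζb) ^ 2) ≤ l ^ 2 * (z ^ p + |ζa - ζb| ^ p) := by gcongr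
    have h8 : l ^ (2 : ℝ) = l ^ 2 := by norm_cast
    rw [h8]
    have h9 : 0 ≤ l ^ 2 * (z ^ p + |ζa - ζb| ^ p) := by positivity
    have h10 : l ^ 2 * (z ^ p + |ζa - ζb| ^ p) ≤ cP M * (l ^ 2 * (z ^ p + |ζa - ζb| ^ p)) :=
      le_mul_of_one_le_left h9 hcP1
    rw [h6] at h5
    rw [mul_assoc (cP M)]
    generalize z ^ (p - 2) * ((‖a‖ ^ 2 - ‖b‖ ^ 2) * (Fa - Fb)) = Q at h5 ⊢
    generalize l ^ 2 * (z ^ p + |ζa - ζb| ^ p) = Y at h7 h9 h10 ⊢
    rw [mul_assoc] at h5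
    generalize l ^ 2 * (z ^ (p - 2) * (ζa - ζb) ^ 2) = X at h5 h7
    linarith
  · rw [min_eq_left h2]
    have hlp : l ^ p * |ζa - ζb| ^ p = (l * |ζa - ζb|) ^ p := by
      rw [Real.mul_rpow hl0.le (abs_nonneg _)]
    set t := l * |ζa - ζb| with ht
    have ht0 : 0 ≤ t := by positivity
    have ht2 : t ^ 2 = (l * (ζa - ζb)) ^ 2 := by rw [ht, mul_pow, mul_pow, sq_abs]
    have hlp0 : 0 < l ^ p := by positivity
    suffices hs2 : -(cP M * t ^ p) ≤ (1 / 2) * (z ^ (p - 2) * ((‖a‖ ^ 2 - ‖b‖ ^ 2) * (Fa - Fb))) by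
      have : 0 ≤ cP M * l ^ p * z ^ p := by positivity
      rw [← hlp] at hs2
      linarith
    rcases le_total t z with h4 | h4
    · rcases hz0.eq_or_lt with h5 | h5
      · -- z = 0
        have : t = 0 := le_antisymm (by linarith) ht0
        have hab : a = b := by
          rw [← sub_eq_zero, ← norm_eq_zero]; exact h5.symm
        rw [this, Real.zero_rpow hp0.ne', hab]; simp
      · have h6 : z ^ (p - 2) * t ^ 2 ≤ t ^ p := by
          rcases ht0.eq_or_lt with h7 | h7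
          · rw [← h7, Real.zero_rpow hp0.ne']; simp
          · calc z ^ (p - 2) * t ^ 2 ≤ t ^ (p - 2) * t ^ 2 := by
                  apply mul_le_mul_of_nonneg_right _ (by positivity)
                  exact Real.rpow_le_rpow_of_nonpos h7 h4 (by linarith)
              _ = t ^ p := rp2 hp ht0
        have h5 : z ^ (p - 2) * (-(1 / 4) * (l * (ζa - ζb)) ^ 2) ≤
            z ^ (p - 2) * ((‖a‖ ^ 2 - ‖b‖ ^ 2) * (Fa - Fb)) := by gcongr
        rw [← ht2] at h5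
        have h7 : 0 ≤ t ^ p := by positivity
        have h8 : t ^ p ≤ cP M * t ^ p := le_mul_of_one_le_left h7 hcP1
        generalize z ^ (p - 2) * ((‖a‖ ^ 2 - ‖b‖ ^ 2) * (Fa - Fb)) = Q at h5 ⊢
        have h9 : z ^ (p - 2) * (-(1 / 4) * t ^ 2) = -(1 / 4) * (z ^ (p - 2) * t ^ 2) := by ring
        rw [h9] at h5
        linarith
    · have h5 : |‖a‖ ^ 2 - ‖b‖ ^ 2| ≤ 2 * M * z := by
        have : ‖a‖ ^ 2 - ‖b‖ ^ 2 = (‖a‖ - ‖b‖) * (‖a‖ + ‖b‖) := by ring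
        rw [this, abs_mul]
        have h6 : |‖a‖ - ‖b‖| ≤ z := abs_norm_sub_norm_le a b
        have h7 : |‖a‖ + ‖b‖| ≤ 2 * M := by
          rw [abs_of_nonneg (by positivity)]; linarith
        calc _ ≤ z * (2 * M) := mul_le_mul h6 h7 (abs_nonneg _) hz0
          _ = _ := by ring
      have h6 : |Fa - Fb| ≤ (1 + 2 * M) * t := by
        have h61 : |Fa - Fb| ≤ |Ha - Hb| := by
          rw [hFa, hFb]
          have := abs_max_sub_max_le_max 0 Ha 0 Hb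
          simpa using this
        have h62 : |Ha - Hb| ≤ t + 2 * M * z := by
          have : Ha - Hb = l * (ζa - ζb) + (‖a‖ ^ 2 - ‖b‖ ^ 2) := by rw [hHa, hHb]; ring
          rw [this]
          refine (abs_add_le _ _).trans ?_
          rw [abs_mul, abs_of_pos hl0]
          linarith
        have h63 : 2 * M * z ≤ 2 * M * t := by gcongr
        linarith
      have h7 : |(‖a‖ ^ 2 - ‖b‖ ^ 2) * (Fa - Fb)| ≤ (2 * M * z) * ((1 + 2 * M) * t) := by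
        rw [abs_mul]
        exact mul_le_mul h5 h6 (abs_nonneg _) (by positivity)
      have h8 : -((2 * M * z) * ((1 + 2 * M) * t)) ≤ (‖a‖ ^ 2 - ‖b‖ ^ 2) * (Fa - Fb) :=
        (abs_le.mp h7).1
      have h9 : z ^ (p - 2) * (-((2 * M * z) * ((1 + 2 * M) * t))) ≤
          z ^ (p - 2) * ((‖a‖ ^ 2 - ‖b‖ ^ 2) * (Fa - Fb)) := by gcongr
      have h10 : z ^ (p - 2) * (-((2 * M * z) * ((1 + 2 * M) * t))) =
          -((2 * M * (1 + 2 * M)) * (z ^ (p - 1) * t)) := by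
        rw [← rp1 hp hz0]; ring
      have h11 : z ^ (p - 1) * t ≤ t ^ p := by
        rw [← rp0 hp ht0]
        gcongr
      have h12 : 0 ≤ t ^ p := by positivity
      have h13 : (2 * M * (1 + 2 * M)) * (z ^ (p - 1) * t) ≤ cP M * t ^ p := by
        calc (2 * M * (1 + 2 * M)) * (z ^ (p - 1) * t) ≤ (2 * M * (1 + 2 * M)) * t ^ p := by gcongr
          _ ≤ cP M * t ^ p := by
            unfold cP
            linarith
      have h14 : 0 ≤ cP M * t ^ p := by positivity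
      linarith

end Pool.Agent.Helper749.Fp
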