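import Pool.Agent.Helper749.Fp.Kern
import Pool.Agent.Helper749.Fp.Ptw

open MeasureTheory Metric Set Filter Topology
open scoped ENNReal NNReal RealInnerProductSpace ContDiff

set_option linter.unusedSectionVars false

namespace Pool.Agent.Helper749.Fp

variable {V : Type*} [NormedAddCommGroup V] [InnerProductSpace ℝ V] [FiniteDimensional ℝ V]
  [MeasurableSpace V] [BorelSpace V]
variable {W : Type*} [NormedAddCommGroup W] [InnerProductSpace ℝ W] [FiniteDimensional ℝ W]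
  [MeasurableSpace W] [BorelSpace W]

/-- the kernel -/
noncomputable def kr (α : ℝ) (x y : V) : ℝ := ‖x - y‖ ^ (-((Module.finrank ℝ V : ℝ) + α))

theorem kr_nonneg (α : ℝ) (x y : V) : 0 ≤ kr α x y := by unfold kr; positivity

theorem kr_symm (α : ℝ) (x y : V) : kr α x y = kr α y x := by unfold kr; rw [norm_sub_rev]

theorem kr_meas (α : ℝ) : Measurable (fun w : V × V => kr α w.1 w.2) := by
  unfold kr; fun_prop

theorem kr_meas_right (α : ℝ) (x : V) : Measurable (fun y : V => kr α x y) := by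
  unfold kr; fun_prop

theorem kr_sub (α : ℝ) (x y z : V) : kr α (x - z) (y - z) = kr α x y := by
  unfold kr; rw [sub_sub_sub_cancel_right]

/-- local solution data -/
structure Sol (p α : ℝ) (Ω : Set V) (u : V → W) : Prop where
  meas : Measurable u
  lp : ∀ K : Set V, IsCompact K → K ⊆ Ω → ∫⁻ x in K, ENNReal.ofReal (‖u x‖ ^ p) < ⊤
  sob : ∀ K : Set V, IsCompact K → K ⊆ Ω →
    ∫⁻ w in K ×ˢ K, ENNReal.ofReal (‖u w.1 - u w.2‖ ^ p * kr α w.1 w.2) < ⊤
  tail : ∫⁻ y : V, ENNReal.ofReal (‖u y‖ ^ (p - 1) *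
    (1 + ‖y‖) ^ (-((Module.finrank ℝ V : ℝ) + α))) < ⊤
  weak : ∀ φ : V → W, ContDiff ℝ ∞ φ → HasCompactSupport φ → tsupport φ ⊆ Ω →
    ∫ w : V × V, ‖u w.1 - u w.2‖ ^ (p - 2) * ⟪u w.1 - u w.2, φ w.1 - φ w.2⟫ * kr α w.1 w.2 = 0

/-- the integrand of the weak form -/
noncomputable def fI (p α : ℝ) (u ψ : V → W) (w : V × V) : ℝ :=
  ‖u w.1 - u w.2‖ ^ (p - 2) * ⟪u w.1 - u w.2, ψ w.1 - ψ w.2⟫ * kr α w.1 w.2

theorem fI_meas (p α : ℝ) {u ψ : V → W} (hu : Measurable u) (hψ : Measurable ψ) :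
    Measurable (fI p α u ψ) := by
  unfold fI
  have := kr_meas (V := V) α
  fun_prop

theorem fI_abs_le {p : ℝ} (hp : 1 < p) (α : ℝ) (u ψ : V → W) (w : V × V) :
    |fI p α u ψ w| ≤ ‖u w.1 - u w.2‖ ^ (p - 1) * ‖ψ w.1 - ψ w.2‖ * kr α w.1 w.2 := by
  unfold fI
  rw [abs_mul, abs_mul, abs_of_nonneg (kr_nonneg _ _ _), abs_of_nonneg (by positivity :
    0 ≤ ‖u w.1 - u w.2‖ ^ (p - 2))]
  apply mul_le_mul_of_nonneg_right _ (kr_nonneg _ _ _)
  calc ‖u w.1 - u w.2‖ ^ (p - 2) * |⟪u w.1 - u w.2, ψ w.1 - ψ w.2⟫|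
      ≤ ‖u w.1 - u w.2‖ ^ (p - 2) * (‖u w.1 - u w.2‖ * ‖ψ w.1 - ψ w.2‖) := by
        gcongr
        exact abs_real_inner_le_norm _ _
    _ = (‖u w.1 - u w.2‖ ^ (p - 2) * ‖u w.1 - u w.2‖) * ‖ψ w.1 - ψ w.2‖ := by ring
    _ = _ := by rw [rp1 hp (norm_nonneg _)]

/-- the tail bound away from a ball -/
theorem tail_bound [Nontrivial V] {p α : ℝ} (hp : 1 < p) (hα : 0 < α) (hαp : α < p)
    {u : V → W} (hu : Measurable u)
    (htail : ∫⁻ y : V, ENNReal.ofReal (‖u y‖ ^ (p - 1) *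
      (1 + ‖y‖) ^ (-((Module.finrank ℝ V : ℝ) + α))) < ⊤)
    (x0 : V) {ρ'' ρ : ℝ} (h0 : 0 ≤ ρ) (h : ρ'' < ρ) :
    ∃ C : ℝ≥0∞, C ≠ ⊤ ∧ ∀ x ∈ ball x0 ρ'',
      ∫⁻ y in (ball x0 ρ)ᶜ, ENNReal.ofReal (‖u x - u y‖ ^ (p - 1) * kr α x y)
        ≤ C * (ENNReal.ofReal (‖u x‖ ^ (p - 1)) + 1) := by
  obtain ⟨C1, hC1, hC⟩ := kern_bound (V := V) hα hαp
  set n : ℝ := (Module.finrank ℝ V : ℝ) with hn
  set σ := ρ - ρ'' with hσ
  have hσ0 : 0 < σ := by linarith
  set N : ℝ := (1 + ‖x0‖ + ρ) / σ + 1 with hN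
  have hN0 : 0 < N := by positivity
  set T := ∫⁻ y : V, ENNReal.ofReal (‖u y‖ ^ (p - 1) * (1 + ‖y‖) ^ (-(n + α))) with hT
  refine ⟨ENNReal.ofReal (2 ^ (p - 1) * (C1 * σ ^ (-α))) + ENNReal.ofReal (2 ^ (p - 1) * N ^ (n + α)) * T,
    ?_, ?_⟩
  · exact ENNReal.add_ne_top.mpr ⟨ENNReal.ofReal_ne_top,
      ENNReal.mul_ne_top ENNReal.ofReal_ne_top htail.ne⟩
  · intro x hx
    have hdist : ∀ y ∈ (ball x0 ρ)ᶜ, σ ≤ ‖x - y‖ := by
      intro y hy
      rw [mem_compl_iff, mem_ball, not_lt] at hy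
      rw [mem_ball] at hx
      have := dist_triangle y x x0
      rw [dist_comm y x, dist_eq_norm x y] at this
      linarith
    have hN1 : ∀ y ∈ (ball x0 ρ)ᶜ, 1 + ‖y‖ ≤ N * ‖x - y‖ := by
      intro y hy
      have h1 := hdist y hy
      have h2 : ‖x‖ ≤ ‖x0‖ + ρ := by
        rw [mem_ball, dist_eq_norm] at hx
        have := norm_le_insert' x x0
        linarith
      have h3 : ‖y‖ ≤ ‖x‖ + ‖x - y‖ := norm_le_insert x y
      have h4 : 1 + ‖x0‖ + ρ ≤ (1 + ‖x0‖ + ρ) / σ * ‖x - y‖ := by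
        rw [div_mul_eq_mul_div, le_div_iff₀ hσ0]
        gcongr
      rw [hN]
      linarith
    have hkr : ∀ y ∈ (ball x0 ρ)ᶜ, kr α x y ≤ N ^ (n + α) * (1 + ‖y‖) ^ (-(n + α)) := by
      intro y hy
      have h1 := hdist y hy
      have hxy : 0 < ‖x - y‖ := lt_of_lt_of_le hσ0 h1
      unfold kr
      rw [Real.rpow_neg hxy.le, Real.rpow_neg (by positivity), ← div_eq_mul_inv,
        inv_eq_one_div, div_le_div_iff₀ (by positivity) (by positivity), one_mul]
      rw [← Real.mul_rpow hN0.le hxy.le]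
      apply Real.rpow_le_rpow (by positivity) (hN1 y hy) (by positivity)
    have hpt : ∀ y ∈ (ball x0 ρ)ᶜ, ENNReal.ofReal (‖u x - u y‖ ^ (p - 1) * kr α x y) ≤
        ENNReal.ofReal (2 ^ (p - 1) * ‖u x‖ ^ (p - 1)) * ENNReal.ofReal (kr α x y) +
        ENNReal.ofReal (2 ^ (p - 1) * N ^ (n + α)) *
          ENNReal.ofReal (‖u y‖ ^ (p - 1) * (1 + ‖y‖) ^ (-(n + α))) := by
      intro y hy
      have hk := kr_nonneg α x y
      rw [← ENNReal.ofReal_mul (by positivity), ← ENNReal.ofReal_mul (by positivity),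
        ← ENNReal.ofReal_add (by positivity) (by positivity)]
      apply ENNReal.ofReal_le_ofReal
      have h1 : ‖u x - u y‖ ^ (p - 1) ≤ 2 ^ (p - 1) * (‖u x‖ ^ (p - 1) + ‖u y‖ ^ (p - 1)) := by
        refine le_trans ?_ (add_rpow_le_two (by linarith) (norm_nonneg _) (norm_nonneg _))
        exact Real.rpow_le_rpow (norm_nonneg _) (norm_sub_le _ _) (by linarith)
      calc ‖u x - u y‖ ^ (p - 1) * kr α x y
          ≤ 2 ^ (p - 1) * (‖u x‖ ^ (p - 1) + ‖u y‖ ^ (p - 1)) * kr α x y := by gcongr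
        _ = 2 ^ (p - 1) * ‖u x‖ ^ (p - 1) * kr α x y + 2 ^ (p - 1) * ‖u y‖ ^ (p - 1) * kr α x y := by
            ring
        _ ≤ 2 ^ (p - 1) * ‖u x‖ ^ (p - 1) * kr α x y +
            2 ^ (p - 1) * ‖u y‖ ^ (p - 1) * (N ^ (n + α) * (1 + ‖y‖) ^ (-(n + α))) := by
            gcongr
            exact hkr y hy
        _ = _ := by ring
    calc ∫⁻ y in (ball x0 ρ)ᶜ, ENNReal.ofReal (‖u x - u y‖ ^ (p - 1) * kr α x y)
        ≤ ∫⁻ y in (ball x0 ρ)ᶜ, (ENNReal.ofReal (2 ^ (p - 1) * ‖u x‖ ^ (p - 1)) *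
            ENNReal.ofReal (kr α x y) + ENNReal.ofReal (2 ^ (p - 1) * N ^ (n + α)) *
          ENNReal.ofReal (‖u y‖ ^ (p - 1) * (1 + ‖y‖) ^ (-(n + α)))) :=
          setLIntegral_mono' measurableSet_ball.compl hpt
      _ = ENNReal.ofReal (2 ^ (p - 1) * ‖u x‖ ^ (p - 1)) * (∫⁻ y in (ball x0 ρ)ᶜ,
            ENNReal.ofReal (kr α x y)) + ENNReal.ofReal (2 ^ (p - 1) * N ^ (n + α)) *
          ∫⁻ y in (ball x0 ρ)ᶜ, ENNReal.ofReal (‖u y‖ ^ (p - 1) * (1 + ‖y‖) ^ (-(n + α))) := by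
          have hm := kr_meas_right (V := V) α x
          rw [lintegral_add_left (by fun_prop), lintegral_const_mul _ (by fun_prop),
            lintegral_const_mul _ (by fun_prop)]
      _ ≤ ENNReal.ofReal (2 ^ (p - 1) * ‖u x‖ ^ (p - 1)) * ENNReal.ofReal (C1 * σ ^ (-α)) +
          ENNReal.ofReal (2 ^ (p - 1) * N ^ (n + α)) * T := by
          gcongr
          · exact kern_tail hC hσ0 x _ measurableSet_ball.compl hdist
          · exact setLIntegral_le_lintegral _ _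
      _ ≤ _ := by
          rw [mul_add, mul_one]
          have e1 : ENNReal.ofReal (2 ^ (p - 1) * ‖u x‖ ^ (p - 1)) * ENNReal.ofReal (C1 * σ ^ (-α))
            = ENNReal.ofReal (2 ^ (p - 1) * (C1 * σ ^ (-α))) * ENNReal.ofReal (‖u x‖ ^ (p - 1)) := by
            rw [← ENNReal.ofReal_mul (by positivity), ← ENNReal.ofReal_mul (by positivity)]
            congr 1; ring
          rw [e1]
          gcongr
          · exact le_self_add
          · exact le_add_self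

theorem holder_near {p α : ℝ} (hp : 1 < p) (hα : 0 < α) {u ψ : V → W} (hu : Measurable u)
    (hψ : Measurable ψ) (S : Set (V × V)) :
    ∫⁻ w in S, ENNReal.ofReal (‖u w.1 - u w.2‖ ^ (p - 1) * ‖ψ w.1 - ψ w.2‖ * kr α w.1 w.2)
      ≤ (∫⁻ w in S, ENNReal.ofReal (‖u w.1 - u w.2‖ ^ p * kr α w.1 w.2)) ^ ((p - 1) / p) *
        (∫⁻ w in S, ENNReal.ofReal (‖ψ w.1 - ψ w.2‖ ^ p * kr α w.1 w.2)) ^ (1 / p) := by
  set q := p / (p - 1) with hq
  have hp1 : 0 < p - 1 := by linarith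
  have hp0 : 0 < p := by linarith
  have hpq : q.HolderConjugate p := (Real.holderConjugate_iff_eq_conjExponent hp).mpr hq |>.symm
  set d : ℝ := (Module.finrank ℝ V : ℝ) + α with hd
  have hd0 : 0 < d := by positivity
  have hq0 : 0 < q := by positivity
  set f1 : V × V → ℝ≥0∞ := fun w => ENNReal.ofReal (‖u w.1 - u w.2‖ ^ (p - 1) *
    ‖w.1 - w.2‖ ^ (-d / q)) with hf1
  set g1 : V × V → ℝ≥0∞ := fun w => ENNReal.ofReal (‖ψ w.1 - ψ w.2‖ * ‖w.1 - w.2‖ ^ (-d / p))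
    with hg1
  have hf1m : Measurable f1 := by rw [hf1]; fun_prop
  have hg1m : Measurable g1 := by rw [hg1]; fun_prop
  have h := ENNReal.lintegral_mul_le_Lp_mul_Lq (volume.restrict S) hpq hf1m.aemeasurable
    hg1m.aemeasurable
  have e1 : ∀ w : V × V, (f1 * g1) w =
      ENNReal.ofReal (‖u w.1 - u w.2‖ ^ (p - 1) * ‖ψ w.1 - ψ w.2‖ * kr α w.1 w.2) := by
    intro w
    simp only [Pi.mul_apply, hf1, hg1]
    rw [← ENNReal.ofReal_mul (by positivity)]
    congr 1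
    unfold kr
    rw [← hd]
    rcases (norm_nonneg (w.1 - w.2)).eq_or_lt with h0 | h0
    · have hw : w.1 = w.2 := by rw [← sub_eq_zero, ← norm_eq_zero]; exact h0.symm
      rw [hw]; simp
    · have : ‖w.1 - w.2‖ ^ (-d) = ‖w.1 - w.2‖ ^ (-d / q) * ‖w.1 - w.2‖ ^ (-d / p) := by
        rw [← Real.rpow_add h0]
        congr 1
        rw [hq]; field_simp; ring
      rw [this]; ring
  have e2 : ∀ w : V × V, f1 w ^ q = ENNReal.ofReal (‖u w.1 - u w.2‖ ^ p * kr α w.1 w.2) := by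
    intro w
    simp only [hf1]
    rw [ENNReal.ofReal_rpow_of_nonneg (by positivity) hq0.le]
    congr 1
    rw [Real.mul_rpow (by positivity) (by positivity), ← Real.rpow_mul (norm_nonneg _),
      ← Real.rpow_mul (norm_nonneg _)]
    unfold kr
    rw [← hd]
    congr 2
    · rw [hq]; field_simp
    · field_simp
  have e3 : ∀ w : V × V, g1 w ^ p = ENNReal.ofReal (‖ψ w.1 - ψ w.2‖ ^ p * kr α w.1 w.2) := by
    intro w
    simp only [hg1]
    rw [ENNReal.ofReal_rpow_of_nonneg (by positivity) hp0.le]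
    congr 1
    rw [Real.mul_rpow (by positivity) (by positivity), ← Real.rpow_mul (norm_nonneg _)]
    unfold kr
    rw [← hd]
    congr 2
    field_simp
  simp_rw [e1, e2, e3] at h
  have e4 : 1 / q = (p - 1) / p := by rw [hq]; field_simp
  rwa [e4] at h

theorem holder_simple {p : ℝ} (hp : 1 < p) {v ψ : V → ℝ} (hv : Measurable v)
    (hψ : Measurable ψ) (hv0 : ∀ x, 0 ≤ v x) (hψ0 : ∀ x, 0 ≤ ψ x) (S : Set V) :
    ∫⁻ x in S, ENNReal.ofReal (ψ x) * ENNReal.ofReal (v x ^ (p - 1))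
      ≤ (∫⁻ x in S, ENNReal.ofReal (v x ^ p)) ^ ((p - 1) / p) *
        (∫⁻ x in S, ENNReal.ofReal (ψ x ^ p)) ^ (1 / p) := by
  set q := p / (p - 1) with hq
  have hp1 : 0 < p - 1 := by linarith
  have hp0 : 0 < p := by linarith
  have hpq : q.HolderConjugate p := (Real.holderConjugate_iff_eq_conjExponent hp).mpr hq |>.symm
  have hq0 : 0 < q := by positivity
  have h := ENNReal.lintegral_mul_le_Lp_mul_Lq (volume.restrict S) hpq
    (f := fun x => ENNReal.ofReal (v x ^ (p - 1))) (g := fun x => ENNReal.ofReal (ψ x))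
    (by fun_prop) (by fun_prop)
  have e1 : ∀ x, ((fun x => ENNReal.ofReal (v x ^ (p - 1))) * (fun x => ENNReal.ofReal (ψ x))) x =
      ENNReal.ofReal (ψ x) * ENNReal.ofReal (v x ^ (p - 1)) := by
    intro x; simp only [Pi.mul_apply]; rw [mul_comm]
  have e2 : ∀ x, (ENNReal.ofReal (v x ^ (p - 1))) ^ q = ENNReal.ofReal (v x ^ p) := by
    intro x
    rw [ENNReal.ofReal_rpow_of_nonneg (Real.rpow_nonneg (hv0 x) _) hq0.le,
      ← Real.rpow_mul (hv0 x)]
    congr 2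
    rw [hq]; field_simp
  have e3 : ∀ x, (ENNReal.ofReal (ψ x)) ^ p = ENNReal.ofReal (ψ x ^ p) := by
    intro x
    rw [ENNReal.ofReal_rpow_of_nonneg (hψ0 x) hp0.le]
  simp_rw [e1, e2, e3] at h
  have e4 : 1 / q = (p - 1) / p := by rw [hq]; field_simp
  rwa [e4] at h

theorem form_bound [Nontrivial V] {p α : ℝ} (hp : 1 < p) (hα : 0 < α) (hαp : α < p)
    {Ω : Set V} {u : V → W} (S : Sol p α Ω u) (x0 : V) {ρ'' ρ : ℝ} (h0 : 0 ≤ ρ) (h : ρ'' < ρ)
    (hΩ : closedBall x0 ρ ⊆ Ω) :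
    ∃ C1 C2 : ℝ≥0∞, C1 ≠ ⊤ ∧ C2 ≠ ⊤ ∧ ∀ ψ : V → W, Measurable ψ → (∀ x, x ∉ ball x0 ρ'' → ψ x = 0) →
      ∫⁻ w : V × V, ENNReal.ofReal (|fI p α u ψ w|) ≤
        C1 * (∫⁻ w : V × V, ENNReal.ofReal (‖ψ w.1 - ψ w.2‖ ^ p * kr α w.1 w.2)) ^ (1 / p)
        + C2 * (∫⁻ x : V, ENNReal.ofReal (‖ψ x‖ ^ p)) ^ (1 / p) := by
  obtain ⟨C, hC, hCb⟩ := tail_bound hp hα hαp S.meas S.tail x0 h0 h
  have hp0 : 0 < p := by linarith
  have hp1 : 0 < p - 1 := by linarith
  set B := ball x0 ρ with hB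
  set B' := ball x0 ρ'' with hB'
  have hBB : B' ⊆ B := ball_subset_ball h.le
  have hBm : MeasurableSet B := measurableSet_ball
  have hBm' : MeasurableSet B' := measurableSet_ball
  have hcB : IsCompact (closedBall x0 ρ) := isCompact_closedBall x0 ρ
  -- constants
  have hA : ∫⁻ w in B ×ˢ B, ENNReal.ofReal (‖u w.1 - u w.2‖ ^ p * kr α w.1 w.2) < ⊤ := by
    refine lt_of_le_of_lt ?_ (S.sob _ hcB hΩ)
    exact lintegral_mono_set (prod_mono ball_subset_closedBall ball_subset_closedBall)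
  have hU : ∫⁻ x in B', ENNReal.ofReal (‖u x‖ ^ p) < ⊤ := by
    refine lt_of_le_of_lt ?_ (S.lp _ hcB hΩ)
    exact lintegral_mono_set (hBB.trans ball_subset_closedBall)
  have hV : ∫⁻ _ in B', (1 : ℝ≥0∞) < ⊤ := by
    rw [setLIntegral_one]; exact measure_ball_lt_top
  set C1 := (∫⁻ w in B ×ˢ B, ENNReal.ofReal (‖u w.1 - u w.2‖ ^ p * kr α w.1 w.2)) ^ ((p - 1) / p)
    with hC1
  set D := (∫⁻ x in B', ENNReal.ofReal (‖u x‖ ^ p)) ^ ((p - 1) / p) +
    (∫⁻ _ in B', (1 : ℝ≥0∞)) ^ ((p - 1) / p) with hD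
  refine ⟨C1, 2 * (C * D), ENNReal.rpow_ne_top_of_nonneg (by positivity) hA.ne, ?_, ?_⟩
  · refine ENNReal.mul_ne_top (by norm_num) (ENNReal.mul_ne_top hC (ENNReal.add_ne_top.mpr ⟨?_, ?_⟩))
    · exact ENNReal.rpow_ne_top_of_nonneg (by positivity) hU.ne
    · exact ENNReal.rpow_ne_top_of_nonneg (by positivity) hV.ne
  · intro ψ hψ hψ0
    have hum := S.meas
    have hkm := kr_meas (V := V) α
    -- far function
    set far : V × V → ℝ≥0∞ := fun w => (B' ×ˢ Bᶜ).indicator (fun w =>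
      ENNReal.ofReal ‖ψ w.1‖ * ENNReal.ofReal (‖u w.1 - u w.2‖ ^ (p - 1) * kr α w.1 w.2)) w with hfar
    have hfarm : Measurable far := by
      rw [hfar]
      exact Measurable.indicator (by fun_prop) (hBm'.prod hBm.compl)
    set near : V × V → ℝ≥0∞ := fun w => (B ×ˢ B).indicator (fun w =>
      ENNReal.ofReal (‖u w.1 - u w.2‖ ^ (p - 1) * ‖ψ w.1 - ψ w.2‖ * kr α w.1 w.2)) w with hnear
    have hnearm : Measurable near := by
      rw [hnear]
      exact Measurable.indicator (by fun_prop) (hBm.prod hBm)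
    have hpt : ∀ w : V × V, ENNReal.ofReal (|fI p α u ψ w|) ≤ near w + (far w + far w.swap) := by
      intro w
      have h1 := ENNReal.ofReal_le_ofReal (fI_abs_le hp α u ψ w)
      refine h1.trans ?_
      by_cases hw1 : w.1 ∈ B <;> by_cases hw2 : w.2 ∈ B
      · have : near w = ENNReal.ofReal (‖u w.1 - u w.2‖ ^ (p - 1) * ‖ψ w.1 - ψ w.2‖ *
            kr α w.1 w.2) := by
          rw [hnear]; simp only; rw [indicator_of_mem (mk_mem_prod hw1 hw2 : w ∈ B ×ˢ B)]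
        rw [this]; exact le_self_add
      · have h2 : ψ w.2 = 0 := hψ0 _ (fun h => hw2 (hBB h))
        by_cases hw3 : w.1 ∈ B'
        · have : far w = ENNReal.ofReal ‖ψ w.1‖ * ENNReal.ofReal (‖u w.1 - u w.2‖ ^ (p - 1) *
              kr α w.1 w.2) := by
            rw [hfar]; simp only
            rw [indicator_of_mem (mk_mem_prod hw3 hw2 : w ∈ B' ×ˢ Bᶜ)]
          rw [h2, sub_zero]
          refine le_trans ?_ (le_add_self)
          refine le_trans ?_ le_self_add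
          rw [this, ← ENNReal.ofReal_mul (norm_nonneg _)]
          apply le_of_eq; congr 1; ring
        · have h3 : ψ w.1 = 0 := hψ0 _ hw3
          rw [h2, h3]; simp
      · have h2 : ψ w.1 = 0 := hψ0 _ (fun h => hw1 (hBB h))
        by_cases hw3 : w.2 ∈ B'
        · have : far w.swap = ENNReal.ofReal ‖ψ w.2‖ * ENNReal.ofReal (‖u w.2 - u w.1‖ ^ (p - 1) *
              kr α w.2 w.1) := by
            rw [hfar]; simp only
            rw [indicator_of_mem (show w.swap ∈ B' ×ˢ Bᶜ from ⟨hw3, hw1⟩)]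
            rfl
          rw [h2, zero_sub, norm_neg]
          refine le_trans ?_ (le_add_self)
          refine le_trans ?_ le_add_self
          rw [this, ← ENNReal.ofReal_mul (norm_nonneg _), norm_sub_rev (u w.2), kr_symm α w.2]
          apply le_of_eq; congr 1; ring
        · have h3 : ψ w.2 = 0 := hψ0 _ hw3
          rw [h2, h3]; simp
      · have h2 : ψ w.1 = 0 := hψ0 _ (fun h => hw1 (hBB h))
        have h3 : ψ w.2 = 0 := hψ0 _ (fun h => hw2 (hBB h))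
        rw [h2, h3]; simp
    have hfar_int : ∫⁻ w : V × V, far w ≤ C * D *
        (∫⁻ x : V, ENNReal.ofReal (‖ψ x‖ ^ p)) ^ (1 / p) := by
      rw [hfar]
      rw [lintegral_indicator (hBm'.prod hBm.compl)]
      rw [Measure.volume_eq_prod, ← Measure.prod_restrict]
      rw [lintegral_prod _ (by fun_prop)]
      have h1 : ∀ x : V, ∫⁻ y in Bᶜ, ENNReal.ofReal ‖ψ x‖ * ENNReal.ofReal (‖u x - u y‖ ^ (p - 1) *
          kr α x y) = ENNReal.ofReal ‖ψ x‖ * ∫⁻ y in Bᶜ, ENNReal.ofReal (‖u x - u y‖ ^ (p - 1) *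
          kr α x y) := by
        intro x
        have := kr_meas_right (V := V) α x
        rw [lintegral_const_mul _ (by fun_prop)]
      simp only [h1]
      calc ∫⁻ x in B', ENNReal.ofReal ‖ψ x‖ * ∫⁻ y in Bᶜ, ENNReal.ofReal (‖u x - u y‖ ^ (p - 1) *
          kr α x y) ≤ ∫⁻ x in B', (C * (ENNReal.ofReal ‖ψ x‖ * ENNReal.ofReal (‖u x‖ ^ (p - 1)))
            + C * (ENNReal.ofReal ‖ψ x‖ * 1)) := by
            apply setLIntegral_mono' hBm'
            intro x hx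
            calc ENNReal.ofReal ‖ψ x‖ * ∫⁻ y in Bᶜ, ENNReal.ofReal (‖u x - u y‖ ^ (p - 1) *
                kr α x y) ≤ ENNReal.ofReal ‖ψ x‖ * (C * (ENNReal.ofReal (‖u x‖ ^ (p - 1)) + 1)) := by
                  gcongr
                  exact hCb x hx
              _ = _ := by ring
        _ = C * (∫⁻ x in B', ENNReal.ofReal ‖ψ x‖ * ENNReal.ofReal (‖u x‖ ^ (p - 1))) +
            C * ∫⁻ x in B', ENNReal.ofReal ‖ψ x‖ * 1 := by
            rw [lintegral_add_left (by fun_prop), lintegral_const_mul _ (by fun_prop),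
              lintegral_const_mul _ (by fun_prop)]
        _ ≤ C * ((∫⁻ x in B', ENNReal.ofReal (‖u x‖ ^ p)) ^ ((p - 1) / p) *
            (∫⁻ x : V, ENNReal.ofReal (‖ψ x‖ ^ p)) ^ (1 / p)) +
            C * ((∫⁻ _ in B', (1 : ℝ≥0∞)) ^ ((p - 1) / p) *
            (∫⁻ x : V, ENNReal.ofReal (‖ψ x‖ ^ p)) ^ (1 / p)) := by
            gcongr
            · refine (holder_simple hp (v := fun x => ‖u x‖) (ψ := fun x => ‖ψ x‖)
                (by fun_prop) (by fun_prop) (fun _ => norm_nonneg _) (fun _ => norm_nonneg _)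
                B').trans ?_
              gcongr
              exact Measure.restrict_le_self
            · have := holder_simple hp (v := fun x : V => (1 : ℝ)) (ψ := fun x => ‖ψ x‖)
                (by fun_prop) (by fun_prop) (fun _ => zero_le_one) (fun _ => norm_nonneg _) B'
              simp only [Real.one_rpow, ENNReal.ofReal_one] at this
              refine this.trans ?_
              gcongr
              exact Measure.restrict_le_self
        _ = _ := by rw [hD]; ring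
    calc ∫⁻ w : V × V, ENNReal.ofReal (|fI p α u ψ w|)
        ≤ ∫⁻ w : V × V, (near w + (far w + far w.swap)) := lintegral_mono hpt
      _ = (∫⁻ w : V × V, near w) + ((∫⁻ w : V × V, far w) + ∫⁻ w : V × V, far w.swap) := by
          rw [lintegral_add_left hnearm, lintegral_add_left hfarm]
      _ = (∫⁻ w : V × V, near w) + ((∫⁻ w : V × V, far w) + ∫⁻ w : V × V, far w) := by
          congr 2
          rw [Measure.volume_eq_prod]
          exact lintegral_prod_swap (μ := (volume : Measure V)) (ν := (volume : Measure V)) far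
      _ ≤ C1 * (∫⁻ w : V × V, ENNReal.ofReal (‖ψ w.1 - ψ w.2‖ ^ p * kr α w.1 w.2)) ^ (1 / p)
          + (C * D * (∫⁻ x : V, ENNReal.ofReal (‖ψ x‖ ^ p)) ^ (1 / p) +
            C * D * (∫⁻ x : V, ENNReal.ofReal (‖ψ x‖ ^ p)) ^ (1 / p)) := by
          gcongr
          rw [hnear, lintegral_indicator (hBm.prod hBm)]
          refine (holder_near hp hα hum hψ (B ×ˢ B)).trans ?_
          gcongr
          exact Measure.restrict_le_self
      _ = _ := by ring

end Pool.Agent.Helper749.Fp
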