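import Pool.Agent.Helper749.Fp.Init

open MeasureTheory Metric Set Filter Topology
open scoped ENNReal NNReal RealInnerProductSpace ContDiff

set_option linter.unusedSectionVars false
set_option maxHeartbeats 4000000

namespace Pool.Agent.Helper749.Fp

variable {V : Type*} [NormedAddCommGroup V] [InnerProductSpace ℝ V] [FiniteDimensional ℝ V]
  [MeasurableSpace V] [BorelSpace V]
variable {W : Type*} [NormedAddCommGroup W] [InnerProductSpace ℝ W] [FiniteDimensional ℝ W]
  [MeasurableSpace W] [BorelSpace W]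

/-- superexponential decay beats any exponential growth -/
theorem superexp {D θ b : ℝ} (hD : 0 < D) (hθ0 : 0 < θ) (hθ1 : θ < 1) (hb : 0 < b) :
    Tendsto (fun J : ℕ => (∏ i ∈ Finset.range J, (D * θ ^ i)) * b ^ J) atTop (𝓝 0) := by
  apply Summable.tendsto_atTop_zero
  apply summable_of_ratio_test_tendsto_lt_one (l := 0) zero_lt_one
  · refine Eventually.of_forall (fun J => ?_)
    have : 0 < ∏ i ∈ Finset.range J, (D * θ ^ i) := Finset.prod_pos (fun i _ => by positivity)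
    positivity
  · have h : ∀ J : ℕ, ‖(∏ i ∈ Finset.range (J + 1), (D * θ ^ i)) * b ^ (J + 1)‖ /
        ‖(∏ i ∈ Finset.range J, (D * θ ^ i)) * b ^ J‖ = (D * b) * θ ^ J := by
      intro J
      have hp : 0 < ∏ i ∈ Finset.range J, (D * θ ^ i) := Finset.prod_pos (fun i _ => by positivity)
      rw [Finset.prod_range_succ, Real.norm_of_nonneg (by positivity),
        Real.norm_of_nonneg (by positivity), pow_succ]
      field_simp
    simp only [h]
    rw [← mul_zero (D * b)]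
    exact (tendsto_pow_atTop_nhds_zero_of_lt_one hθ0.le hθ1).const_mul _

theorem gp_cP_mono {M M' : ℝ} (hM : 0 < M) (h : M ≤ M') : cP M ≤ cP M' := by
  unfold cP
  have h1 : M ^ 2 ≤ M' ^ 2 := pow_le_pow_left₀ hM.le h 2
  nlinarith

theorem gp_rho {r e : ℝ} (hr : 0 < r) (h1 : 0 < e) (h2 : e ≤ 1) :
    2 * r < 2 * r * (1 + e) ∧ 2 * r * (1 + e) ≤ 4 * r := by
  constructor <;> nlinarith

theorem gp_kl {M k l l0 : ℝ} (hk2 : k ^ 2 = M ^ 2 - l0 / 2) (h : k * l ≤ l0 / 4) :
    M ^ 2 - l0 ≤ (k - l) ^ 2 := by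
  nlinarith [sq_nonneg l]

theorem gp_Mk {M Mx k : ℝ} (hM : 0 < M) (hMM : M ≤ Mx) (hk : k ≤ M) :
    4 * M * k ≤ 4 * Mx ^ 2 := by
  have h1 : M * k ≤ M * M := mul_le_mul_of_nonneg_left hk hM.le
  have h2 : M * M ≤ Mx * Mx := mul_le_mul hMM hMM hM.le (by linarith)
  calc 4 * M * k = 4 * (M * k) := by ring
    _ ≤ 4 * (Mx * Mx) := by linarith
    _ = _ := by ring

theorem EE_mono {p α : ℝ} {u : V → W} (c : W) (x0 : V) (R M l : ℝ) {ρ ρ' : ℝ} (hρ : ρ' ≤ ρ) :
    EE p α u c x0 R M l ρ' ≤ EE p α u c x0 R M l ρ := by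
  unfold EE
  apply lintegral_mono_set
  intro x hx
  exact ⟨ball_subset_ball hρ hx.1, hx.2⟩

theorem good_point [Nontrivial V] {p α : ℝ} (hp : 1 < p) (hα : 0 < α) (hαp : α < p)
    {Mx κ Θ : ℝ} (hMx : 1 ≤ Mx) (hκ : 0 < κ) (hΘ : 0 ≤ Θ) :
    ∃ l0 : ℝ, 0 < l0 ∧ l0 ≤ 1 ∧ ∀ (Ω : Set V) (u : V → W) (_ : Sol p α Ω u) (x0 : V)
      (R r M Λ : ℝ) (c : W), 0 < r → 16 * r ≤ R → closedBall x0 R ⊆ Ω → 1 ≤ M → M ≤ Mx →
      (∀ᵐ x ∂((volume : Measure V).restrict (ball x0 R)), ‖u x - c‖ ≤ M) → 0 ≤ Λ →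
      (∀ᵐ x ∂((volume : Measure V).restrict (ball x0 (8 * r))),
        ∫⁻ y in (ball x0 R)ᶜ, ENNReal.ofReal (‖u x - u y‖ ^ (p - 1) * kr α x y) ≤
          ENNReal.ofReal Λ) →
      4 * M * Λ ≤ (1 / 2) * (κ * r ^ (-α)) →
      ∫⁻ y in (ball x0 r)ᶜ, ENNReal.ofReal (‖u y - c‖ ^ (p - 1) * kr α x0 y) ≤
        ENNReal.ofReal (Θ * r ^ (-α)) →
      ¬ (∀ᵐ x ∂((volume : Measure V).restrict (ball x0 r)), ‖u x - c‖ ^ 2 ≤ M ^ 2 - l0 / 2) →
      ¬ (∀ᵐ x ∂((volume : Measure V).restrict (ball x0 (4 * r))),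
        ENNReal.ofReal (κ * r ^ (-α)) ≤ eD p α u (ball x0 R) x) := by
  obtain ⟨C1, hC1, hC⟩ := kern_bound (V := V) hα hαp
  obtain ⟨δ, hδ, hDG⟩ := DG (V := V) (W := W) hp hα hαp (Θ * 2 ^ (p - 1)) (by positivity)
  have hp0 : 0 < p := by linarith
  have hMx0 : 0 < Mx := by linarith
  have hom := om_pos (V := V)
  have hcC := cC_pos hp
  have hcPx := cP_pos hMx0.le
  set n := Module.finrank ℝ V with hn
  set q := min p 2 with hq
  have hq1 : 1 < q := lt_min hp (by norm_num)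
  set η : ℝ := 2 ^ (-((q - 1) / (2 * α))) with hη
  have hη0 : 0 < η := by positivity
  have hη1 : η < 1 := by
    rw [hη]
    apply Real.rpow_lt_one_of_one_lt_of_neg (by norm_num)
    have : 0 < (q - 1) / (2 * α) := by
      have : 0 < q - 1 := by linarith
      positivity
    linarith
  set θ : ℝ := 2 ^ (-((q - 1) / 2)) with hθ
  have hθ0 : 0 < θ := by positivity
  have hθ1 : θ < 1 := by
    rw [hθ]
    apply Real.rpow_lt_one_of_one_lt_of_neg (by norm_num)
    linarith
  have hηα : η ^ α = θ := by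
    rw [hη, ← Real.rpow_mul (by norm_num), hθ]
    congr 1
    field_simp
  have hθ2 : ((1 : ℝ) / 2) ^ (q - 1) = θ ^ 2 := by
    rw [hθ, ← Real.rpow_natCast, ← Real.rpow_mul (by norm_num), one_div,
      Real.inv_rpow (by norm_num), ← Real.rpow_neg (by norm_num)]
    congr 1
    push_cast; ring
  have h1η : 0 < 1 - η := by linarith
  set C3 : ℝ := C1 * (2 * (1 - η)) ^ (-α) with hC3
  have hC30 : 0 < C3 := by positivity
  set D : ℝ := 16 * cP Mx * (1 + C3 / κ) with hD
  have hD0 : 0 < D := by positivity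
  set C0 : ℝ := (8 * cC p * Mx ^ p * C1 + κ / 2) * (om V * 8 ^ n) with hC0
  have hC00 : 0 < C0 := by positivity
  set N : ℝ := p * n / α with hN
  have hN0 : 0 ≤ N := by positivity
  set a : ℕ → ℝ := fun J => ∏ i ∈ Finset.range J, (D * θ ^ i) with ha
  have ha0 : ∀ J, 0 < a J := fun J => Finset.prod_pos (fun i _ => by positivity)
  have hsup := superexp hD0 hθ0 hθ1 (by positivity : (0 : ℝ) < 2 ^ N)
  set tgt : ℝ := δ * (1 / (4 * Mx ^ 2)) ^ N * (1 / 2) ^ p / (Mx ^ p * κ⁻¹ * C0) with htgt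
  have htgt0 : 0 < tgt := by positivity
  obtain ⟨J, hJ⟩ := (hsup.eventually (gt_mem_nhds htgt0)).exists
  have hJ' : Mx ^ p * κ⁻¹ * C0 * a J ≤ δ * ((1 / 2) ^ J / (4 * Mx ^ 2)) ^ N * (1 / 2) ^ p := by
    have h1 : a J * (2 ^ N) ^ J ≤ tgt := hJ.le
    rw [htgt, le_div_iff₀ (by positivity)] at h1
    have h2 : ((1 / 2 : ℝ) ^ J / (4 * Mx ^ 2)) ^ N = (1 / (4 * Mx ^ 2)) ^ N * ((2 ^ N) ^ J)⁻¹ := by
      have e1 : ((1 / 2 : ℝ) ^ J / (4 * Mx ^ 2)) = (1 / (4 * Mx ^ 2)) * ((2 : ℝ) ^ J)⁻¹ := by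
        rw [one_div, inv_pow]; ring
      rw [e1, Real.mul_rpow (by positivity) (by positivity), Real.inv_rpow (by positivity)]
      congr 2
      rw [← Real.rpow_natCast, ← Real.rpow_natCast, ← Real.rpow_mul (by norm_num),
        ← Real.rpow_mul (by norm_num), mul_comm]
    rw [h2]
    have h3 : 0 < ((2 : ℝ) ^ N) ^ J := by positivity
    calc Mx ^ p * κ⁻¹ * C0 * a J
        = (a J * (2 ^ N) ^ J * (Mx ^ p * κ⁻¹ * C0)) * ((2 ^ N) ^ J)⁻¹ := by field_simp
      _ ≤ (δ * (1 / (4 * Mx ^ 2)) ^ N * (1 / 2) ^ p) * ((2 ^ N) ^ J)⁻¹ := by gcongr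
      _ = _ := by ring
  refine ⟨(1 / 2) ^ J, by positivity, pow_le_one₀ (by norm_num) (by norm_num), ?_⟩
  intro Ω u S x0 R r M Λ c hr hrR hΩ hM hMMx hMae hΛ0 hfar hΛ htail hnear hκae
  have hum := S.meas
  have hM0 : 0 < M := by linarith
  have hMp : M ^ p ≤ Mx ^ p := Real.rpow_le_rpow hM0.le hMMx hp0.le
  have hcPM : cP M ≤ cP Mx := gp_cP_mono hM0 hMMx
  have hcP := cP_pos hM0.le
  set ρs : ℕ → ℝ := fun j => 2 * r * (1 + η ^ j) with hρs
  have hρsb : ∀ j, 2 * r < ρs j ∧ ρs j ≤ 4 * r := by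
    intro j
    have h1 : 0 < η ^ j := by positivity
    have h2 : η ^ j ≤ 1 := pow_le_one₀ hη0.le hη1.le
    exact gp_rho hr h1 h2
  have hfar4 : ∀ᵐ x ∂((volume : Measure V).restrict (ball x0 (4 * r))),
      ∫⁻ y in (ball x0 R)ᶜ, ENNReal.ofReal (‖u x - u y‖ ^ (p - 1) * kr α x y) ≤
        ENNReal.ofReal Λ :=
    ae_restrict_of_ae_restrict_of_subset (ball_subset_ball (by linarith)) hfar
  have key : ∀ j : ℕ, EE p α u c x0 R M ((1 / 2) ^ j) (ρs j) ≤
      ENNReal.ofReal (C0 * r ^ (-α) * r ^ n * a j) := by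
    intro j
    induction j with
    | zero =>
      have h1 := init_bound hp hα hαp hC1 hC S x0 c hr (by linarith) hΩ hM hMae hΛ0 hfar
      have h2 : ρs 0 = 4 * r := by rw [hρs]; simp only [pow_zero]; ring
      have h3 : EE p α u c x0 R M ((1 / 2) ^ 0) (ρs 0) ≤
          ∫⁻ x in ball x0 (4 * r), eD p α u (ball x0 R) x := by
        unfold EE
        rw [h2]
        exact lintegral_mono_set inter_subset_left
      refine h3.trans (h1.trans ?_)
      apply ENNReal.ofReal_le_ofReal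
      have h4 : a 0 = 1 := by rw [ha]; simp
      rw [h4, mul_one, hC0]
      have h5 : (4 * r) ^ (-α) ≤ r ^ (-α) :=
        Real.rpow_le_rpow_of_nonpos hr (by linarith) (by linarith)
      calc (8 * cC p * M ^ p * C1 * (4 * r) ^ (-α) + 4 * M * Λ) * (om V * (8 * r) ^ n)
          ≤ (8 * cC p * Mx ^ p * C1 * r ^ (-α) + (1 / 2) * (κ * r ^ (-α))) *
            (om V * (8 * r) ^ n) := by gcongr
        _ = _ := by rw [mul_pow]; ring
    | succ j ih =>
      have hj := hρsb j
      have hj1 := hρsb (j + 1)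
      have hd : ρs j - ρs (j + 1) = 2 * r * (η ^ j * (1 - η)) := by
        rw [hρs]; simp only [pow_succ]; ring
      have hηj : 0 < η ^ j := by positivity
      have hlt : ρs (j + 1) < ρs j := by
        have : 0 < 2 * r * (η ^ j * (1 - η)) := by positivity
        linarith
      have hb := barrier_step hp hα hαp hC1 hC S x0 (l := (1 / 2) ^ j) c hr
        (by linarith : 0 < ρs (j + 1)) hlt hj.2 (by linarith : 4 * r < R) hΩ hM (by positivity)
        (pow_le_one₀ (by norm_num) (by norm_num)) hMae hκ hκae hΛ0 hfar4 hΛ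
      have hhalf : ((1 : ℝ) / 2) ^ j / 2 = (1 / 2) ^ (j + 1) := by rw [pow_succ]; ring
      rw [hhalf] at hb
      refine hb.trans ((mul_le_mul' le_rfl ih).trans ?_)
      have h1 : 0 < r / (ρs j - ρs (j + 1)) := by
        have : 0 < ρs j - ρs (j + 1) := by linarith
        positivity
      rw [← ENNReal.ofReal_mul (by positivity)]
      apply ENNReal.ofReal_le_ofReal
      have h2 : (r / (ρs j - ρs (j + 1))) ^ α = (2 * (1 - η)) ^ (-α) * (θ ^ j)⁻¹ := by
        have e1 : r / (ρs j - ρs (j + 1)) = (2 * (1 - η))⁻¹ * (η ^ j)⁻¹ := by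
          rw [hd]; field_simp
        rw [e1, Real.mul_rpow (by positivity) (by positivity), Real.inv_rpow (by positivity),
          Real.inv_rpow (by positivity), Real.rpow_neg (by positivity)]
        congr 2
        rw [← hηα, ← Real.rpow_natCast, ← Real.rpow_natCast, ← Real.rpow_mul hη0.le,
          ← Real.rpow_mul hη0.le, mul_comm]
      have h3 : (((1 : ℝ) / 2) ^ j) ^ (q - 1) = (θ ^ j) ^ 2 := by
        rw [← Real.rpow_natCast, ← Real.rpow_mul (by norm_num), mul_comm,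
          Real.rpow_mul (by norm_num), hθ2, Real.rpow_natCast, ← pow_mul, ← pow_mul, mul_comm]
      have hθj : 0 < θ ^ j := by positivity
      have hθj1 : θ ^ j ≤ 1 := pow_le_one₀ hθ0.le hθ1.le
      have h4 : 16 * cP M * (((1 : ℝ) / 2) ^ j) ^ (q - 1) *
          (1 + C1 * (r / (ρs j - ρs (j + 1))) ^ α / κ) ≤ D * θ ^ j := by
        rw [h2, h3]
        have e1 : 16 * cP M * (θ ^ j) ^ 2 * (1 + C1 * ((2 * (1 - η)) ^ (-α) * (θ ^ j)⁻¹) / κ) =
            16 * cP M * (θ ^ j * (θ ^ j + C3 / κ)) := by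
          rw [hC3]; field_simp
        rw [e1, hD]
        calc 16 * cP M * (θ ^ j * (θ ^ j + C3 / κ)) ≤ 16 * cP Mx * (θ ^ j * (1 + C3 / κ)) := by
              gcongr
          _ = _ := by ring
      have h5 : a (j + 1) = a j * (D * θ ^ j) := by rw [ha]; simp only [Finset.prod_range_succ]
      calc _ ≤ (D * θ ^ j) * (C0 * r ^ (-α) * r ^ n * a j) := by
            have := ha0 j
            gcongr
        _ = _ := by rw [h5]; ring
  -- apply DG
  set l0 : ℝ := (1 / 2) ^ J with hl0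
  have hl00 : 0 < l0 := by positivity
  have hl01 : l0 ≤ 1 := pow_le_one₀ (by norm_num) (by norm_num)
  have hM2 : 1 ≤ M ^ 2 := one_le_pow₀ hM
  set k : ℝ := Real.sqrt (M ^ 2 - l0 / 2) with hk
  have hk2 : k ^ 2 = M ^ 2 - l0 / 2 := Real.sq_sqrt (by linarith)
  have hk0 : 0 < k := Real.sqrt_pos.mpr (by linarith)
  have hkM : k ≤ M := by
    rw [hk]; apply Real.sqrt_le_iff.mpr; constructor <;> linarith
  have hkh : 1 / 2 ≤ k := by
    rw [hk]; apply Real.le_sqrt_of_sq_le; linarith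
  set l : ℝ := l0 / (4 * M) with hl
  have hlpos : 0 < l := by positivity
  have hl4 : l ≤ 1 / 4 := by
    rw [hl, div_le_div_iff₀ (by positivity) (by norm_num)]; linarith
  have hlk : l ≤ k / 2 := by linarith
  have hklM : M ^ 2 - l0 ≤ (k - l) ^ 2 := by
    have h1 : k * l ≤ l0 / 4 := by
      calc k * l ≤ M * l := by gcongr
        _ = l0 / 4 := by rw [hl]; field_simp
    exact gp_kl hk2 h1
  apply hnear
  have hDG' := hDG Ω u S x0 r c k l hr
    ((closedBall_subset_closedBall (by linarith)).trans hΩ) hlpos hlk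
    (htail.trans (ENNReal.ofReal_le_ofReal (by
      have h1 : 1 ≤ 2 ^ (p - 1) * k ^ (p - 1) := by
        rw [← Real.mul_rpow (by norm_num) hk0.le]
        exact Real.one_le_rpow (by linarith) (by linarith)
      have h2 : 0 ≤ Θ * r ^ (-α) := by positivity
      calc Θ * r ^ (-α) ≤ Θ * r ^ (-α) * (2 ^ (p - 1) * k ^ (p - 1)) :=
            le_mul_of_one_le_right h2 h1
        _ = _ := by ring)))
    (by
      have hlm : MeasurableSet {x | k - l < ‖u x - c‖} :=
        measurableSet_lt measurable_const (by fun_prop)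
      have hlev : MeasurableSet {x | M ^ 2 - l0 < ‖u x - c‖ ^ 2} :=
        measurableSet_lt measurable_const (by fun_prop)
      have hem := eD_meas p α hum (ball x0 R)
      have h1 : ZZ p u c x0 (k - l) (2 * r) ≤
          ENNReal.ofReal (M ^ p * κ⁻¹ * r ^ α) * EE p α u c x0 R M l0 (2 * r) := by
        unfold ZZ EE
        rw [← lintegral_const_mul _ hem]
        have hsub : ball x0 (2 * r) ∩ {x | k - l < ‖u x - c‖} ⊆
            ball x0 (2 * r) ∩ {x | M ^ 2 - l0 < ‖u x - c‖ ^ 2} := by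
          intro x hx
          refine ⟨hx.1, ?_⟩
          have h2 : k - l < ‖u x - c‖ := hx.2
          have h3 : 0 < k - l := by linarith
          show M ^ 2 - l0 < ‖u x - c‖ ^ 2
          exact lt_of_le_of_lt hklM (pow_lt_pow_left₀ h2 h3.le (by norm_num))
        refine le_trans ?_ (lintegral_mono_set hsub)
        apply lintegral_mono_ae
        refine (ae_restrict_iff' (measurableSet_ball.inter hlm)).mpr ?_
        have h4 := (ae_restrict_iff' measurableSet_ball).mp hMae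
        have h5 := (ae_restrict_iff' measurableSet_ball).mp hκae
        filter_upwards [h4, h5] with x hx4 hx5 hx
        have h6 := hx4 (ball_subset_ball (by linarith) hx.1)
        have h7 := hx5 (ball_subset_ball (by linarith) hx.1)
        calc ENNReal.ofReal (‖u x - c‖ ^ p) ≤ ENNReal.ofReal (M ^ p) := by
              apply ENNReal.ofReal_le_ofReal
              exact Real.rpow_le_rpow (norm_nonneg _) h6 hp0.le
          _ = ENNReal.ofReal (M ^ p * κ⁻¹ * r ^ α) * ENNReal.ofReal (κ * r ^ (-α)) := by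
              rw [← ENNReal.ofReal_mul (by positivity)]
              congr 1
              rw [Real.rpow_neg hr.le]
              have : r ^ α ≠ 0 := by positivity
              field_simp
          _ ≤ _ := by gcongr
      refine h1.trans ((mul_le_mul' le_rfl ((EE_mono c x0 R M l0 (hρsb J).1.le).trans
        (key J))).trans ?_)
      rw [← ENNReal.ofReal_mul (by positivity)]
      apply ENNReal.ofReal_le_ofReal
      have h8 : (1 / 2 : ℝ) ^ J / (4 * Mx ^ 2) ≤ l / k := by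
        rw [← hl0, hl, div_div, div_le_div_iff₀ (by positivity) (by positivity)]
        have : 4 * M * k ≤ 4 * Mx ^ 2 := gp_Mk hM0 hMMx hkM
        gcongr
      have h9 := ha0 J
      calc M ^ p * κ⁻¹ * r ^ α * (C0 * r ^ (-α) * r ^ n * a J)
          = (M ^ p * κ⁻¹ * C0 * a J) * r ^ n := by
            rw [Real.rpow_neg hr.le]
            have : r ^ α ≠ 0 := by positivity
            field_simp
        _ ≤ (Mx ^ p * κ⁻¹ * C0 * a J) * r ^ n := by gcongr
        _ ≤ (δ * ((1 / 2) ^ J / (4 * Mx ^ 2)) ^ N * (1 / 2) ^ p) * r ^ n := by gcongr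
        _ ≤ (δ * (l / k) ^ N * k ^ p) * r ^ n := by gcongr
        _ = _ := by rw [hN])
  filter_upwards [hDG'] with x hx
  rw [← hk2]
  exact pow_le_pow_left₀ (norm_nonneg _) hx 2

end Pool.Agent.Helper749.Fp
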