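import Pool.Agent.Helper749.Fp.Bar

open MeasureTheory Metric Set Filter Topology
open scoped ENNReal NNReal RealInnerProductSpace ContDiff

set_option linter.unusedSectionVars false
set_option maxHeartbeats 4000000

namespace Pool.Agent.Helper749.Fp

variable {V : Type*} [NormedAddCommGroup V] [InnerProductSpace ℝ V] [FiniteDimensional ℝ V]
  [MeasurableSpace V] [BorelSpace V]
variable {W : Type*} [NormedAddCommGroup W] [InnerProductSpace ℝ W] [FiniteDimensional ℝ W]
  [MeasurableSpace W] [BorelSpace W]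

theorem init_bound [Nontrivial V] {p α C1 : ℝ} (hp : 1 < p) (hα : 0 < α) (hαp : α < p)
    (hC1 : 0 < C1)
    (hC : ∀ σ : ℝ, 0 < σ → ∀ x : V,
      ∫⁻ y : V, ENNReal.ofReal ((min 1 (‖x - y‖ / σ)) ^ p *
        ‖x - y‖ ^ (-((Module.finrank ℝ V : ℝ) + α))) ≤ ENNReal.ofReal (C1 * σ ^ (-α)))
    {Ω : Set V} {u : V → W} (S : Sol p α Ω u) (x0 : V) {R r M Λ : ℝ} (c : W)
    (hr : 0 < r) (hrR : 8 * r < R)
    (hΩ : closedBall x0 R ⊆ Ω) (hM : 1 ≤ M)
    (hMae : ∀ᵐ x ∂((volume : Measure V).restrict (ball x0 R)), ‖u x - c‖ ≤ M)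
    (hΛ0 : 0 ≤ Λ)
    (hfar : ∀ᵐ x ∂((volume : Measure V).restrict (ball x0 (8 * r))),
      ∫⁻ y in (ball x0 R)ᶜ, ENNReal.ofReal (‖u x - u y‖ ^ (p - 1) * kr α x y) ≤
        ENNReal.ofReal Λ) :
    ∫⁻ x in ball x0 (4 * r), eD p α u (ball x0 R) x ≤
      ENNReal.ofReal ((8 * cC p * M ^ p * C1 * (4 * r) ^ (-α) + 4 * M * Λ) *
        (om V * (8 * r) ^ Module.finrank ℝ V)) := by
  have hum := S.meas
  have hkm := kr_meas (V := V) α
  have hp0 : 0 < p := by linarith
  have hM0 : 0 < M := by linarith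
  have hcC := cC_pos hp
  have hom := om_pos (V := V)
  have h48 : 4 * r < 8 * r := by linarith
  have h84 : 8 * r - 4 * r = 4 * r := by ring
  set B := ball x0 R with hB
  have hBm : MeasurableSet B := measurableSet_ball
  set ζ := cut x0 (4 * r) (8 * r) with hζ
  have hζm : Measurable ζ := cut_meas _ _ _
  have hζ0 := cut_nonneg x0 (4 * r) (8 * r)
  have hζ1 := cut_le_one x0 (4 * r) (8 * r)
  rw [← hζ] at hζ0 hζ1
  set F : V → ℝ := fun x => ζ x ^ p with hF
  have hFm : Measurable F := by rw [hF]; fun_prop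
  have hF0 : ∀ x, 0 ≤ F x := fun x => Real.rpow_nonneg (hζ0 x) _
  have hF1 : ∀ x, F x ≤ 1 := fun x => Real.rpow_le_one (hζ0 x) (hζ1 x) hp0.le
  have hFs : ∀ x, x ∉ ball x0 (8 * r) → F x = 0 := by
    intro x hx
    rw [hF]; simp only
    rw [hζ, cut_eq_zero h48 hx, Real.zero_rpow hp0.ne']
  have hzl : ∀ x y : V, |ζ x - ζ y| ≤ min 1 (‖x - y‖ / (4 * r)) := by
    intro x y
    have := cut_lip (x0 := x0) h48 x y
    rwa [h84] at this
  have hen := energy_fin hp hα hαp S x0 hrR hΩ (fun x => F x • (u x - c)) (by fun_prop)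
    (fun x hx => by rw [hFs x hx, zero_smul])
    (L := p * M + 1 + M) (σ := 4 * r) (by positivity) (by positivity)
    (by
      filter_upwards [ae_prod_of_ae hMae] with w hw
      have e : F w.1 • (u w.1 - c) - F w.2 • (u w.2 - c) =
        (F w.1 - F w.2) • (u w.1 - c) + F w.2 • ((u w.1 - c) - (u w.2 - c)) := by
        module
      rw [e, sub_sub_sub_cancel_right]
      refine (norm_add_le _ _).trans ?_
      rw [norm_smul, norm_smul, Real.norm_eq_abs, Real.norm_of_nonneg (hF0 w.2)]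
      have hz1 : |F w.1 - F w.2| ≤ p * min 1 (‖w.1 - w.2‖ / (4 * r)) := by
        have hl := hzl w.1 w.2
        have haux : ∀ s t : ℝ, 0 ≤ s → s ≤ t → t ≤ 1 → t ^ p - s ^ p ≤ p * (t - s) := by
          intro s t hs hst ht
          have h4 := tangent_rpow hp hs hst
          have h5 : t ^ (p - 1) ≤ 1 := Real.rpow_le_one (hs.trans hst) ht (by linarith)
          have h6 : p * t ^ (p - 1) * (t - s) ≤ p * 1 * (t - s) := by
            have : 0 ≤ t - s := by linarith
            gcongr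
          linarith
        rw [hF]; simp only
        rcases le_total (ζ w.1) (ζ w.2) with h4 | h4
        · have h5 := haux _ _ (hζ0 w.1) h4 (hζ1 w.2)
          have h6 : ζ w.1 ^ p ≤ ζ w.2 ^ p := Real.rpow_le_rpow (hζ0 _) h4 hp0.le
          rw [abs_of_nonpos (by linarith)]
          rw [abs_of_nonpos (by linarith)] at hl
          nlinarith
        · have h5 := haux _ _ (hζ0 w.2) h4 (hζ1 w.1)
          have h6 : ζ w.2 ^ p ≤ ζ w.1 ^ p := Real.rpow_le_rpow (hζ0 _) h4 hp0.le
          rw [abs_of_nonneg (by linarith)]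
          rw [abs_of_nonneg (by linarith)] at hl
          nlinarith
      have hm0 : 0 ≤ min 1 (‖w.1 - w.2‖ / (4 * r)) := by positivity
      have h8 := hw.1
      have h9 := hF1 w.2
      have h10 : (0 : ℝ) ≤ ‖u w.1‖ := norm_nonneg _
      have h11 : (0 : ℝ) ≤ ‖u w.1 - u w.2‖ := norm_nonneg _
      calc |F w.1 - F w.2| * ‖u w.1 - c‖ + F w.2 * ‖u w.1 - u w.2‖
          ≤ (p * min 1 (‖w.1 - w.2‖ / (4 * r))) * M + 1 * ‖u w.1 - u w.2‖ := by
            gcongr
        _ ≤ (p * M + 1 + M) * (‖u w.1 - u w.2‖ + min 1 (‖w.1 - w.2‖ / (4 * r)) *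
              (1 + ‖u w.1‖)) := by
            have e5 : (p * M + 1 + M) * (‖u w.1 - u w.2‖ + min 1 (‖w.1 - w.2‖ / (4 * r)) *
              (1 + ‖u w.1‖)) - ((p * min 1 (‖w.1 - w.2‖ / (4 * r))) * M + 1 * ‖u w.1 - u w.2‖) =
              (p * M + M) * ‖u w.1 - u w.2‖ + (1 + M) * min 1 (‖w.1 - w.2‖ / (4 * r)) +
              (p * M + 1 + M) * (min 1 (‖w.1 - w.2‖ / (4 * r)) * ‖u w.1‖) := by ring
            have e6 : 0 ≤ (p * M + M) * ‖u w.1 - u w.2‖ + (1 + M) *
              min 1 (‖w.1 - w.2‖ / (4 * r)) + (p * M + 1 + M) *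
              (min 1 (‖w.1 - w.2‖ / (4 * r)) * ‖u w.1‖) := by positivity
            linarith)
    (by
      filter_upwards [hMae] with x hx
      rw [norm_smul, Real.norm_of_nonneg (hF0 x)]
      have h9 := hF1 x
      have h10 : (0 : ℝ) ≤ ‖u x‖ := norm_nonneg _
      calc F x * ‖u x - c‖ ≤ 1 * M := by gcongr
        _ ≤ _ := by nlinarith [mul_nonneg hM0.le h10, mul_nonneg hp0.le hM0.le,
            mul_nonneg (mul_nonneg hp0.le hM0.le) h10])
  have hmas := master hp hα hαp S x0 (by linarith : (0:ℝ) ≤ R) hrR hΩ c F hFm hF0 hFs hen.1 hen.2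
    (fun w => cC p * |ζ w.1 - ζ w.2| ^ p * (1 * ‖u w.1 - c‖ ^ p + 1 * ‖u w.2 - c‖ ^ p))
    (by fun_prop) (fun w => by positivity)
    (Eventually.of_forall (fun w => by
      have h4 := ptw_C hp (u w.1 - c) (u w.2 - c) 1 1 (ζ w.1) (ζ w.2) zero_le_one zero_le_one
        (fun _ => le_rfl) (fun _ => le_rfl) (hζ0 _) (hζ0 _)
      rw [sub_sub_sub_cancel_right, mul_one, mul_one] at h4
      exact h4))
  have hem := eD_meas p α hum B
  -- left side
  have hL : ∫⁻ x in ball x0 (4 * r), eD p α u B x ≤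
      ∫⁻ x in B, ENNReal.ofReal (F x) * eD p α u B x := by
    refine le_trans ?_ (lintegral_mono_set (ball_subset_ball (by linarith)) :
      ∫⁻ x in ball x0 (4 * r), ENNReal.ofReal (F x) * eD p α u B x ≤ _)
    apply setLIntegral_mono' measurableSet_ball
    intro x hx
    have : F x = 1 := by
      rw [hF]; simp only
      rw [hζ, cut_eq_one h48 hx, Real.one_rpow]
    rw [this, ENNReal.ofReal_one, one_mul]
  set Vol : ℝ := om V * (8 * r) ^ Module.finrank ℝ V with hVol
  have hVol0 : 0 < Vol := by positivity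
  have hvb : volume (ball x0 (8 * r)) = ENNReal.ofReal Vol := vol_ball x0 (by positivity)
  -- bad
  set χ : V → ℝ := (ball x0 (8 * r)).indicator (fun _ => (1 : ℝ)) with hχ
  have hχm : Measurable χ := measurable_const.indicator measurableSet_ball
  have hχ0 : ∀ x, 0 ≤ χ x := fun x => indicator_nonneg (fun _ _ => zero_le_one) x
  have hbad : ∫⁻ w in B ×ˢ B, ENNReal.ofReal (cC p * |ζ w.1 - ζ w.2| ^ p *
      (1 * ‖u w.1 - c‖ ^ p + 1 * ‖u w.2 - c‖ ^ p) * kr α w.1 w.2) ≤
      2 * ENNReal.ofReal (2 * cC p * M ^ p * (C1 * (4 * r) ^ (-α)) * Vol) := by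
    have e1 : ∀ᵐ w ∂((volume : Measure (V × V)).restrict (B ×ˢ B)),
        ENNReal.ofReal (cC p * |ζ w.1 - ζ w.2| ^ p *
        (1 * ‖u w.1 - c‖ ^ p + 1 * ‖u w.2 - c‖ ^ p) * kr α w.1 w.2) ≤
        ENNReal.ofReal (2 * cC p * M ^ p * (χ w.1 * (|ζ w.1 - ζ w.2| ^ p * kr α w.1 w.2))) +
        ENNReal.ofReal (2 * cC p * M ^ p * (χ w.2 * (|ζ w.2 - ζ w.1| ^ p * kr α w.2 w.1))) := by
      filter_upwards [ae_prod_of_ae hMae] with w hw
      have h1 := kr_nonneg α w.1 w.2
      have h2 := kr_nonneg α w.2 w.1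
      have h3 := hχ0 w.1
      have h4 := hχ0 w.2
      rw [← ENNReal.ofReal_add (by positivity) (by positivity), abs_sub_comm (ζ w.2),
        kr_symm α w.2]
      apply ENNReal.ofReal_le_ofReal
      have h5 : ‖u w.1 - c‖ ^ p ≤ M ^ p := Real.rpow_le_rpow (norm_nonneg _) hw.1 hp0.le
      have h6 : ‖u w.2 - c‖ ^ p ≤ M ^ p := Real.rpow_le_rpow (norm_nonneg _) hw.2 hp0.le
      have h7 : |ζ w.1 - ζ w.2| ^ p ≤ (χ w.1 + χ w.2) * |ζ w.1 - ζ w.2| ^ p := by
        by_cases h8 : w.1 ∈ ball x0 (8 * r) ∨ w.2 ∈ ball x0 (8 * r)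
        · have h9 : 1 ≤ χ w.1 + χ w.2 := by
            rcases h8 with h8 | h8
            · have : χ w.1 = 1 := by rw [hχ, indicator_of_mem h8]
              linarith
            · have : χ w.2 = 1 := by rw [hχ, indicator_of_mem h8]
              linarith
          exact le_mul_of_one_le_left (by positivity) h9
        · push Not at h8
          have h9 : ζ w.1 = 0 := cut_eq_zero h48 h8.1
          have h10 : ζ w.2 = 0 := cut_eq_zero h48 h8.2
          rw [h9, h10, sub_self, abs_zero, Real.zero_rpow hp0.ne', mul_zero]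
      calc cC p * |ζ w.1 - ζ w.2| ^ p * (1 * ‖u w.1 - c‖ ^ p + 1 * ‖u w.2 - c‖ ^ p) * kr α w.1 w.2
          ≤ cC p * ((χ w.1 + χ w.2) * |ζ w.1 - ζ w.2| ^ p) * (1 * M ^ p + 1 * M ^ p) *
            kr α w.1 w.2 := by gcongr
        _ = _ := by ring
    refine (lintegral_mono_ae e1).trans ?_
    rw [lintegral_add_left (by fun_prop)]
    have e2 := setLIntegral_prod_swap' (V := V) B (fun w =>
      ENNReal.ofReal (2 * cC p * M ^ p * (χ w.1 * (|ζ w.1 - ζ w.2| ^ p * kr α w.1 w.2))))
    simp only [Prod.fst_swap, Prod.snd_swap] at e2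
    rw [e2]
    have e3 : ∫⁻ w in B ×ˢ B, ENNReal.ofReal (2 * cC p * M ^ p * (χ w.1 *
        (|ζ w.1 - ζ w.2| ^ p * kr α w.1 w.2))) ≤
        ENNReal.ofReal (2 * cC p * M ^ p * (C1 * (4 * r) ^ (-α)) * Vol) := by
      rw [setLIntegral_prod' _ _ _ (by fun_prop)]
      have e4 : ∀ x : V, ∫⁻ y in B, ENNReal.ofReal (2 * cC p * M ^ p * (χ x *
          (|ζ x - ζ y| ^ p * kr α x y))) ≤ (ball x0 (8 * r)).indicator (fun _ =>
          ENNReal.ofReal (2 * cC p * M ^ p * (C1 * (4 * r) ^ (-α)))) x := by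
        intro x
        by_cases hx : x ∈ ball x0 (8 * r)
        · rw [indicator_of_mem hx]
          have h3 : χ x = 1 := by rw [hχ, indicator_of_mem hx]
          simp only [h3, one_mul]
          have hkx := kr_meas_right (V := V) α x
          simp only [ENNReal.ofReal_mul (by positivity : 0 ≤ 2 * cC p * M ^ p)]
          rw [lintegral_const_mul _ (by fun_prop)]
          gcongr
          refine (setLIntegral_le_lintegral _ _).trans (le_trans (lintegral_mono (fun y => ?_))
            (hC (4 * r) (by positivity) x))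
          apply ENNReal.ofReal_le_ofReal
          have hk0 := kr_nonneg α x y
          have : |ζ x - ζ y| ^ p ≤ (min 1 (‖x - y‖ / (4 * r))) ^ p :=
            Real.rpow_le_rpow (abs_nonneg _) (hzl x y) hp0.le
          exact mul_le_mul_of_nonneg_right this hk0
        · rw [indicator_of_notMem hx]
          have h3 : χ x = 0 := by rw [hχ, indicator_of_notMem hx]
          simp [h3]
      refine (lintegral_mono e4).trans ?_
      rw [lintegral_indicator measurableSet_ball, setLIntegral_const,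
        Measure.restrict_apply measurableSet_ball]
      refine (mul_le_mul' le_rfl (measure_mono inter_subset_left)).trans ?_
      rw [hvb, ← ENNReal.ofReal_mul (by positivity)]
    exact (add_le_add e3 e3).trans_eq (two_mul _).symm
  -- far
  have hfar' : ∫⁻ x in B, ENNReal.ofReal (F x * ‖u x - c‖) *
        ∫⁻ y in Bᶜ, ENNReal.ofReal (‖u x - u y‖ ^ (p - 1) * kr α x y) ≤
      ENNReal.ofReal (M * Λ * Vol) := by
    have hf' : ∀ᵐ x ∂((volume : Measure V).restrict B), x ∈ ball x0 (8 * r) →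
        ∫⁻ y in Bᶜ, ENNReal.ofReal (‖u x - u y‖ ^ (p - 1) * kr α x y) ≤ ENNReal.ofReal Λ := by
      have h1 := (ae_restrict_iff' measurableSet_ball).mp hfar
      exact ae_restrict_of_ae h1
    have h2 : ∀ᵐ x ∂((volume : Measure V).restrict B), ENNReal.ofReal (F x * ‖u x - c‖) *
        ∫⁻ y in Bᶜ, ENNReal.ofReal (‖u x - u y‖ ^ (p - 1) * kr α x y) ≤
        (ball x0 (8 * r)).indicator (fun _ => ENNReal.ofReal (M * Λ)) x := by
      filter_upwards [hf', hMae] with x hx hxM
      by_cases hxr : x ∈ ball x0 (8 * r)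
      · rw [indicator_of_mem hxr, ENNReal.ofReal_mul hM0.le]
        have h3 : F x * ‖u x - c‖ ≤ M := by
          calc F x * ‖u x - c‖ ≤ 1 * M := by
                have := hF1 x
                gcongr
            _ = M := one_mul _
        have h4 := hx hxr
        gcongr
      · rw [hFs x hxr, zero_mul, ENNReal.ofReal_zero, zero_mul]; exact zero_le
    refine (lintegral_mono_ae h2).trans ?_
    rw [lintegral_indicator measurableSet_ball, setLIntegral_const,
        Measure.restrict_apply measurableSet_ball]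
    refine (mul_le_mul' le_rfl (measure_mono inter_subset_left)).trans ?_
    rw [hvb, ← ENNReal.ofReal_mul (by positivity)]
  refine hL.trans (hmas.trans ?_)
  calc _ ≤ 2 * (2 * ENNReal.ofReal (2 * cC p * M ^ p * (C1 * (4 * r) ^ (-α)) * Vol)) +
        4 * ENNReal.ofReal (M * Λ * Vol) := by gcongr
    _ = _ := by
        rw [show (4 : ℝ≥0∞) = ENNReal.ofReal 4 by norm_num,
          show (2 : ℝ≥0∞) = ENNReal.ofReal 2 by norm_num, ← ENNReal.ofReal_mul (by norm_num),
          ← ENNReal.ofReal_mul (by norm_num), ← ENNReal.ofReal_mul (by norm_num),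
          ← ENNReal.ofReal_add (by positivity) (by positivity)]
        congr 1
        ring

end Pool.Agent.Helper749.Fp
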