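import Mathlib

open MeasureTheory Metric Set Filter Topology
open scoped ENNReal NNReal

namespace Pool.Agent.Helper749.Fp

variable {V : Type*} [NormedAddCommGroup V] [InnerProductSpace ℝ V] [FiniteDimensional ℝ V]
  [MeasurableSpace V] [BorelSpace V]

theorem radial_integrable [Nontrivial V] {α p : ℝ} (hα : 0 < α) (hαp : α < p) :
    Integrable (fun y : V => (min 1 ‖y‖) ^ p * ‖y‖ ^ (-((Module.finrank ℝ V : ℝ) + α))) volume := by
  have hn : 0 < Module.finrank ℝ V := Module.finrank_pos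
  rw [integrable_fun_norm_addHaar (μ := (volume : Measure V))
    (f := fun t : ℝ => (min 1 t) ^ p * t ^ (-((Module.finrank ℝ V : ℝ) + α)))]
  have key : ∀ y : ℝ, 0 < y → y ^ (Module.finrank ℝ V - 1) •
      ((min 1 y) ^ p * y ^ (-((Module.finrank ℝ V : ℝ) + α))) = (min 1 y) ^ p * y ^ (-1 - α) := by
    intro y hy
    rw [smul_eq_mul, ← Real.rpow_natCast, Nat.cast_sub hn, Nat.cast_one]
    rw [mul_left_comm, ← Real.rpow_add hy]
    congr 2
    ring
  suffices hs : IntegrableOn (fun y : ℝ => (min 1 y) ^ p * y ^ (-1 - α)) (Ioi 0) volume from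
    hs.congr_fun (fun y hy => (key y hy).symm) measurableSet_Ioi
  rw [← Ioc_union_Ioi_eq_Ioi (zero_le_one (α := ℝ))]
  refine IntegrableOn.union ?_ ?_
  · have h1 : IntegrableOn (fun y : ℝ => y ^ (p - 1 - α)) (Ioc 0 1) := by
      rw [← intervalIntegrable_iff_integrableOn_Ioc_of_le zero_le_one]
      exact intervalIntegral.intervalIntegrable_rpow' (by linarith)
    refine h1.congr_fun (fun y hy => ?_) measurableSet_Ioc
    simp only
    rw [min_eq_right hy.2, ← Real.rpow_add hy.1]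
    congr 1
    ring
  · have h1 : IntegrableOn (fun y : ℝ => y ^ (-1 - α)) (Ioi 1) :=
      integrableOn_Ioi_rpow_of_lt (by linarith) one_pos
    refine h1.congr_fun (fun y hy => ?_) measurableSet_Ioi
    simp only
    rw [min_eq_left (le_of_lt hy), Real.one_rpow, one_mul]

theorem lintegral_scale [Nontrivial V] (f : V → ℝ≥0∞) (hf : Measurable f) {σ : ℝ} (hσ : 0 < σ) :
    ∫⁻ y : V, f (σ⁻¹ • y) = ENNReal.ofReal (σ ^ Module.finrank ℝ V) * ∫⁻ y : V, f y := by
  have h := Measure.map_addHaar_smul (volume : Measure V) (r := σ⁻¹) (by positivity)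
  have h2 : ∫⁻ y : V, f (σ⁻¹ • y) = ∫⁻ y, f y ∂(Measure.map (fun y : V => σ⁻¹ • y) volume) := by
    rw [lintegral_map hf (by fun_prop)]
  rw [h2, h, lintegral_smul_measure]
  congr 2
  rw [abs_of_pos (by positivity)]
  simp

/-- The basic bound for the kernel integral. -/
theorem kern_bound [Nontrivial V] {α p : ℝ} (hα : 0 < α) (hαp : α < p) :
    ∃ C : ℝ, 0 < C ∧ ∀ σ : ℝ, 0 < σ → ∀ x : V,
      ∫⁻ y : V, ENNReal.ofReal ((min 1 (‖x - y‖ / σ)) ^ p *
        ‖x - y‖ ^ (-((Module.finrank ℝ V : ℝ) + α))) ≤ ENNReal.ofReal (C * σ ^ (-α)) := by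
  have hint := radial_integrable (V := V) hα hαp
  refine ⟨(∫ y : V, (min 1 ‖y‖) ^ p * ‖y‖ ^ (-((Module.finrank ℝ V : ℝ) + α))) + 1, ?_, ?_⟩
  · have : 0 ≤ ∫ y : V, (min 1 ‖y‖) ^ p * ‖y‖ ^ (-((Module.finrank ℝ V : ℝ) + α)) :=
      integral_nonneg (fun y => by positivity)
    linarith
  · intro σ hσ x
    set n := Module.finrank ℝ V with hn
    have h1 : ∫⁻ y : V, ENNReal.ofReal ((min 1 (‖x - y‖ / σ)) ^ p * ‖x - y‖ ^ (-((n : ℝ) + α)))
        = ∫⁻ y : V, ENNReal.ofReal ((min 1 (‖y‖ / σ)) ^ p * ‖y‖ ^ (-((n : ℝ) + α))) :=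
      lintegral_sub_left_eq_self (μ := (volume : Measure V))
        (fun y : V => ENNReal.ofReal ((min 1 (‖y‖ / σ)) ^ p * ‖y‖ ^ (-((n : ℝ) + α)))) x
    have hmeas : Measurable (fun y : V => ENNReal.ofReal ((min 1 ‖y‖) ^ p *
        ‖y‖ ^ (-((n : ℝ) + α)))) := by fun_prop
    have h2 := lintegral_scale (V := V) _ hmeas hσ
    have h3 : ∀ y : V, ENNReal.ofReal ((min 1 (‖y‖ / σ)) ^ p * ‖y‖ ^ (-((n : ℝ) + α)))
        = ENNReal.ofReal (σ ^ (-((n : ℝ) + α))) * ENNReal.ofReal ((min 1 ‖σ⁻¹ • y‖) ^ p *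
        ‖σ⁻¹ • y‖ ^ (-((n : ℝ) + α))) := by
      intro y
      rw [← ENNReal.ofReal_mul (by positivity)]
      congr 1
      have e1 : ‖σ⁻¹ • y‖ = ‖y‖ / σ := by
        rw [norm_smul, norm_inv, Real.norm_of_nonneg hσ.le]
        field_simp
      rw [e1, Real.div_rpow (norm_nonneg y) hσ.le, mul_left_comm]
      congr 1
      have : σ ^ (-((n : ℝ) + α)) ≠ 0 := by positivity
      field_simp
    rw [h1]
    simp_rw [h3]
    rw [lintegral_const_mul _ (by fun_prop), h2]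
    rw [← ofReal_integral_eq_lintegral_ofReal hint (Eventually.of_forall (fun y => by positivity))]
    rw [← ENNReal.ofReal_mul (by positivity), ← ENNReal.ofReal_mul (by positivity)]
    apply ENNReal.ofReal_le_ofReal
    have e2 : σ ^ (-((n : ℝ) + α)) * σ ^ n = σ ^ (-α) := by
      rw [← Real.rpow_natCast, ← Real.rpow_add hσ]
      congr 1
      ring
    rw [← mul_assoc, e2, mul_comm]
    apply mul_le_mul_of_nonneg_right _ (by positivity)
    linarith

/-- Tail version. -/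
theorem kern_tail {α p C : ℝ} (hC : ∀ σ : ℝ, 0 < σ → ∀ x : V,
      ∫⁻ y : V, ENNReal.ofReal ((min 1 (‖x - y‖ / σ)) ^ p *
        ‖x - y‖ ^ (-((Module.finrank ℝ V : ℝ) + α))) ≤ ENNReal.ofReal (C * σ ^ (-α)))
    {σ : ℝ} (hσ : 0 < σ) (x : V) (S : Set V) (hS : MeasurableSet S) (hxS : ∀ y ∈ S, σ ≤ ‖x - y‖) :
    ∫⁻ y in S, ENNReal.ofReal (‖x - y‖ ^ (-((Module.finrank ℝ V : ℝ) + α))) ≤
      ENNReal.ofReal (C * σ ^ (-α)) := by
  refine le_trans ?_ (hC σ hσ x)
  refine le_trans ?_ (setLIntegral_le_lintegral S _)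
  apply setLIntegral_mono' hS
  intro y hy
  apply ENNReal.ofReal_le_ofReal
  have : (1 : ℝ) ≤ ‖x - y‖ / σ := by
    rw [le_div_iff₀ hσ]; simpa using hxS y hy
  rw [min_eq_left this, Real.one_rpow, one_mul]

end Pool.Agent.Helper749.Fp
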