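import Pool.Agent.Helper749.Fp.Dens

open MeasureTheory Metric Set Filter Topology
open scoped ENNReal NNReal RealInnerProductSpace ContDiff

set_option linter.unusedSectionVars false

namespace Pool.Agent.Helper749.Fp

variable {V : Type*} [NormedAddCommGroup V] [InnerProductSpace ℝ V] [FiniteDimensional ℝ V]
  [MeasurableSpace V] [BorelSpace V]
variable {W : Type*} [NormedAddCommGroup W] [InnerProductSpace ℝ W] [FiniteDimensional ℝ W]
  [MeasurableSpace W] [BorelSpace W]

/-- the local energy density -/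
noncomputable def eD (p α : ℝ) (u : V → W) (B : Set V) (x : V) : ℝ≥0∞ :=
  ∫⁻ y in B, ENNReal.ofReal (‖u x - u y‖ ^ p * kr α x y)

theorem eD_meas (p α : ℝ) {u : V → W} (hu : Measurable u) (B : Set V) :
    Measurable (eD p α u B) := by
  unfold eD
  have hkm := kr_meas (V := V) α
  exact Measurable.lintegral_prod_right' (f := fun w : V × V =>
    ENNReal.ofReal (‖u w.1 - u w.2‖ ^ p * kr α w.1 w.2)) (by fun_prop)

theorem compare_int {X : Type*} [MeasurableSpace X] {μ : Measure X} {f G D : X → ℝ}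
    (hf : Integrable f μ) (hf0 : ∫ x, f x ∂μ = 0) (hDm : Measurable D)
    (hG : ∀ x, 0 ≤ G x) (hD : ∀ x, 0 ≤ D x) (h : ∀ᵐ x ∂μ, G x - D x ≤ f x) :
    ∫⁻ x, ENNReal.ofReal (G x) ∂μ ≤ ∫⁻ x, ENNReal.ofReal (D x) ∂μ := by
  by_cases htop : ∫⁻ x, ENNReal.ofReal (D x) ∂μ = ⊤
  · rw [htop]; exact le_top
  · have hDi : Integrable D μ := by
      refine ⟨hDm.aestronglyMeasurable, ?_⟩
      rw [hasFiniteIntegral_iff_norm]
      refine lt_of_le_of_lt (lintegral_mono (fun x => ?_)) (lt_top_iff_ne_top.mpr htop)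
      rw [Real.norm_of_nonneg (hD x)]
    have h1 : ∫⁻ x, ENNReal.ofReal (G x) ∂μ ≤ ∫⁻ x, ENNReal.ofReal (f x + D x) ∂μ := by
      apply lintegral_mono_ae
      filter_upwards [h] with x hx
      exact ENNReal.ofReal_le_ofReal (by linarith)
    have h2 : ∫⁻ x, ENNReal.ofReal (f x + D x) ∂μ = ENNReal.ofReal (∫ x, (f x + D x) ∂μ) := by
      have hs : Integrable (fun x => f x + D x) μ := hf.add hDi
      rw [ofReal_integral_eq_lintegral_ofReal hs]
      filter_upwards [h] with x hx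
      have := hG x
      simp only [Pi.zero_apply]
      linarith
    have h3 : ∫⁻ x, ENNReal.ofReal (D x) ∂μ = ENNReal.ofReal (∫ x, D x ∂μ) := by
      rw [ofReal_integral_eq_lintegral_ofReal hDi (Eventually.of_forall hD)]
    rw [h3]
    refine h1.trans ?_
    rw [h2, integral_add hf hDi, hf0, zero_add]

theorem setLIntegral_prod' (A B : Set V) (g : V × V → ℝ≥0∞) (hg : Measurable g) :
    ∫⁻ w in A ×ˢ B, g w = ∫⁻ x in A, ∫⁻ y in B, g (x, y) := by
  rw [Measure.volume_eq_prod, ← Measure.prod_restrict, lintegral_prod _ hg.aemeasurable]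

theorem setLIntegral_prod_swap' (A : Set V) (g : V × V → ℝ≥0∞) :
    ∫⁻ w in A ×ˢ A, g w.swap = ∫⁻ w in A ×ˢ A, g w := by
  rw [Measure.volume_eq_prod, ← Measure.prod_restrict]
  exact lintegral_prod_swap (μ := (volume : Measure V).restrict A)
    (ν := (volume : Measure V).restrict A) g

theorem master [Nontrivial V] {p α : ℝ} (hp : 1 < p) (hα : 0 < α) (hαp : α < p)
    {Ω : Set V} {u : V → W} (S : Sol p α Ω u) (x0 : V) {ρ' ρ : ℝ} (h0 : 0 ≤ ρ) (h : ρ' < ρ)
    (hΩ : closedBall x0 ρ ⊆ Ω) (c : W) (F : V → ℝ) (hF : Measurable F) (hF0 : ∀ x, 0 ≤ F x)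
    (hFs : ∀ x, x ∉ ball x0 ρ' → F x = 0)
    (hφp : ∫⁻ x : V, ENNReal.ofReal (‖F x • (u x - c)‖ ^ p) < ⊤)
    (hE : ∫⁻ w : V × V, ENNReal.ofReal
      (‖F w.1 • (u w.1 - c) - F w.2 • (u w.2 - c)‖ ^ p * kr α w.1 w.2) < ⊤)
    (bad : V × V → ℝ) (hbm : Measurable bad) (hb0 : ∀ w, 0 ≤ bad w)
    (hb : ∀ᵐ w ∂((volume : Measure (V × V)).restrict (ball x0 ρ ×ˢ ball x0 ρ)),
      (1 / 4) * ‖u w.1 - u w.2‖ ^ p * (F w.1 + F w.2) - bad w ≤ ‖u w.1 - u w.2‖ ^ (p - 2) *
        ⟪u w.1 - u w.2, F w.1 • (u w.1 - c) - F w.2 • (u w.2 - c)⟫) :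
    ∫⁻ x in ball x0 ρ, ENNReal.ofReal (F x) * eD p α u (ball x0 ρ) x ≤
      2 * (∫⁻ w in ball x0 ρ ×ˢ ball x0 ρ, ENNReal.ofReal (bad w * kr α w.1 w.2)) +
      4 * ∫⁻ x in ball x0 ρ, ENNReal.ofReal (F x * ‖u x - c‖) *
        ∫⁻ y in (ball x0 ρ)ᶜ, ENNReal.ofReal (‖u x - u y‖ ^ (p - 1) * kr α x y) := by
  have hum := S.meas
  have hkm := kr_meas (V := V) α
  obtain ⟨hI, hI0⟩ := weak_ext hp hα hαp S x0 h0 h hΩ (fun x => F x • (u x - c)) (by fun_prop)
    (fun x hx => by rw [hFs x hx, zero_smul]) hφp hE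
  set B := ball x0 ρ with hB
  have hBm : MeasurableSet B := measurableSet_ball
  have hBB : ball x0 ρ' ⊆ B := ball_subset_ball h.le
  -- functions
  set G : V × V → ℝ := (B ×ˢ B).indicator (fun w =>
    (1 / 2) * ‖u w.1 - u w.2‖ ^ p * (F w.1 + F w.2) * kr α w.1 w.2) with hG
  set D1 : V × V → ℝ := (B ×ˢ B).indicator (fun w => 2 * (bad w * kr α w.1 w.2)) with hD1
  set fr : V × V → ℝ := (B ×ˢ Bᶜ).indicator (fun w =>
    2 * ((F w.1 * ‖u w.1 - c‖) * (‖u w.1 - u w.2‖ ^ (p - 1) * kr α w.1 w.2))) with hfr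
  have hGm : Measurable G := Measurable.indicator (by fun_prop) (hBm.prod hBm)
  have hD1m : Measurable D1 := Measurable.indicator (by fun_prop) (hBm.prod hBm)
  have hfrm : Measurable fr := Measurable.indicator (by fun_prop) (hBm.prod hBm.compl)
  have hG0 : ∀ w, 0 ≤ G w := fun w => indicator_nonneg (fun w _ => by
    have := kr_nonneg α w.1 w.2; have := hF0 w.1; have := hF0 w.2; positivity) w
  have hD10 : ∀ w, 0 ≤ D1 w := fun w => indicator_nonneg (fun w _ => by
    have := kr_nonneg α w.1 w.2; have := hb0 w; positivity) w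
  have hfr0 : ∀ w, 0 ≤ fr w := fun w => indicator_nonneg (fun w _ => by
    have := kr_nonneg α w.1 w.2; have := hF0 w.1; positivity) w
  have hpt : ∀ᵐ w : V × V, G w - (D1 w + (fr w + fr w.swap)) ≤
      2 * fI p α u (fun x => F x • (u x - c)) w := by
    have hb' := (ae_restrict_iff' (hBm.prod hBm)).mp hb
    filter_upwards [hb'] with w hw
    have hk := kr_nonneg α w.1 w.2
    by_cases hw1 : w.1 ∈ B <;> by_cases hw2 : w.2 ∈ B
    · have hw3 : w ∈ B ×ˢ B := ⟨hw1, hw2⟩
      have e1 : G w = (1 / 2) * ‖u w.1 - u w.2‖ ^ p * (F w.1 + F w.2) * kr α w.1 w.2 := by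
        rw [hG, indicator_of_mem hw3]
      have e2 : D1 w = 2 * (bad w * kr α w.1 w.2) := by rw [hD1, indicator_of_mem hw3]
      have h1 := hw hw3
      have h2 := mul_le_mul_of_nonneg_right h1 hk
      have h3 := hfr0 w
      have h4 := hfr0 w.swap
      have e3 : fI p α u (fun x => F x • (u x - c)) w = ‖u w.1 - u w.2‖ ^ (p - 2) *
        ⟪u w.1 - u w.2, F w.1 • (u w.1 - c) - F w.2 • (u w.2 - c)⟫ * kr α w.1 w.2 := rfl
      rw [e1, e2, e3]
      linarith
    · have hF2 : F w.2 = 0 := hFs _ (fun hc => hw2 (hBB hc))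
      have e1 : G w = 0 := by
        rw [hG, indicator_of_notMem (fun hc => hw2 hc.2)]
      have e2 : fr w = 2 * ((F w.1 * ‖u w.1 - c‖) * (‖u w.1 - u w.2‖ ^ (p - 1) *
          kr α w.1 w.2)) := by
        rw [hfr, indicator_of_mem (show w ∈ B ×ˢ Bᶜ from ⟨hw1, hw2⟩)]
      have h3 := hfr0 w.swap
      have h4 := hD10 w
      have h5 := fI_abs_le hp α u (fun x => F x • (u x - c)) w
      have h6 := (abs_le.mp h5).1
      simp only [hF2, zero_smul, sub_zero, norm_smul, Real.norm_of_nonneg (hF0 w.1)] at h6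
      rw [e1, e2]
      linarith
    · have hF1 : F w.1 = 0 := hFs _ (fun hc => hw1 (hBB hc))
      have e1 : G w = 0 := by
        rw [hG, indicator_of_notMem (fun hc => hw1 hc.1)]
      have e2 : fr w.swap = 2 * ((F w.2 * ‖u w.2 - c‖) * (‖u w.2 - u w.1‖ ^ (p - 1) *
          kr α w.2 w.1)) := by
        rw [hfr, indicator_of_mem (show w.swap ∈ B ×ˢ Bᶜ from ⟨hw2, hw1⟩)]
        rfl
      have h3 := hfr0 w
      have h4 := hD10 w
      have h5 := fI_abs_le hp α u (fun x => F x • (u x - c)) w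
      have h6 := (abs_le.mp h5).1
      simp only [hF1, zero_smul, zero_sub, norm_neg, norm_smul, Real.norm_of_nonneg (hF0 w.2)] at h6
      rw [e1, e2, norm_sub_rev (u w.2) (u w.1), kr_symm α w.2]
      linarith
    · have hF1 : F w.1 = 0 := hFs _ (fun hc => hw1 (hBB hc))
      have hF2 : F w.2 = 0 := hFs _ (fun hc => hw2 (hBB hc))
      have e1 : G w = 0 := by
        rw [hG, indicator_of_notMem (fun hc => hw1 hc.1)]
      have h3 := hfr0 w
      have h4 := hD10 w
      have h5 := hfr0 w.swap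
      have e3 : fI p α u (fun x => F x • (u x - c)) w = 0 := by
        unfold fI; simp [hF1, hF2]
      rw [e1, e3]
      linarith
  have hcmp := compare_int (f := fun w => 2 * fI p α u (fun x => F x • (u x - c)) w)
    (hI.const_mul 2) (by rw [integral_const_mul, hI0, mul_zero])
    (hD1m.add (hfrm.add (hfrm.comp measurable_swap))) hG0
    (fun w => add_nonneg (hD10 w) (add_nonneg (hfr0 w) (hfr0 w.swap))) hpt
  -- left side
  have hL : ∫⁻ w, ENNReal.ofReal (G w) =
      ∫⁻ x in B, ENNReal.ofReal (F x) * eD p α u B x := by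
    have e1 : ∀ w, ENNReal.ofReal (G w) = (B ×ˢ B).indicator (fun w =>
        ENNReal.ofReal ((1 / 2) * (F w.1 * (‖u w.1 - u w.2‖ ^ p * kr α w.1 w.2))) +
        ENNReal.ofReal ((1 / 2) * (F w.2 * (‖u w.2 - u w.1‖ ^ p * kr α w.2 w.1)))) w := by
      intro w
      by_cases hw : w ∈ B ×ˢ B
      · rw [hG, indicator_of_mem hw, indicator_of_mem hw]
        have := kr_nonneg α w.1 w.2
        have := kr_nonneg α w.2 w.1
        have := hF0 w.1
        have := hF0 w.2
        rw [← ENNReal.ofReal_add (by positivity) (by positivity)]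
        congr 1
        rw [norm_sub_rev (u w.2), kr_symm α w.2]
        ring
      · rw [hG, indicator_of_notMem hw, indicator_of_notMem hw, ENNReal.ofReal_zero]
    simp only [e1]
    rw [lintegral_indicator (hBm.prod hBm)]
    rw [lintegral_add_left (by fun_prop)]
    have e2 := setLIntegral_prod_swap' (V := V) B (fun w =>
      ENNReal.ofReal ((1 / 2) * (F w.1 * (‖u w.1 - u w.2‖ ^ p * kr α w.1 w.2))))
    simp only [Prod.fst_swap, Prod.snd_swap] at e2
    rw [e2, setLIntegral_prod' _ _ _ (by fun_prop)]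
    have e3 : ∀ x : V, ∫⁻ y in B, ENNReal.ofReal ((1 / 2) * (F x * (‖u x - u y‖ ^ p * kr α x y)))
        = ENNReal.ofReal (1 / 2) * (ENNReal.ofReal (F x) * eD p α u B x) := by
      intro x
      unfold eD
      have := kr_meas_right (V := V) α x
      rw [← lintegral_const_mul _ (by fun_prop), ← lintegral_const_mul _ (by fun_prop)]
      congr 1
      funext y
      rw [ENNReal.ofReal_mul (by norm_num), ENNReal.ofReal_mul (hF0 x)]
    simp only [e3]
    have hem := eD_meas p α hum B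
    rw [lintegral_const_mul _ (by fun_prop), ← add_mul, ← ENNReal.ofReal_add (by norm_num)
      (by norm_num)]
    norm_num
  -- right side
  have hR : ∫⁻ w, ENNReal.ofReal (D1 w + (fr w + fr w.swap)) =
      2 * (∫⁻ w in B ×ˢ B, ENNReal.ofReal (bad w * kr α w.1 w.2)) +
      4 * ∫⁻ x in B, ENNReal.ofReal (F x * ‖u x - c‖) *
        ∫⁻ y in Bᶜ, ENNReal.ofReal (‖u x - u y‖ ^ (p - 1) * kr α x y) := by
    have e1 : ∀ w, ENNReal.ofReal (D1 w + (fr w + fr w.swap)) =
        ENNReal.ofReal (D1 w) + (ENNReal.ofReal (fr w) + ENNReal.ofReal (fr w.swap)) := by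
      intro w
      rw [ENNReal.ofReal_add (hD10 w) (add_nonneg (hfr0 w) (hfr0 w.swap)),
        ENNReal.ofReal_add (hfr0 w) (hfr0 w.swap)]
    simp only [e1]
    rw [lintegral_add_left (by fun_prop), lintegral_add_left (by fun_prop)]
    have e2 : ∫⁻ w : V × V, ENNReal.ofReal (fr w.swap) = ∫⁻ w : V × V, ENNReal.ofReal (fr w) := by
      rw [Measure.volume_eq_prod]
      exact lintegral_prod_swap (μ := (volume : Measure V)) (ν := (volume : Measure V))
        (fun w => ENNReal.ofReal (fr w))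
    rw [e2]
    have e3 : ∫⁻ w : V × V, ENNReal.ofReal (D1 w) =
        2 * (∫⁻ w in B ×ˢ B, ENNReal.ofReal (bad w * kr α w.1 w.2)) := by
      have : ∀ w, ENNReal.ofReal (D1 w) = (B ×ˢ B).indicator (fun w =>
          2 * ENNReal.ofReal (bad w * kr α w.1 w.2)) w := by
        intro w
        by_cases hw : w ∈ B ×ˢ B
        · rw [hD1, indicator_of_mem hw, indicator_of_mem hw, ENNReal.ofReal_mul (by norm_num)]
          norm_num
        · rw [hD1, indicator_of_notMem hw, indicator_of_notMem hw, ENNReal.ofReal_zero]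
      simp only [this]
      rw [lintegral_indicator (hBm.prod hBm), lintegral_const_mul _ (by fun_prop)]
    have e4 : ∫⁻ w : V × V, ENNReal.ofReal (fr w) =
        2 * ∫⁻ x in B, ENNReal.ofReal (F x * ‖u x - c‖) *
        ∫⁻ y in Bᶜ, ENNReal.ofReal (‖u x - u y‖ ^ (p - 1) * kr α x y) := by
      have : ∀ w, ENNReal.ofReal (fr w) = (B ×ˢ Bᶜ).indicator (fun w =>
          2 * (ENNReal.ofReal (F w.1 * ‖u w.1 - c‖) *
            ENNReal.ofReal (‖u w.1 - u w.2‖ ^ (p - 1) * kr α w.1 w.2))) w := by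
        intro w
        by_cases hw : w ∈ B ×ˢ Bᶜ
        · rw [hfr, indicator_of_mem hw, indicator_of_mem hw, ENNReal.ofReal_mul (by norm_num),
            ENNReal.ofReal_mul (by have := hF0 w.1; positivity)]
          norm_num
        · rw [hfr, indicator_of_notMem hw, indicator_of_notMem hw, ENNReal.ofReal_zero]
      simp only [this]
      rw [lintegral_indicator (hBm.prod hBm.compl), lintegral_const_mul _ (by fun_prop),
        setLIntegral_prod' _ _ _ (by fun_prop)]
      congr 2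
      funext x
      have := kr_meas_right (V := V) α x
      exact lintegral_const_mul (ENNReal.ofReal (F x * ‖u x - c‖))
        (f := fun y => ENNReal.ofReal (‖u x - u y‖ ^ (p - 1) * kr α x y)) (by fun_prop)
    rw [e3, e4]
    ring
  rw [← hL, ← hR]
  exact hcmp

end Pool.Agent.Helper749.Fp
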