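import Pool.Agent.Helper749.Fp.Good

open MeasureTheory Metric Set Filter Topology
open scoped ENNReal NNReal RealInnerProductSpace ContDiff

set_option linter.unusedSectionVars false
set_option maxHeartbeats 4000000

namespace Pool.Agent.Helper749.Fp

variable {V : Type*} [NormedAddCommGroup V] [InnerProductSpace ℝ V] [FiniteDimensional ℝ V]
  [MeasurableSpace V] [BorelSpace V]
variable {W : Type*} [NormedAddCommGroup W] [InnerProductSpace ℝ W] [FiniteDimensional ℝ W]
  [MeasurableSpace W] [BorelSpace W]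

theorem tail_fin {p α : ℝ} (hα : 0 < α) {u : V → W} (hu : Measurable u)
    (htail : ∫⁻ y : V, ENNReal.ofReal (‖u y‖ ^ (p - 1) *
      (1 + ‖y‖) ^ (-((Module.finrank ℝ V : ℝ) + α))) < ⊤) (x0 : V) {r : ℝ} (hr : 0 < r) :
    ∫⁻ y in (ball x0 r)ᶜ, ENNReal.ofReal (‖u y‖ ^ (p - 1) * kr α x0 y) < ⊤ := by
  set n : ℝ := (Module.finrank ℝ V : ℝ) with hn
  set N : ℝ := (1 + ‖x0‖) / r + 1 with hN
  have hN0 : 0 < N := by positivity
  have hpt : ∀ y ∈ (ball x0 r)ᶜ, ENNReal.ofReal (‖u y‖ ^ (p - 1) * kr α x0 y) ≤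
      ENNReal.ofReal (N ^ (n + α)) *
        ENNReal.ofReal (‖u y‖ ^ (p - 1) * (1 + ‖y‖) ^ (-(n + α))) := by
    intro y hy
    have h1 : r ≤ ‖x0 - y‖ := by
      rw [mem_compl_iff, mem_ball, not_lt, dist_comm, dist_eq_norm] at hy; exact hy
    have hxy : 0 < ‖x0 - y‖ := lt_of_lt_of_le hr h1
    have hN1 : 1 + ‖y‖ ≤ N * ‖x0 - y‖ := by
      have h3 : ‖y‖ ≤ ‖x0‖ + ‖x0 - y‖ := norm_le_insert x0 y
      have h4 : 1 + ‖x0‖ ≤ (1 + ‖x0‖) / r * ‖x0 - y‖ := by
        rw [div_mul_eq_mul_div, le_div_iff₀ hr]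
        gcongr
      rw [hN]
      linarith
    have hk : kr α x0 y ≤ N ^ (n + α) * (1 + ‖y‖) ^ (-(n + α)) := by
      unfold kr
      rw [Real.rpow_neg hxy.le, Real.rpow_neg (by positivity), ← div_eq_mul_inv,
        inv_eq_one_div, div_le_div_iff₀ (by positivity) (by positivity), one_mul]
      rw [← Real.mul_rpow hN0.le hxy.le]
      apply Real.rpow_le_rpow (by positivity) hN1 (by positivity)
    rw [← ENNReal.ofReal_mul (by positivity)]
    apply ENNReal.ofReal_le_ofReal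
    calc ‖u y‖ ^ (p - 1) * kr α x0 y ≤ ‖u y‖ ^ (p - 1) * (N ^ (n + α) *
          (1 + ‖y‖) ^ (-(n + α))) := by gcongr
      _ = _ := by ring
  refine lt_of_le_of_lt (setLIntegral_mono' measurableSet_ball.compl hpt) ?_
  rw [lintegral_const_mul _ (by fun_prop)]
  exact ENNReal.mul_lt_top ENNReal.ofReal_lt_top
    (lt_of_le_of_lt (setLIntegral_le_lintegral _ _) htail)

/-- local boundedness -/
theorem loc_bdd [Nontrivial V] {p α : ℝ} (hp : 1 < p) (hα : 0 < α) (hαp : α < p)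
    {Ω : Set V} (hΩo : IsOpen Ω) {u : V → W} (S : Sol p α Ω u) {x0 : V} (hx0 : x0 ∈ Ω) :
    ∃ R0 L : ℝ, 0 < R0 ∧ 1 ≤ L ∧ closedBall x0 R0 ⊆ Ω ∧
      ∀ᵐ x ∂((volume : Measure V).restrict (ball x0 R0)), ‖u x‖ ≤ L := by
  have hum := S.meas
  have hp0 : 0 < p := by linarith
  obtain ⟨ε, hε, hεΩ⟩ := Metric.isOpen_iff.mp hΩo x0 hx0
  set r := ε / 4 with hr
  have hr0 : 0 < r := by positivity
  have hcb : closedBall x0 (2 * r) ⊆ Ω := by
    refine (closedBall_subset_ball ?_).trans hεΩ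
    rw [hr]; linarith
  obtain ⟨δ, hδ, hDG⟩ := DG (V := V) (W := W) hp hα hαp 1 zero_le_one
  set N : ℝ := p * Module.finrank ℝ V / α with hN
  have htf := tail_fin hα hum S.tail x0 hr0
  have hI : ∫⁻ x in closedBall x0 (2 * r), ENNReal.ofReal (‖u x‖ ^ p) < ⊤ :=
    S.lp _ (isCompact_closedBall _ _) hcb
  set T0 := (∫⁻ y in (ball x0 r)ᶜ, ENNReal.ofReal (‖u y‖ ^ (p - 1) * kr α x0 y)).toReal with hT0
  set I0 := (∫⁻ x in closedBall x0 (2 * r), ENNReal.ofReal (‖u x‖ ^ p)).toReal with hI0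
  have h1 : Tendsto (fun κ : ℝ => 1 * κ ^ (p - 1) * r ^ (-α)) atTop atTop := by
    simp only [one_mul]
    exact (tendsto_rpow_atTop (by linarith)).atTop_mul_const (by positivity)
  have h2 : Tendsto (fun κ : ℝ => δ * ((1 : ℝ) / 2) ^ N * κ ^ p * r ^ Module.finrank ℝ V)
      atTop atTop :=
    ((tendsto_rpow_atTop hp0).const_mul_atTop (by positivity)).atTop_mul_const (by positivity)
  obtain ⟨κ, hκ1, hκ2, hκ3⟩ := ((h1.eventually_ge_atTop T0).and
    ((h2.eventually_ge_atTop I0).and (eventually_ge_atTop 1))).exists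
  have hκ0 : 0 < κ := by linarith
  refine ⟨r, κ, hr0, hκ3, (closedBall_subset_closedBall (by linarith)).trans hcb, ?_⟩
  have := hDG Ω u S x0 r 0 κ (κ / 2) hr0 hcb (by linarith) le_rfl
    (by
      simp only [sub_zero]
      rw [← ENNReal.ofReal_toReal htf.ne]
      exact ENNReal.ofReal_le_ofReal hκ1)
    (by
      have e1 : κ / 2 / κ = 1 / 2 := by field_simp
      rw [e1]
      have h3 : ZZ p u 0 x0 (κ - κ / 2) (2 * r) ≤
          ∫⁻ x in closedBall x0 (2 * r), ENNReal.ofReal (‖u x‖ ^ p) := by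
        unfold ZZ
        simp only [sub_zero]
        exact lintegral_mono_set (inter_subset_left.trans ball_subset_closedBall)
      refine h3.trans ?_
      rw [← ENNReal.ofReal_toReal hI.ne]
      exact ENNReal.ofReal_le_ofReal hκ2)
  simpa only [sub_zero] using this

/-- uniform tail bound -/
theorem tail_unif [Nontrivial V] {p α C1 : ℝ} (hp : 1 < p) (hα : 0 < α) (hC1 : 0 < C1)
    (hC : ∀ σ : ℝ, 0 < σ → ∀ x : V,
      ∫⁻ y : V, ENNReal.ofReal ((min 1 (‖x - y‖ / σ)) ^ p *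
        ‖x - y‖ ^ (-((Module.finrank ℝ V : ℝ) + α))) ≤ ENNReal.ofReal (C1 * σ ^ (-α)))
    {Ω : Set V} {u : V → W} (S : Sol p α Ω u) {x0 : V} {R0 L L' : ℝ} (hR0 : 0 < R0)
    (hL : 0 ≤ L) (hL' : 0 ≤ L')
    (hb : ∀ᵐ x ∂((volume : Measure V).restrict (ball x0 R0)), ‖u x‖ ≤ L) :
    ∃ Cτ : ℝ, 0 < Cτ ∧ ∀ R : ℝ, 0 < R → R ≤ R0 → ∀ c : W, ‖c‖ ≤ L' →
      ∫⁻ y in (ball x0 R)ᶜ, ENNReal.ofReal (‖u y - c‖ ^ (p - 1) * kr α x0 y) ≤
        ENNReal.ofReal (Cτ * R ^ (-α)) := by
  have hum := S.meas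
  have htf := tail_fin hα hum S.tail x0 hR0
  have hkx := kr_meas_right (V := V) α x0
  set T0 := (∫⁻ y in (ball x0 R0)ᶜ, ENNReal.ofReal (‖u y‖ ^ (p - 1) * kr α x0 y)).toReal with hT0
  have hT00 : 0 ≤ T0 := ENNReal.toReal_nonneg
  set A : ℝ := (L + L') ^ (p - 1) * C1 with hA
  set Bc : ℝ := 2 ^ (p - 1) * (T0 + L' ^ (p - 1) * (C1 * R0 ^ (-α))) with hBc
  have hA0 : 0 ≤ A := by positivity
  have hBc0 : 0 ≤ Bc := by positivity
  refine ⟨A + Bc * R0 ^ α + 1, by positivity, ?_⟩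
  intro R hR hRR c hc
  have hsplit : (ball x0 R)ᶜ ⊆ (ball x0 R0 \ ball x0 R) ∪ (ball x0 R0)ᶜ := by
    intro y hy
    by_cases h : y ∈ ball x0 R0
    · exact Or.inl ⟨h, hy⟩
    · exact Or.inr h
  have hdist : ∀ t : ℝ, ∀ y ∈ (ball x0 t)ᶜ, t ≤ ‖x0 - y‖ := by
    intro t y hy
    rw [mem_compl_iff, mem_ball, not_lt, dist_comm, dist_eq_norm] at hy; exact hy
  have h1 : ∫⁻ y in ball x0 R0 \ ball x0 R, ENNReal.ofReal (‖u y - c‖ ^ (p - 1) * kr α x0 y) ≤
      ENNReal.ofReal (A * R ^ (-α)) := by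
    have h2 : ∫⁻ y in ball x0 R0 \ ball x0 R, ENNReal.ofReal (‖u y - c‖ ^ (p - 1) * kr α x0 y) ≤
        ∫⁻ y in ball x0 R0 \ ball x0 R, ENNReal.ofReal ((L + L') ^ (p - 1)) *
          ENNReal.ofReal (kr α x0 y) := by
      apply lintegral_mono_ae
      refine (ae_restrict_iff' (measurableSet_ball.diff measurableSet_ball)).mpr ?_
      filter_upwards [(ae_restrict_iff' measurableSet_ball).mp hb] with y hy hy2
      have h3 := hy hy2.1
      rw [← ENNReal.ofReal_mul (by positivity)]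
      apply ENNReal.ofReal_le_ofReal
      apply mul_le_mul_of_nonneg_right _ (kr_nonneg _ _ _)
      apply Real.rpow_le_rpow (norm_nonneg _) _ (by linarith)
      exact (norm_sub_le _ _).trans (by linarith)
    refine h2.trans ?_
    rw [lintegral_const_mul _ (by fun_prop)]
    have h4 : ∫⁻ y in ball x0 R0 \ ball x0 R, ENNReal.ofReal (kr α x0 y) ≤
        ENNReal.ofReal (C1 * R ^ (-α)) := by
      apply kern_tail hC hR x0 _ (measurableSet_ball.diff measurableSet_ball)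
      intro y hy
      exact hdist R y hy.2
    refine (mul_le_mul' le_rfl h4).trans_eq ?_
    rw [← ENNReal.ofReal_mul (by positivity)]
    congr 1
    rw [hA]; ring
  have h5 : ∫⁻ y in (ball x0 R0)ᶜ, ENNReal.ofReal (‖u y - c‖ ^ (p - 1) * kr α x0 y) ≤
      ENNReal.ofReal Bc := by
    have h6 : ∀ y ∈ (ball x0 R0)ᶜ, ENNReal.ofReal (‖u y - c‖ ^ (p - 1) * kr α x0 y) ≤
        ENNReal.ofReal (2 ^ (p - 1)) * (ENNReal.ofReal (‖u y‖ ^ (p - 1) * kr α x0 y) +
        ENNReal.ofReal (L' ^ (p - 1)) * ENNReal.ofReal (kr α x0 y)) := by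
      intro y _
      have hk := kr_nonneg α x0 y
      rw [← ENNReal.ofReal_mul (by positivity), ← ENNReal.ofReal_add (by positivity)
        (by positivity), ← ENNReal.ofReal_mul (by positivity)]
      apply ENNReal.ofReal_le_ofReal
      have h7 : ‖u y - c‖ ^ (p - 1) ≤ 2 ^ (p - 1) * (‖u y‖ ^ (p - 1) + L' ^ (p - 1)) := by
        refine le_trans ?_ (add_rpow_le_two (by linarith) (norm_nonneg _) hL')
        apply Real.rpow_le_rpow (norm_nonneg _) _ (by linarith)
        exact (norm_sub_le _ _).trans (by linarith)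
      calc ‖u y - c‖ ^ (p - 1) * kr α x0 y
          ≤ 2 ^ (p - 1) * (‖u y‖ ^ (p - 1) + L' ^ (p - 1)) * kr α x0 y := by gcongr
        _ = _ := by ring
    refine (setLIntegral_mono' measurableSet_ball.compl h6).trans ?_
    rw [lintegral_const_mul _ (by fun_prop), lintegral_add_left (by fun_prop),
      lintegral_const_mul _ (by fun_prop)]
    have h8 : ∫⁻ y in (ball x0 R0)ᶜ, ENNReal.ofReal (kr α x0 y) ≤
        ENNReal.ofReal (C1 * R0 ^ (-α)) := by
      apply kern_tail hC hR0 x0 _ measurableSet_ball.compl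
      intro y hy
      exact hdist R0 y hy
    calc _ ≤ ENNReal.ofReal (2 ^ (p - 1)) * (ENNReal.ofReal T0 +
          ENNReal.ofReal (L' ^ (p - 1)) * ENNReal.ofReal (C1 * R0 ^ (-α))) := by
          gcongr
          rw [hT0, ENNReal.ofReal_toReal htf.ne]
      _ = _ := by
          rw [← ENNReal.ofReal_mul (by positivity), ← ENNReal.ofReal_add (by positivity)
            (by positivity), ← ENNReal.ofReal_mul (by positivity)]
  calc ∫⁻ y in (ball x0 R)ᶜ, ENNReal.ofReal (‖u y - c‖ ^ (p - 1) * kr α x0 y)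
      ≤ ∫⁻ y in (ball x0 R0 \ ball x0 R) ∪ (ball x0 R0)ᶜ,
        ENNReal.ofReal (‖u y - c‖ ^ (p - 1) * kr α x0 y) := lintegral_mono_set hsplit
    _ ≤ _ := lintegral_union_le _ _ _
    _ ≤ ENNReal.ofReal (A * R ^ (-α)) + ENNReal.ofReal Bc := add_le_add h1 h5
    _ ≤ _ := by
        rw [← ENNReal.ofReal_add (by positivity) hBc0]
        apply ENNReal.ofReal_le_ofReal
        have h9 : 1 ≤ R0 ^ α * R ^ (-α) := by
          rw [Real.rpow_neg hR.le, ← div_eq_mul_inv, one_le_div (by positivity)]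
          exact Real.rpow_le_rpow hR.le hRR hα.le
        have h10 : Bc ≤ Bc * (R0 ^ α * R ^ (-α)) := le_mul_of_one_le_right hBc0 h9
        have h11 : 0 < R ^ (-α) := by positivity
        calc A * R ^ (-α) + Bc ≤ A * R ^ (-α) + Bc * (R0 ^ α * R ^ (-α)) := by linarith
          _ ≤ A * R ^ (-α) + Bc * (R0 ^ α * R ^ (-α)) + R ^ (-α) := by linarith
          _ = _ := by ring

/-- vanishing oscillation at every point -/
theorem osc_small [Nontrivial V] [Nontrivial W] {p α : ℝ} (hp : 1 < p) (hα : 0 < α) (hαp : α < p)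
    {Ω : Set V} (hΩo : IsOpen Ω) {u : V → W} (S : Sol p α Ω u) {x0 : V} (hx0 : x0 ∈ Ω)
    {ε : ℝ} (hε : 0 < ε) :
    ∃ r : ℝ, 0 < r ∧ ∃ c : W, ∀ᵐ x ∂((volume : Measure V).restrict (ball x0 r)), ‖u x - c‖ ≤ ε := by
  have hum := S.meas
  have hp0 : 0 < p := by linarith
  obtain ⟨C1, hC1, hC⟩ := kern_bound (V := V) hα hαp
  obtain ⟨R0, L, hR0, hL1, hR0Ω, hbd⟩ := loc_bdd hp hα hαp hΩo S hx0
  have hL0 : 0 ≤ L := by linarith
  obtain ⟨Cτ, hCτ, htu⟩ := tail_unif hp hα hC1 hC S hR0 hL0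
    (by linarith : (0 : ℝ) ≤ 3 * L + 2) hbd
  set n := Module.finrank ℝ V with hn
  set d : ℝ := (n : ℝ) + α with hd
  have hd0 : 0 < d := by positivity
  -- the far centre
  obtain ⟨e, he⟩ := exists_norm_eq W (by linarith : (0 : ℝ) ≤ 2 * L + 1)
  have hlow : ∀ᵐ x ∂((volume : Measure V).restrict (ball x0 R0)),
      1 ≤ ‖u x - e‖ ∧ ‖u x - e‖ ≤ 3 * L + 1 := by
    filter_upwards [hbd] with x hx
    constructor
    · have := norm_sub_norm_le e (u x)
      rw [norm_sub_rev e] at this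
      linarith
    · exact (norm_sub_le _ _).trans (by linarith)
  -- the critical level
  set A : Set ℝ := {m | 0 ≤ m ∧ ∃ ρ : ℝ, 0 < ρ ∧
    ∀ᵐ x ∂((volume : Measure V).restrict (ball x0 ρ)), ‖u x - e‖ ≤ m} with hA
  have hAne : (3 * L + 1) ∈ A :=
    ⟨by linarith, R0, hR0, hlow.mono (fun x hx => hx.2)⟩
  have hAlow : ∀ m ∈ A, 1 ≤ m := by
    intro m hm
    obtain ⟨_, ρ, hρ, hm2⟩ := hm
    set t := min ρ R0 with ht
    have ht0 : 0 < t := lt_min hρ hR0
    have h1 : ∀ᵐ x ∂((volume : Measure V).restrict (ball x0 t)), ‖u x - e‖ ≤ m :=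
      ae_restrict_of_ae_restrict_of_subset (ball_subset_ball (min_le_left _ _)) hm2
    have h2 : ∀ᵐ x ∂((volume : Measure V).restrict (ball x0 t)), 1 ≤ ‖u x - e‖ ∧
        ‖u x - e‖ ≤ 3 * L + 1 :=
      ae_restrict_of_ae_restrict_of_subset (ball_subset_ball (min_le_right _ _)) hlow
    have hne : (ae ((volume : Measure V).restrict (ball x0 t))).NeBot := by
      rw [ae_neBot]
      intro h
      have : volume (ball x0 t) = 0 := by rwa [Measure.restrict_eq_zero] at h
      exact (measure_ball_pos volume x0 ht0).ne' this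
    obtain ⟨x, hx1, hx2⟩ := (h1.and h2).exists
    linarith [hx2.1]
  have hAbdd : BddBelow A := ⟨1, fun m hm => hAlow m hm⟩
  set M0 := sInf A with hM0
  have hM01 : 1 ≤ M0 := le_csInf ⟨_, hAne⟩ hAlow
  have hM0L : M0 ≤ 3 * L + 1 := csInf_le hAbdd hAne
  set Mx : ℝ := 3 * L + 2 with hMx
  have hMx1 : 1 ≤ Mx := by linarith
  -- smallness
  obtain ⟨δ, hδ, hDG⟩ := DG (V := V) (W := W) hp hα hαp (C1 + 2) (by linarith)
  set N : ℝ := p * n / α with hN
  set κ : ℝ := min (δ * (1 / 2) ^ N * ε ^ p / 6 ^ d) (ε ^ p / 5 ^ d) with hκ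
  have hκ0 : 0 < κ := by positivity
  have hκ1 : κ ≤ δ * (1 / 2) ^ N * ε ^ p / 6 ^ d := min_le_left _ _
  have hκ2 : κ ≤ ε ^ p / 5 ^ d := min_le_right _ _
  obtain ⟨l0, hl00, hl01, hgood⟩ := good_point (V := V) (W := W) hp hα hαp (Mx := Mx) (κ := κ)
    (Θ := Cτ) hMx1 hκ0 hCτ.le
  -- choice of H
  have hHt : Tendsto (fun H : ℝ => H ^ (-α)) atTop (𝓝 0) := tendsto_rpow_neg_atTop hα
  set tg : ℝ := min (κ / (8 * Mx * 2 ^ d * Cτ)) (ε ^ (p - 1) / Cτ) with htg
  have htg0 : 0 < tg := by positivity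
  obtain ⟨H, hH1, hH16⟩ := ((hHt.eventually (gt_mem_nhds htg0)).and
    (eventually_ge_atTop (16 : ℝ))).exists
  have hH0 : 0 < H := by linarith
  have hHa : H ^ (-α) ≤ κ / (8 * Mx * 2 ^ d * Cτ) := hH1.le.trans (min_le_left _ _)
  have hHb : H ^ (-α) ≤ ε ^ (p - 1) / Cτ := hH1.le.trans (min_le_right _ _)
  -- the level M
  set M : ℝ := Real.sqrt (M0 ^ 2 + l0 / 4) with hM
  have hM2 : M ^ 2 = M0 ^ 2 + l0 / 4 := Real.sq_sqrt (by positivity)
  have hMM0 : M0 < M := by
    rw [hM]; apply Real.lt_sqrt_of_sq_lt; linarith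
  have hM1 : 1 ≤ M := by linarith
  have hMMx : M ≤ Mx := by
    rw [hM]; apply Real.sqrt_le_iff.mpr
    refine ⟨by linarith, ?_⟩
    have h1 : (M0 + 1) ^ 2 ≤ Mx ^ 2 := pow_le_pow_left₀ (by linarith) (by linarith) 2
    have h2 : (M0 + 1) ^ 2 = M0 ^ 2 + 2 * M0 + 1 := by ring
    linarith
  obtain ⟨m, hmA, hmM⟩ := exists_lt_of_csInf_lt ⟨_, hAne⟩ hMM0
  obtain ⟨_, r1, hr1, hm2⟩ := hmA
  set R : ℝ := min r1 R0 with hR
  have hRpos : 0 < R := lt_min hr1 hR0
  have hRR0 : R ≤ R0 := min_le_right _ _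
  set r : ℝ := R / H with hr
  have hr0 : 0 < r := by positivity
  have hRr : R = H * r := by rw [hr]; field_simp
  have h16 : 16 * r ≤ R := by rw [hRr]; gcongr
  have hMae : ∀ᵐ x ∂((volume : Measure V).restrict (ball x0 R)), ‖u x - e‖ ≤ M := by
    filter_upwards [ae_restrict_of_ae_restrict_of_subset
      (ball_subset_ball (min_le_left r1 R0)) hm2] with x hx
    linarith
  have hRΩ : closedBall x0 R ⊆ Ω := (closedBall_subset_closedBall hRR0).trans hR0Ω
  have hRα : R ^ (-α) = H ^ (-α) * r ^ (-α) := by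
    rw [hRr, Real.mul_rpow hH0.le hr0.le]
  set Λ : ℝ := 2 ^ d * (Cτ * R ^ (-α)) with hΛ
  have hΛ0 : 0 ≤ Λ := by positivity
  have hfar : ∀ᵐ x ∂((volume : Measure V).restrict (ball x0 (8 * r))),
      ∫⁻ y in (ball x0 R)ᶜ, ENNReal.ofReal (‖u x - u y‖ ^ (p - 1) * kr α x y) ≤
        ENNReal.ofReal Λ := by
    have h1 : ∀ᵐ x ∂((volume : Measure V).restrict (ball x0 (8 * r))), ‖u x‖ ≤ L :=
      ae_restrict_of_ae_restrict_of_subset (ball_subset_ball (by linarith)) hbd
    have h2 : ∀ᵐ x ∂((volume : Measure V).restrict (ball x0 (8 * r))), x ∈ ball x0 (8 * r) :=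
      ae_restrict_mem measurableSet_ball
    filter_upwards [h1, h2] with x hx hxb
    have h3 := htu R hRpos hRR0 (u x) (by linarith)
    have h4 : ∀ y ∈ (ball x0 R)ᶜ, ENNReal.ofReal (‖u x - u y‖ ^ (p - 1) * kr α x y) ≤
        ENNReal.ofReal (2 ^ d) * ENNReal.ofReal (‖u y - u x‖ ^ (p - 1) * kr α x0 y) := by
      intro y hy
      rw [← ENNReal.ofReal_mul (by positivity)]
      apply ENNReal.ofReal_le_ofReal
      have h5 := kr_compare hα hRpos (by linarith : 8 * r < R) hxb hy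
      have h6 : (R / (R - 8 * r)) ^ d ≤ 2 ^ d := by
        apply Real.rpow_le_rpow _ _ hd0.le
        · have : 0 < R - 8 * r := by linarith
          positivity
        · rw [div_le_iff₀ (by linarith)]; linarith
      have h7 := kr_nonneg α x0 y
      rw [norm_sub_rev (u x)]
      calc ‖u y - u x‖ ^ (p - 1) * kr α x y
          ≤ ‖u y - u x‖ ^ (p - 1) * ((R / (R - 8 * r)) ^ d * kr α x0 y) := by gcongr
        _ ≤ ‖u y - u x‖ ^ (p - 1) * (2 ^ d * kr α x0 y) := by gcongr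
        _ = _ := by ring
    refine (setLIntegral_mono' measurableSet_ball.compl h4).trans ?_
    have hkx := kr_meas_right (V := V) α x0
    rw [lintegral_const_mul _ (by fun_prop), hΛ, ENNReal.ofReal_mul (by positivity)]
    gcongr
  have hcond : 4 * M * Λ ≤ (1 / 2) * (κ * r ^ (-α)) := by
    have h1 : 8 * Mx * 2 ^ d * Cτ * H ^ (-α) ≤ κ := by
      rw [le_div_iff₀ (by positivity)] at hHa
      linarith
    calc 4 * M * Λ ≤ 4 * Mx * Λ := by gcongr
      _ = (1 / 2) * ((8 * Mx * 2 ^ d * Cτ * H ^ (-α)) * r ^ (-α)) := by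
          rw [hΛ, hRα]; ring
      _ ≤ _ := by gcongr
  have hnear : ¬ (∀ᵐ x ∂((volume : Measure V).restrict (ball x0 r)),
      ‖u x - e‖ ^ 2 ≤ M ^ 2 - l0 / 2) := by
    intro hc
    set m' : ℝ := Real.sqrt (M0 ^ 2 - l0 / 4) with hm'
    have h1 : 0 ≤ M0 ^ 2 - l0 / 4 := by
      have : 1 ≤ M0 ^ 2 := one_le_pow₀ hM01
      linarith
    have h2 : m' ∈ A := by
      refine ⟨Real.sqrt_nonneg _, r, hr0, ?_⟩
      filter_upwards [hc] with x hx
      rw [hm']
      apply Real.le_sqrt_of_sq_le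
      rw [hM2] at hx
      linarith
    have h3 : M0 ≤ m' := csInf_le hAbdd h2
    have h4 : m' ^ 2 = M0 ^ 2 - l0 / 4 := Real.sq_sqrt h1
    have h5 : M0 ^ 2 ≤ m' ^ 2 := pow_le_pow_left₀ (by linarith) h3 2
    linarith
  have hg := hgood Ω u S x0 R r M Λ e hr0 h16 hRΩ hM1 hMMx hMae hΛ0 hfar hcond
    (htu r hr0 (by linarith) e (by rw [he]; linarith)) hnear
  -- extract a good point
  have hbd4 : ∀ᵐ x ∂((volume : Measure V).restrict (ball x0 (4 * r))), ‖u x‖ ≤ L :=
    ae_restrict_of_ae_restrict_of_subset (ball_subset_ball (by linarith)) hbd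
  have hmem4 : ∀ᵐ x ∂((volume : Measure V).restrict (ball x0 (4 * r))), x ∈ ball x0 (4 * r) :=
    ae_restrict_mem measurableSet_ball
  obtain ⟨x', hx'1, hx'L, hx'b⟩ :=
    ((Filter.not_eventually.mp hg).and_eventually (hbd4.and hmem4)).exists
  rw [not_le] at hx'1
  have hx'n : ‖x' - x0‖ < 4 * r := by rwa [mem_ball, dist_eq_norm] at hx'b
  refine ⟨r, hr0, u x', ?_⟩
  have heD : ∀ S' : Set V, S' ⊆ ball x0 R →
      ∫⁻ y in S', ENNReal.ofReal (‖u x' - u y‖ ^ p * kr α x' y) ≤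
        ENNReal.ofReal (κ * r ^ (-α)) := fun S' hS' =>
    (lintegral_mono_set hS').trans hx'1.le
  have hkx' := kr_meas_right (V := V) α x'
  have hkx0 := kr_meas_right (V := V) α x0
  apply hDG Ω u S x0 r (u x') ε (ε / 2) hr0
    ((closedBall_subset_closedBall (by linarith)).trans hRΩ) (by linarith) le_rfl
  · -- the tail
    have hsplit : (ball x0 r)ᶜ ⊆ (ball x0 R \ ball x0 r) ∪ (ball x0 R)ᶜ := by
      intro y hy
      by_cases h : y ∈ ball x0 R
      · exact Or.inl ⟨h, hy⟩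
      · exact Or.inr h
    have h1 : ∫⁻ y in ball x0 R \ ball x0 r, ENNReal.ofReal (‖u y - u x'‖ ^ (p - 1) * kr α x0 y) ≤
        ENNReal.ofReal ((C1 * ε ^ (p - 1) + ε ^ (p - 1)) * r ^ (-α)) := by
      have h2 : ∀ y ∈ ball x0 R \ ball x0 r,
          ENNReal.ofReal (‖u y - u x'‖ ^ (p - 1) * kr α x0 y) ≤
          ENNReal.ofReal (ε ^ (p - 1)) * ENNReal.ofReal (kr α x0 y) +
          ENNReal.ofReal (ε⁻¹ * 5 ^ d) * ENNReal.ofReal (‖u x' - u y‖ ^ p * kr α x' y) := by
        intro y hy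
        have hk0 := kr_nonneg α x0 y
        have hk1 := kr_nonneg α x' y
        have hy1 : r ≤ ‖x0 - y‖ := by
          have := hy.2
          rw [mem_ball, not_lt, dist_comm, dist_eq_norm] at this; exact this
        rw [← ENNReal.ofReal_mul (by positivity), ← ENNReal.ofReal_mul (by positivity),
          ← ENNReal.ofReal_add (by positivity) (by positivity)]
        apply ENNReal.ofReal_le_ofReal
        rw [norm_sub_rev (u y)]
        set z := ‖u x' - u y‖ with hz
        have hz0 : 0 ≤ z := norm_nonneg _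
        rcases le_or_gt z ε with h3 | h3
        · have h4 : z ^ (p - 1) ≤ ε ^ (p - 1) := Real.rpow_le_rpow hz0 h3 (by linarith)
          have h5 : 0 ≤ ε⁻¹ * 5 ^ d * (z ^ p * kr α x' y) := by positivity
          have h6 : z ^ (p - 1) * kr α x0 y ≤ ε ^ (p - 1) * kr α x0 y := by gcongr
          linarith
        · have hne : x' ≠ y := by
            intro hc
            have : z = 0 := by rw [hz, hc, sub_self, norm_zero]
            linarith
          have hxy : 0 < ‖x' - y‖ := norm_pos_iff.mpr (sub_ne_zero.mpr hne)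
          have hx0y : 0 < ‖x0 - y‖ := lt_of_lt_of_le hr0 hy1
          have h4 : z ^ (p - 1) ≤ ε⁻¹ * z ^ p := by
            rw [← rp0 hp hz0, inv_mul_eq_div, le_div_iff₀ hε]
            gcongr
          have h5 : kr α x0 y ≤ 5 ^ d * kr α x' y := by
            have h6 : ‖x' - y‖ ≤ 5 * ‖x0 - y‖ := by
              have h7 := norm_sub_le_norm_sub_add_norm_sub x' x0 y
              linarith
            unfold kr
            rw [Real.rpow_neg hxy.le, Real.rpow_neg hx0y.le, ← div_eq_mul_inv, inv_eq_one_div,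
              div_le_div_iff₀ (by positivity) (by positivity), one_mul,
              ← Real.mul_rpow (by norm_num) hx0y.le]
            exact Real.rpow_le_rpow hxy.le h6 hd0.le
          have h8 : 0 ≤ ε ^ (p - 1) * kr α x0 y := by positivity
          calc z ^ (p - 1) * kr α x0 y ≤ (ε⁻¹ * z ^ p) * (5 ^ d * kr α x' y) := by gcongr
            _ = ε⁻¹ * 5 ^ d * (z ^ p * kr α x' y) := by ring
            _ ≤ _ := by linarith
      refine (setLIntegral_mono' (measurableSet_ball.diff measurableSet_ball) h2).trans ?_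
      rw [lintegral_add_left (by fun_prop), lintegral_const_mul _ (by fun_prop),
        lintegral_const_mul _ (by fun_prop)]
      have h9 : ∫⁻ y in ball x0 R \ ball x0 r, ENNReal.ofReal (kr α x0 y) ≤
          ENNReal.ofReal (C1 * r ^ (-α)) := by
        apply kern_tail hC hr0 x0 _ (measurableSet_ball.diff measurableSet_ball)
        intro y hy
        have := hy.2
        rw [mem_ball, not_lt, dist_comm, dist_eq_norm] at this; exact this
      calc _ ≤ ENNReal.ofReal (ε ^ (p - 1)) * ENNReal.ofReal (C1 * r ^ (-α)) +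
            ENNReal.ofReal (ε⁻¹ * 5 ^ d) * ENNReal.ofReal (κ * r ^ (-α)) := by
            gcongr
            exact heD _ sdiff_subset
        _ ≤ _ := by
            rw [← ENNReal.ofReal_mul (by positivity), ← ENNReal.ofReal_mul (by positivity),
              ← ENNReal.ofReal_add (by positivity) (by positivity)]
            apply ENNReal.ofReal_le_ofReal
            have h10 : ε⁻¹ * 5 ^ d * κ ≤ ε ^ (p - 1) := by
              calc ε⁻¹ * 5 ^ d * κ ≤ ε⁻¹ * 5 ^ d * (ε ^ p / 5 ^ d) := by gcongr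
                _ = ε⁻¹ * ε ^ p := by field_simp
                _ = ε ^ (p - 1) := by
                    rw [← rp0 hp hε.le]; field_simp
            have h11 : 0 < r ^ (-α) := by positivity
            calc ε ^ (p - 1) * (C1 * r ^ (-α)) + ε⁻¹ * 5 ^ d * (κ * r ^ (-α))
                = C1 * ε ^ (p - 1) * r ^ (-α) + (ε⁻¹ * 5 ^ d * κ) * r ^ (-α) := by ring
              _ ≤ C1 * ε ^ (p - 1) * r ^ (-α) + ε ^ (p - 1) * r ^ (-α) := by gcongr
              _ = _ := by ring
    have h12 := htu R hRpos hRR0 (u x') (by linarith)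
    calc ∫⁻ y in (ball x0 r)ᶜ, ENNReal.ofReal (‖u y - u x'‖ ^ (p - 1) * kr α x0 y)
        ≤ ∫⁻ y in (ball x0 R \ ball x0 r) ∪ (ball x0 R)ᶜ,
          ENNReal.ofReal (‖u y - u x'‖ ^ (p - 1) * kr α x0 y) := lintegral_mono_set hsplit
      _ ≤ _ := lintegral_union_le _ _ _
      _ ≤ ENNReal.ofReal ((C1 * ε ^ (p - 1) + ε ^ (p - 1)) * r ^ (-α)) +
          ENNReal.ofReal (Cτ * R ^ (-α)) := add_le_add h1 h12
      _ ≤ _ := by
          rw [← ENNReal.ofReal_add (by positivity) (by positivity)]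
          apply ENNReal.ofReal_le_ofReal
          have h13 : Cτ * R ^ (-α) ≤ ε ^ (p - 1) * r ^ (-α) := by
            rw [hRα]
            rw [le_div_iff₀ hCτ] at hHb
            have h11 : 0 < r ^ (-α) := by positivity
            calc Cτ * (H ^ (-α) * r ^ (-α)) = (H ^ (-α) * Cτ) * r ^ (-α) := by ring
              _ ≤ ε ^ (p - 1) * r ^ (-α) := by gcongr
          linarith
  · -- the energy
    have h1 : ZZ p u (u x') x0 (ε - ε / 2) (2 * r) ≤
        ENNReal.ofReal ((6 * r) ^ d) * ENNReal.ofReal (κ * r ^ (-α)) := by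
      unfold ZZ
      refine le_trans (lintegral_mono_set inter_subset_left) ?_
      have h2 : ∀ y ∈ ball x0 (2 * r), ENNReal.ofReal (‖u y - u x'‖ ^ p) ≤
          ENNReal.ofReal ((6 * r) ^ d) * ENNReal.ofReal (‖u x' - u y‖ ^ p * kr α x' y) := by
        intro y hy
        have hk1 := kr_nonneg α x' y
        rw [← ENNReal.ofReal_mul (by positivity), norm_sub_rev (u y)]
        apply ENNReal.ofReal_le_ofReal
        by_cases hne : x' = y
        · rw [← hne, sub_self, norm_zero, Real.zero_rpow hp0.ne']; simp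
        · have hxy : 0 < ‖x' - y‖ := norm_pos_iff.mpr (sub_ne_zero.mpr hne)
          have hxy6 : ‖x' - y‖ ≤ 6 * r := by
            have hy' : ‖y - x0‖ < 2 * r := by rwa [mem_ball, dist_eq_norm] at hy
            have h7 := norm_sub_le_norm_sub_add_norm_sub x' x0 y
            rw [norm_sub_rev x0 y] at h7
            linarith
          have h8 : 1 ≤ (6 * r) ^ d * kr α x' y := by
            unfold kr
            rw [Real.rpow_neg hxy.le, ← div_eq_mul_inv, one_le_div (by positivity)]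
            exact Real.rpow_le_rpow hxy.le hxy6 hd0.le
          have h9 : 0 ≤ ‖u x' - u y‖ ^ p := by positivity
          calc ‖u x' - u y‖ ^ p ≤ ‖u x' - u y‖ ^ p * ((6 * r) ^ d * kr α x' y) :=
                le_mul_of_one_le_right h9 h8
            _ = _ := by ring
      refine (setLIntegral_mono' measurableSet_ball h2).trans ?_
      rw [lintegral_const_mul _ (by fun_prop)]
      gcongr
      exact heD _ (ball_subset_ball (by linarith))
    refine h1.trans ?_
    rw [← ENNReal.ofReal_mul (by positivity)]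
    apply ENNReal.ofReal_le_ofReal
    have e1 : ε / 2 / ε = 1 / 2 := by field_simp
    have e2 : (6 * r) ^ d * r ^ (-α) = 6 ^ d * r ^ n := by
      rw [Real.mul_rpow (by norm_num) hr0.le, mul_assoc, ← Real.rpow_add hr0, hd,
        add_neg_cancel_right, Real.rpow_natCast]
    rw [e1]
    calc (6 * r) ^ d * (κ * r ^ (-α)) = κ * ((6 * r) ^ d * r ^ (-α)) := by ring
      _ = κ * (6 ^ d * r ^ n) := by rw [e2]
      _ ≤ (δ * (1 / 2) ^ N * ε ^ p / 6 ^ d) * (6 ^ d * r ^ n) := by gcongr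
      _ = δ * (1 / 2) ^ N * ε ^ p * r ^ n := by field_simp

end Pool.Agent.Helper749.Fp
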